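import Mathlib
import Pool.Agent.H371.GT.Lib
import Pool.Agent.H371.SE.Defs

/-!
Definitions for the study of automorphisms of finite order of the free profinite group `F2`
which map `X`, `Y`, `Z` to conjugates of their `l`-th powers.

From `Pool.Agent.H371.SE.Defs` we use: `AddOn U f` (`f (x * y) = f x + f y` for `x, y ∈ U`),
`LC U f` (`f` is locally constant on `U`), `CZ p U f` (`f : Γ → ℤ_[p]` is continuous on `U`),
`RI U f` (`f (x * u) = f x` for all `x` and all `u ∈ U`), `csum U f` (the sum over the left cosets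
of `U`), `Good p Γ`.
-/

set_option autoImplicit false

namespace Pool.Agent.H371.GT

open SE (AddOn LC CZ RI csum)

section abs
variable {G : Type} [Group G] [TopologicalSpace G]

/-- locally constant 2-cocycles on open subgroups with values in `ZMod p` are coboundaries -/
def CD (p : ℕ) (G : Type) [Group G] [TopologicalSpace G] : Prop :=
  ∀ U : Subgroup G, IsOpen (U : Set G) → ∀ C : G → G → ZMod p,
    (∀ x ∈ U, ∀ y ∈ U, ∀ z ∈ U, C x y + C (x * y) z = C y z + C x (y * z)) →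
    (∃ W : Subgroup G, IsOpen (W : Set G) ∧
      ∀ x ∈ U, ∀ y ∈ U, ∀ w ∈ U, ∀ w' ∈ U, w ∈ W → w' ∈ W → C (x * w) (y * w') = C x y) →
    ∃ g : G → ZMod p, LC U g ∧ ∀ x ∈ U, ∀ y ∈ U, g (x * y) = g x + g y + C x y

/-- the case `U = ⊤` -/
def CDtop (p : ℕ) (G : Type) [Group G] [TopologicalSpace G] : Prop :=
  ∀ C : G → G → ZMod p,
    (∀ x y z, C x y + C (x * y) z = C y z + C x (y * z)) →
    (∃ W : Subgroup G, IsOpen (W : Set G) ∧
      ∀ x y, ∀ w ∈ W, ∀ w' ∈ W, C (x * w) (y * w') = C x y) →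
    ∃ g : G → ZMod p, LC ⊤ g ∧ ∀ x y, g (x * y) = g x + g y + C x y

/-- the intersection of the open normal subgroups of `p`-power index which contain `B` -/
def NN (p : ℕ) (B : Set G) : Subgroup G :=
  sInf {M : Subgroup G | M.Normal ∧ IsOpen (M : Set G) ∧ (∀ x : G, ∃ k : ℕ, x ^ p ^ k ∈ M) ∧
    B ⊆ M}

instance NN_normal (p : ℕ) (B : Set G) : (NN p B).Normal := by
  refine ⟨fun x hx g => ?_⟩
  rw [NN, Subgroup.mem_sInf] at hx ⊢
  intro M hM
  exact hM.1.conj_mem x (hx M hM) g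

/-- extension of homomorphisms from `NN p B`: if `g` is a homomorphism on `NN p B` invariant under
conjugation by `W` then there is a homomorphism on `W` which agrees with `g` on `B`. -/
def HB (p : ℕ) (B : Set G) : Prop :=
  ∀ W : Subgroup G, IsOpen (W : Set G) → NN p B ≤ W → ∀ g : G → ZMod p, LC W g →
    (∀ x ∈ NN p B, ∀ y ∈ NN p B, g (x * y) = g x + g y) →
    (∀ w ∈ W, ∀ x ∈ NN p B, g (w * x * w⁻¹) = g x) →
    ∃ h : G → ZMod p, AddOn W h ∧ LC W h ∧ ∀ b ∈ B, h b = g b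

end abs

section F2

/-- functions on `F2` which are additive with respect to right multiplication by `U` -/
def QH (U : Subgroup F2) {M : Type} [AddCommGroup M] (δ : F2 → M) : Prop :=
  ∀ q, ∀ u ∈ U, δ (q * u) = δ q + δ u

/-- the elements of `U` which are conjugate to powers of `Y` or `Z`, and the elements of `U`
which are conjugate to powers of `X` and belong to a cusp other than the base cusp -/
def BadE (U : Subgroup F2) : Set F2 :=
  {b | b ∈ U ∧ ((∃ (q : F2) (n : ℕ), b = q⁻¹ * Y ^ n * q) ∨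
    (∃ (q : F2) (n : ℕ), b = q⁻¹ * Z ^ n * q) ∨
    ∃ (q : F2) (n : ℕ), b = q⁻¹ * X ^ n * q ∧ ∀ m : ℕ, ∀ u ∈ U, q ≠ X ^ m * u)}

/-- the elements of `BadE U` as a subset of the group `U` -/
def BadS (U : Subgroup F2) : Set U := {b | (b : F2) ∈ BadE U}

/-- the function vanishes at all elements of `U` conjugate to powers of `X`, `Y`, `Z` -/
def Par (U : Subgroup F2) {M : Type} [AddCommGroup M] (δ : F2 → M) : Prop :=
  ∀ (q : F2) (n : ℕ), (q⁻¹ * X ^ n * q ∈ U → δ (q⁻¹ * X ^ n * q) = 0) ∧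
    (q⁻¹ * Y ^ n * q ∈ U → δ (q⁻¹ * Y ^ n * q) = 0) ∧
    (q⁻¹ * Z ^ n * q ∈ U → δ (q⁻¹ * Z ^ n * q) = 0)

/-- the image of `l` in the `p`-adic integers is `1` -/
def TrivAt (p : ℕ) [Fact p.Prime] (l : Zhat) : Prop :=
  ∀ k : ℕ, res l ⟨p ^ k, pow_pos (Fact.out : p.Prime).pos k⟩ ≡ 1 [MOD p ^ k]

/-- the automorphism maps `X` to `X ^ l`, and `Y`, `Z` to conjugates of `Y ^ l`, `Z ^ l` -/
def Hex (l : Zhat) (t : F2 → F2) : Prop :=
  t X = ppow X l ∧ (∃ g, t Y = g⁻¹ * ppow Y l * g) ∧ ∃ g, t Z = g⁻¹ * ppow Z l * g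

end F2

end Pool.Agent.H371.GT
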