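import Pool.Agent.H371.GT.Defs

set_option autoImplicit false

namespace Pool.Agent.H371.GT

open SE (AddOn LC CZ RI csum)

namespace F1x

/-- the action on the cosets -/
def act (U : Subgroup F2) : F2 →* Equiv.Perm (F2 ⧸ U) := MulAction.toPermHom F2 (F2 ⧸ U)

theorem act_mk (U : Subgroup F2) (f g : F2) :
    act U f (QuotientGroup.mk g) = QuotientGroup.mk (f * g) := rfl

theorem mem_ker {U : Subgroup F2} {f : F2} (hf : f ∈ (act U).ker) (g : F2) :
    g⁻¹ * f * g ∈ U := by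
  have h1 : act U f = 1 := hf
  have h2 : act U f (QuotientGroup.mk g) = QuotientGroup.mk g := by
    rw [h1]
    rfl
  rw [act_mk] at h2
  have h3 := QuotientGroup.eq.1 h2.symm
  rwa [← mul_assoc] at h3

theorem finQ {U : Subgroup F2} (hU : IsOpen (U : Set F2)) : Finite (F2 ⧸ U) :=
  Subgroup.quotient_finite_of_isOpen U hU

theorem ker_open {U : Subgroup F2} (hU : IsOpen (U : Set F2)) :
    IsOpen ((act U).ker : Set F2) := by
  have : Finite (F2 ⧸ U) := finQ hU
  have h1 : ((act U).ker : Set F2) = ⋂ w : F2 ⧸ U, {f : F2 | w.out⁻¹ * f * w.out ∈ U} := by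
    ext f
    rw [Set.mem_iInter]
    constructor
    · intro hf w
      exact mem_ker hf w.out
    · intro hf
      show act U f = 1
      ext w
      have h2 : w.out⁻¹ * f * w.out ∈ U := hf w
      have h3 : (QuotientGroup.mk w.out : F2 ⧸ U) = w := QuotientGroup.out_eq' w
      rw [← h3, act_mk]
      symm
      rw [Equiv.Perm.one_apply]
      exact QuotientGroup.eq.2 (by rw [← mul_assoc]; exact h2)
  rw [h1]
  refine isOpen_iInter_of_finite fun w => ?_
  exact hU.preimage (by fun_prop)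

section
variable {M : Type} [AddCommGroup M] {U : Subgroup F2}

theorem out_eq {A : F2 → M} (hA : RI U A) (q : F2) :
    A ((QuotientGroup.mk q : F2 ⧸ U).out) = A q := by
  obtain ⟨u, hu⟩ := QuotientGroup.mk_out_eq_mul U q
  rw [hu]
  exact hA q u u.2

/-- the permutation `(w, k) ↦ (f w, k + A w)` -/
noncomputable def prm (U : Subgroup F2) (f : F2) (A : F2 → M) : Equiv.Perm ((F2 ⧸ U) × M) where
  toFun x := (act U f x.1, x.2 + A x.1.out)
  invFun x := ((act U f)⁻¹ x.1, x.2 - A ((act U f)⁻¹ x.1).out)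
  left_inv x := by
    ext
    · simp
    · simp
  right_inv x := by
    ext
    · simp
    · simp

theorem prm_apply (f : F2) (A : F2 → M) (x : (F2 ⧸ U) × M) :
    prm U f A x = (act U f x.1, x.2 + A x.1.out) := rfl

/-- compatible pairs of permutations -/
def Sg (U : Subgroup F2) (M : Type) [AddCommGroup M] :
    Subgroup (Equiv.Perm ((F2 ⧸ U) × M) × Equiv.Perm (F2 ⧸ U)) where
  carrier := {σ | ∀ (w : F2 ⧸ U) (k m : M), (σ.1 (w, k)).1 = σ.2 w ∧
    (σ.1 (w, k + m)).2 = (σ.1 (w, k)).2 + m}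
  mul_mem' := by
    intro σ τ hσ hτ w k m
    have e1 : ∀ k : M, τ.1 (w, k) = (τ.2 w, (τ.1 (w, k)).2) := fun k =>
      Prod.ext (hτ w k 0).1 rfl
    refine ⟨?_, ?_⟩
    · show (σ.1 (τ.1 (w, k))).1 = σ.2 (τ.2 w)
      rw [e1]
      exact (hσ _ _ 0).1
    · show (σ.1 (τ.1 (w, k + m))).2 = (σ.1 (τ.1 (w, k))).2 + m
      rw [e1 (k + m), e1 k, (hτ w k m).2]
      exact (hσ _ _ m).2
  one_mem' := fun w k m => ⟨rfl, rfl⟩
  inv_mem' := by
    intro σ hσ w k m
    have e1 : ∀ k : M, (σ.1⁻¹ (w, k)).1 = σ.2⁻¹ w := by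
      intro k
      have h1 := (hσ (σ.1⁻¹ (w, k)).1 (σ.1⁻¹ (w, k)).2 0).1
      have h2 : σ.1 (σ.1⁻¹ (w, k)) = (w, k) := Equiv.apply_symm_apply σ.1 (w, k)
      rw [show ((σ.1⁻¹ (w, k)).1, (σ.1⁻¹ (w, k)).2) = σ.1⁻¹ (w, k) from rfl, h2] at h1
      have h3 : w = σ.2 (σ.1⁻¹ (w, k)).1 := h1
      have h4 : σ.2⁻¹ w = σ.2⁻¹ (σ.2 (σ.1⁻¹ (w, k)).1) := congrArg _ h3
      rw [h4]
      exact (Equiv.symm_apply_apply σ.2 _).symm
    refine ⟨e1 k, ?_⟩
    show (σ.1⁻¹ (w, k + m)).2 = (σ.1⁻¹ (w, k)).2 + m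
    have h2 : σ.1 (σ.1⁻¹ (w, k)) = (w, k) := Equiv.apply_symm_apply σ.1 (w, k)
    have h5 : σ.1 ((σ.1⁻¹ (w, k)).1, (σ.1⁻¹ (w, k)).2 + m) = (w, k + m) := by
      apply Prod.ext
      · rw [(hσ _ _ 0).1]
        rw [e1]
        exact Equiv.apply_symm_apply σ.2 w
      · rw [(hσ _ _ m).2]
        show (σ.1 (σ.1⁻¹ (w, k))).2 + m = k + m
        rw [h2]
    have h6 : σ.1⁻¹ (w, k + m) = ((σ.1⁻¹ (w, k)).1, (σ.1⁻¹ (w, k)).2 + m) := by
      rw [← h5]
      exact Equiv.symm_apply_apply σ.1 _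
    rw [h6]

theorem prm_mem (f : F2) (A : F2 → M) : (prm U f A, act U f) ∈ Sg U M := by
  intro w k m
  refine ⟨rfl, ?_⟩
  show k + m + A w.out = k + A w.out + m
  abel

end

end F1x

open F1x in
/-- functions with given differences -/
theorem exists_QH {M : Type} [AddCommGroup M] [Finite M] {U : Subgroup F2}
    (hU : IsOpen (U : Set F2)) (A B : F2 → M) (hA : RI U A) (hB : RI U B) :
    ∃ δ : F2 → M, δ 1 = 0 ∧ QH U δ ∧ LC ⊤ δ ∧ (∀ q, δ (X * q) = δ q + A q) ∧
      ∀ q, δ (Y * q) = δ q + B q := by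
  have hfin : Finite (F2 ⧸ U) := finQ hU
  obtain ⟨ρ, hX, hY, hρ⟩ := exists_finite_XY (prm U X A) (prm U Y B)
  have hmem : ∀ f : F2, (ρ f, act U f) ∈ Sg U M := fun f =>
    mem_of_gen (ρ.prod (act U)) (isOpen_ker_prod ρ (act U) hρ (ker_open hU)) (Sg U M)
      (by
        rw [MonoidHom.prod_apply, hX]
        exact prm_mem X A)
      (by
        rw [MonoidHom.prod_apply, hY]
        exact prm_mem Y B) f
  have key : ∀ q : F2, ρ q (QuotientGroup.mk 1, 0) =
      (QuotientGroup.mk q, (ρ q (QuotientGroup.mk 1, 0)).2) := by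
    intro q
    apply Prod.ext
    · have h1 := (hmem q (QuotientGroup.mk 1) 0 0).1
      rw [act_mk, mul_one] at h1
      exact h1
    · rfl
  refine ⟨fun q => (ρ q (QuotientGroup.mk 1, 0)).2, ?_, ?_, ?_, ?_, ?_⟩
  · show (ρ 1 (QuotientGroup.mk 1, 0)).2 = 0
    rw [map_one]
    rfl
  · intro q u hu
    show (ρ (q * u) (QuotientGroup.mk 1, 0)).2 =
      (ρ q (QuotientGroup.mk 1, 0)).2 + (ρ u (QuotientGroup.mk 1, 0)).2
    rw [map_mul, Equiv.Perm.mul_apply, key u]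
    have h1 : (QuotientGroup.mk u : F2 ⧸ U) = QuotientGroup.mk 1 :=
      QuotientGroup.eq.2 (by
        rw [mul_one]
        exact inv_mem hu)
    rw [h1]
    have h2 := (hmem q (QuotientGroup.mk 1) 0 (ρ u (QuotientGroup.mk 1, 0)).2).2
    rw [zero_add] at h2
    exact h2
  · refine ⟨ρ.ker, hρ, fun x _ w _ hw => ?_⟩
    show (ρ (x * w) (QuotientGroup.mk 1, 0)).2 = (ρ x (QuotientGroup.mk 1, 0)).2
    have h1 : ρ w = 1 := hw
    rw [map_mul, h1, mul_one]
  · intro q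
    show (ρ (X * q) (QuotientGroup.mk 1, 0)).2 = (ρ q (QuotientGroup.mk 1, 0)).2 + A q
    rw [map_mul, Equiv.Perm.mul_apply, hX, prm_apply]
    show (ρ q (QuotientGroup.mk 1, 0)).2 + A ((ρ q (QuotientGroup.mk 1, 0)).1).out = _
    rw [key q]
    show (ρ q (QuotientGroup.mk 1, 0)).2 + A ((QuotientGroup.mk q : F2 ⧸ U)).out = _
    rw [out_eq hA]
  · intro q
    show (ρ (Y * q) (QuotientGroup.mk 1, 0)).2 = (ρ q (QuotientGroup.mk 1, 0)).2 + B q
    rw [map_mul, Equiv.Perm.mul_apply, hY, prm_apply]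
    show (ρ q (QuotientGroup.mk 1, 0)).2 + B ((ρ q (QuotientGroup.mk 1, 0)).1).out = _
    rw [key q]
    show (ρ q (QuotientGroup.mk 1, 0)).2 + B ((QuotientGroup.mk q : F2 ⧸ U)).out = _
    rw [out_eq hB]

open F1x in
/-- a locally constant function invariant under `X` and `Y` is constant -/
theorem const_of_inv {M : Type} {δ : F2 → M} (h : LC ⊤ δ) (hX : ∀ q, δ (X * q) = δ q)
    (hY : ∀ q, δ (Y * q) = δ q) (q : F2) : δ q = δ 1 := by
  obtain ⟨W, hW, hδ⟩ := h
  let S : Subgroup F2 :=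
    { carrier := {g | ∀ q, δ (g * q) = δ q}
      mul_mem' := by
        intro a b ha hb q
        rw [mul_assoc, ha, hb]
      one_mem' := by
        intro q
        rw [one_mul]
      inv_mem' := by
        intro a ha q
        have h1 := ha (a⁻¹ * q)
        rw [mul_inv_cancel_left] at h1
        exact h1.symm }
  have hker : (act W).ker ≤ S := by
    intro f hf q
    have h1 := mem_ker hf q
    have h2 := hδ q (Subgroup.mem_top q) (q⁻¹ * f * q) (Subgroup.mem_top _) h1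
    rw [← h2]
    congr 1
    group
  have h1 := mem_of_gen (act W) (ker_open hW) (S.map (act W))
    (Subgroup.mem_map_of_mem _ (show X ∈ S from hX))
    (Subgroup.mem_map_of_mem _ (show Y ∈ S from hY)) q
  obtain ⟨g, hg, hgq⟩ := h1
  have h2 : g⁻¹ * q ∈ (act W).ker := by
    rw [MonoidHom.mem_ker, map_mul, map_inv, hgq, inv_mul_cancel]
  have h3 : q ∈ S := by
    have h4 := S.mul_mem hg (hker h2)
    rwa [mul_inv_cancel_left] at h4
  have h5 := h3 1
  rwa [mul_one] at h5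

end Pool.Agent.H371.GT
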