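import Pool.Agent.H371.GT.Defs
import Pool.Agent.H371.SE.M5

set_option autoImplicit false

namespace Pool.Agent.H371.GT

open SE (AddOn LC CZ RI csum)

namespace F3x

open Filter Topology

/-- the cochain on the free group -/
theorem cochain {p : ℕ} {Γ : Type} [Group Γ] {ι : FreeGroup (Fin 2) →* Γ} (U : Subgroup Γ)
    (C : Γ → Γ → ZMod p)
    (hC : ∀ x ∈ U, ∀ y ∈ U, ∀ z ∈ U, C x y + C (x * y) z = C y z + C x (y * z)) :
    ∃ G : FreeGroup (Fin 2) → ZMod p, ∀ f f', ι f ∈ U → ι f' ∈ U →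
      G (f * f') = G f + G f' + C (ι f) (ι f') := by
  classical
  obtain ⟨g, hg⟩ := SE.free_coboundary (V := U.comap ι) (M := ZMod p)
    (fun x y => C (ι x.1) (ι y.1)) (by
      intro x y z
      have h := hC (ι x.1) x.2 (ι y.1) y.2 (ι z.1) z.2
      rw [← map_mul, ← map_mul] at h
      exact h)
  refine ⟨fun f => if h : f ∈ U.comap ι then g ⟨f, h⟩ else 0, fun f f' hf hf' => ?_⟩
  have hf1 : f ∈ U.comap ι := hf
  have hf2 : f' ∈ U.comap ι := hf'
  have hff : f * f' ∈ U.comap ι := (U.comap ι).mul_mem hf1 hf2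
  have e1 : (if h : f ∈ U.comap ι then g ⟨f, h⟩ else 0) = g ⟨f, hf1⟩ := dif_pos hf1
  have e2 : (if h : f' ∈ U.comap ι then g ⟨f', h⟩ else 0) = g ⟨f', hf2⟩ := dif_pos hf2
  have e3 : (if h : f * f' ∈ U.comap ι then g ⟨f * f', h⟩ else 0) = g ⟨f * f', hff⟩ := dif_pos hff
  refine e3.trans ?_
  refine (hg ⟨f, hf1⟩ ⟨f', hf2⟩).trans ?_
  rw [← e1, ← e2]

/-- density of the free group -/
theorem dense (V : Subgroup F2) (hV : IsOpen (V : Set F2)) (x : F2) :
    ∃ f : FreeGroup (Fin 2), x⁻¹ * eta (FreeGroup (Fin 2)) f ∈ V := by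
  have h1 : (fun b => x⁻¹ * b) ⁻¹' (V : Set F2) ∈ 𝓝 x := by
    apply (hV.preimage (continuous_const_mul _)).mem_nhds
    show x⁻¹ * x ∈ V
    rw [inv_mul_cancel]
    exact one_mem _
  obtain ⟨b, ⟨g, rfl⟩, hb⟩ := (denseRange_eta (FreeGroup (Fin 2))).inter_nhds_nonempty h1
  exact ⟨g, hb⟩

/-- open normal subgroups inside of open subgroups -/
theorem basis (U : Subgroup F2) (hU : IsOpen (U : Set F2)) :
    ∃ V : Subgroup F2, V.Normal ∧ IsOpen (V : Set F2) ∧ V ≤ U := by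
  obtain ⟨N, hN⟩ := ProfiniteGrp.exist_openNormalSubgroup_sub_open_nhds_of_one hU U.one_mem
  exact ⟨N.toSubgroup, N.isNormal', N.isOpen', fun x hx => hN hx⟩

/-- homomorphisms from subgroups of finite index of the free group to `ZMod p` vanish on an open
subgroup -/
theorem cof {p : ℕ} [Fact p.Prime] (V : Subgroup F2) (hn : V.Normal) (hV : IsOpen (V : Set F2))
    (h : FreeGroup (Fin 2) → ZMod p)
    (hh : ∀ x y, eta (FreeGroup (Fin 2)) x ∈ V → eta (FreeGroup (Fin 2)) y ∈ V →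
      h (x * y) = h x + h y) :
    ∃ V' : Subgroup F2, V'.Normal ∧ IsOpen (V' : Set F2) ∧ V' ≤ V ∧
      ∀ x, eta (FreeGroup (Fin 2)) x ∈ V' → h x = 0 := by
  classical
  have hVfin : V.FiniteIndex := by
    have : Finite (F2 ⧸ V) := V.quotient_finite_of_isOpen hV
    exact Subgroup.finiteIndex_of_finite_quotient
  set D : Subgroup (FreeGroup (Fin 2)) := V.comap (eta (FreeGroup (Fin 2))) with hD
  have hDfin : D.FiniteIndex := by
    refine ⟨?_⟩
    rw [hD, Subgroup.index_comap]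
    have h1 : V.relIndex (eta (FreeGroup (Fin 2))).range ∣ V.index :=
      V.relIndex_dvd_index_of_normal _
    intro h2
    rw [h2, zero_dvd_iff] at h1
    exact hVfin.index_ne_zero h1
  let φ : D →* Multiplicative (ZMod p) := MonoidHom.mk' (fun d => Multiplicative.ofAdd (h d.1))
    (by
      intro a b
      rw [← ofAdd_add]
      exact congrArg Multiplicative.ofAdd (hh a.1 b.1 a.2 b.2))
  let K : Subgroup (FreeGroup (Fin 2)) := φ.ker.map D.subtype
  have hKfin : K.FiniteIndex := by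
    refine ⟨?_⟩
    show (φ.ker.map D.subtype).index ≠ 0
    rw [Subgroup.index_map_subtype]
    refine mul_ne_zero ?_ hDfin.index_ne_zero
    have : Finite (Multiplicative (ZMod p)) := inferInstanceAs (Finite (ZMod p))
    have : Finite φ.range := inferInstance
    rw [Subgroup.index_ker]
    exact Nat.card_pos.ne'
  have hK'fin : K.normalCore.FiniteIndex := inferInstance
  obtain ⟨ρ, hρ, hρo⟩ := exists_lift_finite (QuotientGroup.mk' K.normalCore)
  refine ⟨V ⊓ ρ.ker, inferInstance, hV.inter hρo, inf_le_left, fun x hx => ?_⟩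
  have h1 : ρ (eta (FreeGroup (Fin 2)) x) = 1 := hx.2
  rw [hρ, QuotientGroup.mk'_apply, QuotientGroup.eq_one_iff] at h1
  have h2 : x ∈ K := K.normalCore_le h1
  obtain ⟨d, hd, rfl⟩ := Subgroup.mem_map.1 h2
  have h3 : φ d = 1 := hd
  exact h3

end F3x

theorem F2_cd (p : ℕ) [Fact p.Prime] : CD p F2 := by
  classical
  intro U hU C hC hlc
  obtain ⟨W, hW, hCW⟩ := hlc
  obtain ⟨V, hVn, hVo, hVUW⟩ := F3x.basis (U ⊓ W) (hU.inter hW)
  have hVU : V ≤ U := hVUW.trans inf_le_left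
  have hVW : V ≤ W := hVUW.trans inf_le_right
  obtain ⟨G, hG⟩ := F3x.cochain (ι := eta (FreeGroup (Fin 2))) U C hC
  have hC1 : ∀ x ∈ U, C x 1 = C 1 1 := by
    intro x hx
    have h := hC x hx 1 U.one_mem 1 U.one_mem
    rw [mul_one, mul_one, add_left_inj] at h
    exact h
  have hCw : ∀ x ∈ U, ∀ w ∈ V, C x w = C 1 1 := by
    intro x hx w hw
    have h := hCW x hx 1 U.one_mem 1 U.one_mem w (hVU hw) W.one_mem (hVW hw)
    rw [mul_one, one_mul] at h
    rw [h, hC1 x hx]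
  obtain ⟨V', hV'n, hV'o, hV'V, hV'0⟩ := F3x.cof (p := p) V hVn hVo (fun f => G f + C 1 1) (by
    intro f f' hf hf'
    rw [hG f f' (hVU hf) (hVU hf'), hCw _ (hVU hf) _ hf']
    ring)
  -- `G` is invariant
  have hGinv : ∀ f, eta (FreeGroup (Fin 2)) f ∈ U → ∀ d, eta (FreeGroup (Fin 2)) d ∈ V' →
      G (f * d) = G f := by
    intro f hf d hd
    have h2 := hV'0 d hd
    rw [hG f d hf (hVU (hV'V hd)), hCw _ hf _ (hV'V hd), add_assoc, h2, add_zero]
  have hGeq : ∀ (x : F2) (f f' : FreeGroup (Fin 2)), x ∈ U →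
      x⁻¹ * eta (FreeGroup (Fin 2)) f ∈ V' → x⁻¹ * eta (FreeGroup (Fin 2)) f' ∈ V' →
      G f = G f' := by
    intro x f f' hx hf hf'
    have hfU : eta (FreeGroup (Fin 2)) f ∈ U := by
      have := U.mul_mem hx (hVU (hV'V hf))
      rwa [mul_inv_cancel_left] at this
    have h1 : eta (FreeGroup (Fin 2)) (f⁻¹ * f') ∈ V' := by
      have := V'.mul_mem (V'.inv_mem hf) hf'
      rw [map_mul, map_inv]
      have e : (x⁻¹ * eta (FreeGroup (Fin 2)) f)⁻¹ * (x⁻¹ * eta (FreeGroup (Fin 2)) f') =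
        (eta (FreeGroup (Fin 2)) f)⁻¹ * eta (FreeGroup (Fin 2)) f' := by group
      rwa [e] at this
    have h2 := hGinv f hfU (f⁻¹ * f') h1
    rw [mul_inv_cancel_left] at h2
    exact h2.symm
  choose φ hφ using F3x.dense V' hV'o
  have hφU : ∀ x ∈ U, eta (FreeGroup (Fin 2)) (φ x) ∈ U := by
    intro x hx
    have := U.mul_mem hx (hVU (hV'V (hφ x)))
    rwa [mul_inv_cancel_left] at this
  refine ⟨fun x => G (φ x), ⟨V', hV'o, ?_⟩, ?_⟩
  · intro x hx w hwU hw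
    refine hGeq (x * w) _ _ (U.mul_mem hx hwU) (hφ (x * w)) ?_
    have := V'.mul_mem (V'.inv_mem hw) (hφ x)
    rw [mul_inv_rev, mul_assoc]
    exact this
  · intro x hx y hy
    simp only
    have h1 : (x * y)⁻¹ * eta (FreeGroup (Fin 2)) (φ x * φ y) ∈ V' := by
      have h2 : y⁻¹ * (x⁻¹ * eta (FreeGroup (Fin 2)) (φ x)) * y ∈ V' := by
        have := hV'n.conj_mem _ (hφ x) y⁻¹
        rwa [inv_inv] at this
      have h3 := V'.mul_mem h2 (hφ y)
      have e : y⁻¹ * (x⁻¹ * eta (FreeGroup (Fin 2)) (φ x)) * y *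
          (y⁻¹ * eta (FreeGroup (Fin 2)) (φ y)) =
          (x * y)⁻¹ * eta (FreeGroup (Fin 2)) (φ x * φ y) := by
        rw [map_mul]
        group
      rwa [e] at h3
    rw [hGeq (x * y) (φ (x * y)) (φ x * φ y) (U.mul_mem hx hy) (hφ _) h1,
      hG _ _ (hφU x hx) (hφU y hy)]
    congr 1
    have h4 := hCW x hx y hy (x⁻¹ * eta (FreeGroup (Fin 2)) (φ x)) (hVU (hV'V (hφ x)))
      (y⁻¹ * eta (FreeGroup (Fin 2)) (φ y))
      (hVU (hV'V (hφ y))) (hVW (hV'V (hφ x))) (hVW (hV'V (hφ y)))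
    rw [mul_inv_cancel_left, mul_inv_cancel_left] at h4
    exact h4

theorem CD_sub {p : ℕ} {G : Type} [Group G] [TopologicalSpace G] (h : CD p G) (U : Subgroup G)
    (hU : IsOpen (U : Set G)) : CD p U := by
  classical
  intro U' hU' C hC hlc
  obtain ⟨W, hW, hCW⟩ := hlc
  have hmap : ∀ V : Subgroup U, IsOpen (V : Set U) → IsOpen ((V.map U.subtype : Subgroup G) : Set G) := by
    intro V hV
    have h1 := hU.isOpenMap_subtype_val _ hV
    rw [Subgroup.coe_map]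
    exact h1
  let C' : G → G → ZMod p := fun x y =>
    if hx : x ∈ U then (if hy : y ∈ U then C ⟨x, hx⟩ ⟨y, hy⟩ else 0) else 0
  have hC' : ∀ x y : U, C' x y = C x y := by
    intro x y
    show (if hx : (x : G) ∈ U then (if hy : (y : G) ∈ U then C ⟨x, hx⟩ ⟨y, hy⟩ else 0) else 0) = _
    rw [dif_pos x.2, dif_pos y.2]
  obtain ⟨g, ⟨W1, hW1, hg1⟩, hg⟩ := h (U'.map U.subtype) (hmap U' hU') C' (by
    rintro _ ⟨x, hx, rfl⟩ _ ⟨y, hy, rfl⟩ _ ⟨z, hz, rfl⟩
    have h1 := hC x hx y hy z hz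
    rw [← hC', ← hC', ← hC', ← hC'] at h1
    exact h1) (by
    refine ⟨W.map U.subtype, hmap W hW, ?_⟩
    rintro _ ⟨x, hx, rfl⟩ _ ⟨y, hy, rfl⟩ _ ⟨w, hw, rfl⟩ _ ⟨w', hw', rfl⟩ hwW hwW'
    have h2 : w ∈ W := (Subgroup.mem_map_iff_mem U.subtype_injective).1 hwW
    have h3 : w' ∈ W := (Subgroup.mem_map_iff_mem U.subtype_injective).1 hwW'
    have h1 := hCW x hx y hy w hw w' hw' h2 h3
    rw [← hC', ← hC'] at h1
    exact h1)
  refine ⟨fun x => g x, ⟨W1.comap U.subtype, hW1.preimage continuous_subtype_val, ?_⟩, ?_⟩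
  · intro x hx w hw hwW
    exact hg1 x (Subgroup.mem_map_of_mem _ hx) w (Subgroup.mem_map_of_mem _ hw) hwW
  · intro x hx y hy
    have h1 := hg x (Subgroup.mem_map_of_mem _ hx) y (Subgroup.mem_map_of_mem _ hy)
    rw [hC'] at h1
    exact h1

end Pool.Agent.H371.GT
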