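import Pool.Agent.H371.GT.Defs

set_option autoImplicit false

namespace Pool.Agent.H371.GT

open SE (AddOn LC CZ RI csum)

namespace F5ax

section
variable {G : Type} [Group G] (g : G) (W : Subgroup G)

/-- the relation `y ∈ ⟨g⟩ x W` -/
def rel (x y : G) : Prop := ∃ j : ℤ, ∃ w ∈ W, y = g ^ j * x * w

theorem rel_equiv : Equivalence (rel g W) where
  refl x := ⟨0, 1, W.one_mem, by simp⟩
  symm := by
    rintro x y ⟨j, w, hw, rfl⟩
    refine ⟨-j, w⁻¹, W.inv_mem hw, ?_⟩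
    rw [zpow_neg]
    group
  trans := by
    rintro x y z ⟨j, w, hw, rfl⟩ ⟨j', w', hw', rfl⟩
    refine ⟨j' + j, w * w', W.mul_mem hw hw', ?_⟩
    rw [zpow_add]
    group

/-- the setoid -/
def st : Setoid G := ⟨rel g W, rel_equiv g W⟩

/-- the chosen representative -/
noncomputable def rep (x : G) : G := (Quotient.mk (st g W) x).out

variable {g W}

theorem rep_rel (x : G) : rel g W (rep g W x) x := Quotient.exact (Quotient.out_eq (Quotient.mk (st g W) x))

theorem rep_congr {x y : G} (h : rel g W x y) : rep g W x = rep g W y := by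
  unfold rep
  rw [Quotient.sound (s := st g W) h]

theorem mem_iff_int {q : G} {e : ℕ} (h : ∀ n : ℕ, q⁻¹ * g ^ n * q ∈ W ↔ e ∣ n) (n : ℤ) :
    q⁻¹ * g ^ n * q ∈ W ↔ (e : ℤ) ∣ n := by
  rcases Int.eq_nat_or_neg n with ⟨k, rfl | rfl⟩
  · rw [zpow_natCast, h k, Int.natCast_dvd_natCast]
  · rw [dvd_neg, Int.natCast_dvd_natCast, ← h k, ← W.inv_mem_iff, zpow_neg, zpow_natCast]
    have e1 : (q⁻¹ * (g ^ k)⁻¹ * q)⁻¹ = q⁻¹ * g ^ k * q := by group
    rw [e1]

end

end F5ax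

open F5ax in
/-- functions with prescribed orbit sums -/
theorem exists_transv {M : Type} [AddCommGroup M] {W : Subgroup F2} (hW : IsOpen (W : Set F2))
    (g : F2) {e : ℕ} (he : 0 < e) (S : Set F2) (hSW : ∀ q ∈ S, ∀ w ∈ W, q * w ∈ S)
    (hSg : ∀ q, g * q ∈ S ↔ q ∈ S) (hSe : ∀ q ∈ S, ∀ n : ℕ, q⁻¹ * g ^ n * q ∈ W ↔ e ∣ n)
    (κ : F2 → M) (hκW : ∀ q ∈ S, ∀ w ∈ W, κ (q * w) = κ q)
    (hκg : ∀ q ∈ S, κ (g * q) = κ q) :
    ∃ E : F2 → M, RI W E ∧ (∀ q, q ∉ S → E q = 0) ∧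
      ∀ q ∈ S, ∑ i ∈ Finset.range e, E (g ^ i * q) = κ q := by
  classical
  have hS' : ∀ q, ∀ w ∈ W, (q * w ∈ S ↔ q ∈ S) := by
    intro q w hw
    refine ⟨fun h => ?_, fun h => hSW q h w hw⟩
    have h1 := hSW _ h w⁻¹ (W.inv_mem hw)
    rwa [mul_inv_cancel_right] at h1
  refine ⟨fun q => if q ∈ S ∧ (rep g W q)⁻¹ * q ∈ W then κ q else 0, ?_, ?_, ?_⟩
  · intro x u hu
    have h1 : rep g W (x * u) = rep g W x :=
      (rep_congr ⟨0, u, hu, by simp⟩).symm
    have h2 : ((rep g W x)⁻¹ * (x * u) ∈ W) ↔ ((rep g W x)⁻¹ * x ∈ W) := by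
      rw [← mul_assoc]
      exact W.mul_mem_cancel_right hu
    simp only [h1, h2, hS' x u hu]
    split_ifs with h
    · exact hκW x h.1 u hu
    · rfl
  · intro q hq
    exact if_neg fun h => hq h.1
  · intro q hq
    obtain ⟨j, w, hw, hj⟩ := rep_rel (g := g) (W := W) q
    -- `q = g ^ j * rep q * w`
    have hgS : ∀ i : ℕ, g ^ i * q ∈ S ∧ κ (g ^ i * q) = κ q := by
      intro i
      induction i with
      | zero => simpa using hq
      | succ i ih =>
        rw [pow_succ', mul_assoc]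
        exact ⟨(hSg _).2 ih.1, (hκg _ ih.1).trans ih.2⟩
    have hrep : ∀ i : ℕ, rep g W (g ^ i * q) = rep g W q := by
      intro i
      refine (rep_congr ⟨(i : ℤ), 1, W.one_mem, ?_⟩).symm
      rw [mul_one, zpow_natCast]
    have hr : rep g W q = g ^ (-j) * q * w⁻¹ := by
      rw [zpow_neg]
      conv_rhs => rw [hj]
      group
    have hmem : ∀ i : ℕ, ((rep g W (g ^ i * q))⁻¹ * (g ^ i * q) ∈ W) ↔ (e : ℤ) ∣ (i : ℤ) + j := by
      intro i
      rw [hrep, ← mem_iff_int (hSe q hq), hr]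
      have e1 : (g ^ (-j) * q * w⁻¹)⁻¹ * (g ^ i * q) = w * (q⁻¹ * g ^ ((i : ℤ) + j) * q) := by
        rw [add_comm, zpow_add, zpow_natCast]
        group
      rw [e1]
      exact W.mul_mem_cancel_left hw
    have hE : ∀ i ∈ Finset.range e, (if g ^ i * q ∈ S ∧ (rep g W (g ^ i * q))⁻¹ * (g ^ i * q) ∈ W
        then κ (g ^ i * q) else 0) = if (e : ℤ) ∣ (i : ℤ) + j then κ q else 0 := by
      intro i _
      have h1 : (g ^ i * q ∈ S ∧ (rep g W (g ^ i * q))⁻¹ * (g ^ i * q) ∈ W) ↔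
          (e : ℤ) ∣ (i : ℤ) + j := by
        rw [hmem i]
        exact ⟨fun h => h.2, fun h => ⟨(hgS i).1, h⟩⟩
      simp only [h1]
      split_ifs
      · exact (hgS i).2
      · rfl
    rw [Finset.sum_congr rfl hE]
    have he' : (0 : ℤ) < e := by exact_mod_cast he
    have h0 := Int.emod_nonneg (-j) he'.ne'
    have h1 := Int.emod_lt_of_pos (-j) he'
    have h2 : (((-j) % (e : ℤ)).toNat : ℤ) = (-j) % (e : ℤ) := Int.toNat_of_nonneg h0
    have h4 : (e : ℤ) ∣ (-j) % (e : ℤ) + j := by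
      have h5 := Int.emod_add_mul_ediv (-j) e
      refine ⟨-((-j) / (e : ℤ)), ?_⟩
      linarith
    rw [Finset.sum_eq_single (((-j) % (e : ℤ)).toNat)]
    · rw [if_pos]
      rw [h2]
      exact h4
    · intro i hi hne
      rw [if_neg]
      intro h3
      apply hne
      have h6 : (e : ℤ) ∣ (i : ℤ) - (-j) % (e : ℤ) := by
        have h7 := dvd_sub h3 h4
        have e2 : (i : ℤ) + j - ((-j) % (e : ℤ) + j) = (i : ℤ) - (-j) % (e : ℤ) := by ring
        rwa [e2] at h7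
      have hi' : (i : ℤ) < e := by exact_mod_cast Finset.mem_range.1 hi
      have h8 : (i : ℤ) - (-j) % (e : ℤ) = 0 := by
        apply Int.eq_zero_of_abs_lt_dvd h6
        rw [abs_lt]
        constructor <;> linarith [Int.natCast_nonneg i]
      have h9 : (i : ℤ) = (((-j) % (e : ℤ)).toNat : ℤ) := by rw [h2]; linarith
      exact_mod_cast h9
    · intro h3
      exfalso
      apply h3
      rw [Finset.mem_range]
      have h10 : (((-j) % (e : ℤ)).toNat : ℤ) < (e : ℤ) := by rw [h2]; exact h1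
      exact_mod_cast h10

end Pool.Agent.H371.GT
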