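import Pool.Agent.H371.GT.Defs

set_option autoImplicit false

namespace Pool.Agent.H371.GT

open SE (AddOn LC CZ RI csum)

namespace Q4x
variable {p : ℕ} {G : Type} [Group G] [TopologicalSpace G] {B : Set G}

/-- the defining family of `NN p B` -/
def Fam (p : ℕ) (B : Set G) (M : Subgroup G) : Prop :=
  M.Normal ∧ IsOpen (M : Set G) ∧ (∀ x : G, ∃ k : ℕ, x ^ p ^ k ∈ M) ∧ B ⊆ M

theorem mem_NN {x : G} : x ∈ NN p B ↔ ∀ M : Subgroup G, Fam p B M → x ∈ M := by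
  rw [NN, Subgroup.mem_sInf]
  rfl

theorem NN_le' {M : Subgroup G} (h : Fam p B M) : NN p B ≤ M := fun _ hx => mem_NN.1 hx M h

theorem Fam_top : Fam p B ⊤ :=
  ⟨inferInstance, isOpen_univ, fun _ => ⟨0, Subgroup.mem_top _⟩, fun _ _ => Subgroup.mem_top _⟩

theorem Fam_inf {M N : Subgroup G} (hM : Fam p B M) (hN : Fam p B N) : Fam p B (M ⊓ N) := by
  obtain ⟨a1, a2, a3, a4⟩ := hM
  obtain ⟨b1, b2, b3, b4⟩ := hN
  refine ⟨inferInstance, a2.inter b2, fun x => ?_, fun b hb => ⟨a4 hb, b4 hb⟩⟩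
  obtain ⟨k, hk⟩ := a3 x
  obtain ⟨l, hl⟩ := b3 x
  refine ⟨k + l, ?_, ?_⟩
  · rw [pow_add, pow_mul]
    exact M.pow_mem hk _
  · rw [add_comm, pow_add, pow_mul]
    exact N.pow_mem hl _

omit [TopologicalSpace G] in
theorem add_one {A : Type} [AddCommGroup A] {ψ : G → A} (h1 : AddOn ⊤ ψ) : ψ 1 = 0 := by
  have h := h1 1 (Subgroup.mem_top _) 1 (Subgroup.mem_top _)
  rw [mul_one] at h
  exact left_eq_add.1 h

omit [TopologicalSpace G] in
theorem add_inv {A : Type} [AddCommGroup A] {ψ : G → A} (h1 : AddOn ⊤ ψ) (x : G) :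
    ψ x⁻¹ = - ψ x := by
  have h := h1 x⁻¹ (Subgroup.mem_top _) x (Subgroup.mem_top _)
  rw [inv_mul_cancel, add_one h1] at h
  exact eq_neg_of_add_eq_zero_left h.symm

omit [TopologicalSpace G] in
theorem add_pow {A : Type} [AddCommGroup A] {ψ : G → A} (h1 : AddOn ⊤ ψ) (x : G) (n : ℕ) :
    ψ (x ^ n) = n • ψ x := by
  induction n with
  | zero => rw [pow_zero, add_one h1, zero_nsmul]
  | succ n ih =>
    rw [pow_succ, h1 _ (Subgroup.mem_top _) _ (Subgroup.mem_top _), ih, succ_nsmul]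

/-- general form -/
theorem NN_aux [IsTopologicalGroup G] {A : Type} [AddCommGroup A] (K : AddSubgroup A) {ψ : G → A}
    (h1 : AddOn ⊤ ψ) (W : Subgroup G) (hW : IsOpen (W : Set G)) (h2 : ∀ w ∈ W, ψ w ∈ K)
    (h3 : ∀ b ∈ B, ψ b ∈ K) (k : ℕ) (hk : ∀ a : A, (p ^ k) • a ∈ K) :
    ∀ x ∈ NN p B, ψ x ∈ K := by
  have hmul : ∀ x y : G, ψ (x * y) = ψ x + ψ y :=
    fun x y => h1 x (Subgroup.mem_top _) y (Subgroup.mem_top _)
  let M : Subgroup G :=
    { carrier := {x | ψ x ∈ K}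
      mul_mem' := by
        intro a b ha hb
        show ψ (a * b) ∈ K
        rw [hmul]
        exact K.add_mem ha hb
      one_mem' := by
        show ψ 1 ∈ K
        rw [add_one h1]
        exact K.zero_mem
      inv_mem' := by
        intro a ha
        show ψ a⁻¹ ∈ K
        rw [add_inv h1]
        exact K.neg_mem ha }
  have hM : Fam p B M := by
    refine ⟨⟨fun n hn g => ?_⟩, ?_, fun x => ⟨k, ?_⟩, fun b hb => h3 b hb⟩
    · show ψ (g * n * g⁻¹) ∈ K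
      rw [hmul, hmul, add_inv h1, add_comm (ψ g), add_assoc, add_neg_cancel, add_zero]
      exact hn
    · exact Subgroup.isOpen_mono (H₁ := W) (fun w hw => h2 w hw) hW
    · show ψ (x ^ p ^ k) ∈ K
      rw [add_pow h1]
      exact hk _
  intro x hx
  exact mem_NN.1 hx M hM

end Q4x

open Q4x

section
variable {p : ℕ} {G : Type} [Group G] [TopologicalSpace G] {B : Set G}

theorem NN_le {M : Subgroup G} (h1 : M.Normal) (h2 : IsOpen (M : Set G))
    (h3 : ∀ x : G, ∃ k : ℕ, x ^ p ^ k ∈ M) (h4 : B ⊆ M) : NN p B ≤ M :=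
  NN_le' ⟨h1, h2, h3, h4⟩

theorem subset_NN : B ⊆ NN p B := by
  intro b hb
  show b ∈ NN p B
  rw [mem_NN]
  intro M hM
  exact hM.2.2.2 hb

theorem NN_closed [IsTopologicalGroup G] : IsClosed (NN p B : Set G) := by
  have h : (NN p B : Set G) = ⋂ M ∈ {M : Subgroup G | Fam p B M}, (M : Set G) := by
    ext x
    rw [SetLike.mem_coe, mem_NN, Set.mem_iInter₂]
    rfl
  rw [h]
  exact isClosed_biInter fun M hM => Subgroup.isClosed_of_isOpen M hM.2.1

theorem NN_hom [IsTopologicalGroup G] [Fact p.Prime] {ψ : G → ZMod p} (h1 : AddOn ⊤ ψ)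
    (h2 : LC ⊤ ψ) (h3 : ∀ b ∈ B, ψ b = 0) : ∀ x ∈ NN p B, ψ x = 0 := by
  obtain ⟨W, hW, hw⟩ := h2
  intro x hx
  have h := NN_aux (p := p) (B := B) (⊥ : AddSubgroup (ZMod p)) h1 W hW (fun w hww => ?_)
    (fun b hb => ?_) 1 (fun a => ?_) x hx
  · exact h
  · have h4 := hw 1 (Subgroup.mem_top _) w (Subgroup.mem_top _) hww
    rw [one_mul, add_one h1] at h4
    exact h4
  · exact h3 b hb
  · rw [pow_one, nsmul_eq_mul, CharP.cast_eq_zero, zero_mul]
    exact AddSubgroup.zero_mem _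

theorem NN_homZ [IsTopologicalGroup G] [Fact p.Prime] {ψ : G → ℤ_[p]} (h1 : AddOn ⊤ ψ)
    (h2 : CZ p ⊤ ψ) (h3 : ∀ b ∈ B, ψ b = 0) : ∀ x ∈ NN p B, ψ x = 0 := by
  intro x hx
  have key : ∀ k : ℕ, (p : ℤ_[p]) ^ k ∣ ψ x := by
    intro k
    obtain ⟨W, hW, hw⟩ := h2 k
    let K : AddSubgroup ℤ_[p] :=
      { carrier := {a | (p : ℤ_[p]) ^ k ∣ a}
        add_mem' := fun ha hb => dvd_add ha hb
        zero_mem' := dvd_zero _
        neg_mem' := fun ha => (dvd_neg).2 ha }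
    have h := NN_aux (p := p) (B := B) K h1 W hW (fun w hww => ?_)
      (fun b hb => ?_) k (fun a => ?_) x hx
    · exact h
    · have h4 := hw 1 (Subgroup.mem_top _) w (Subgroup.mem_top _) hww
      rw [one_mul, add_one h1, sub_zero] at h4
      exact h4
    · rw [h3 b hb]
      exact K.zero_mem
    · show (p : ℤ_[p]) ^ k ∣ (p ^ k) • a
      rw [nsmul_eq_mul, Nat.cast_pow]
      exact dvd_mul_right _ _
  by_contra h0
  have h5 : FiniteMultiplicity (p : ℤ_[p]) (ψ x) := by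
    apply FiniteMultiplicity.of_not_isUnit _ h0
    exact PadicInt.prime_p.not_isUnit
  obtain ⟨n, hn⟩ := h5
  exact hn (key (n + 1))

/-- the quotient by `NN p B` is a pro-`p` group -/
theorem NN_prop [IsTopologicalGroup G] [CompactSpace G] [Fact p.Prime] {O : Subgroup G}
    (ho : IsOpen (O : Set G)) (h : NN p B ≤ O) : ∀ x : G, ∃ k : ℕ, x ^ p ^ k ∈ O := by
  have hc : IsCompact ((O : Set G)ᶜ) := (isClosed_compl_iff.2 ho).isCompact
  have : Nonempty {M : Subgroup G // Fam p B M} := ⟨⟨⊤, Fam_top⟩⟩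
  obtain ⟨M, hM⟩ := hc.elim_directed_family_closed
    (fun M : {M : Subgroup G // Fam p B M} => (M.1 : Set G))
    (fun M => Subgroup.isClosed_of_isOpen M.1 M.2.2.1) (by
      rw [Set.eq_empty_iff_forall_notMem]
      rintro x ⟨hx1, hx2⟩
      apply hx1
      apply h
      rw [mem_NN]
      intro M hM
      exact Set.mem_iInter.1 hx2 ⟨M, hM⟩) (by
      intro M N
      exact ⟨⟨M.1 ⊓ N.1, Fam_inf M.2 N.2⟩, fun x hx => hx.1, fun x hx => hx.2⟩)
  intro x
  obtain ⟨k, hk⟩ := M.2.2.2.1 x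
  refine ⟨k, ?_⟩
  by_contra hno
  exact (Set.eq_empty_iff_forall_notMem.1 hM) _ ⟨hno, hk⟩

theorem NN_core [IsTopologicalGroup G] [CompactSpace G] [Fact p.Prime] {M : Subgroup G}
    (hn : M.Normal) (hB : B ⊆ M) (hp : ∀ x ∈ NN p B, x ^ p ∈ M)
    (hV : ∃ V : Subgroup G, V.Normal ∧ IsOpen (V : Set G) ∧ NN p B ⊓ V ≤ M) : NN p B ≤ M := by
  obtain ⟨V, hVn, hVo, hV⟩ := hV
  have hM' : Fam p B ((M ⊓ NN p B) ⊔ V) := by
    refine ⟨inferInstance, Subgroup.isOpen_mono (H₁ := V) le_sup_right hVo, fun x => ?_,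
      fun b hb => ?_⟩
    · have hO : IsOpen ((NN p B ⊔ V : Subgroup G) : Set G) :=
        Subgroup.isOpen_mono (H₁ := V) le_sup_right hVo
      obtain ⟨k, hk⟩ := NN_prop (p := p) (B := B) hO le_sup_left x
      obtain ⟨n, hn1, v, hv, hnv⟩ := Subgroup.mem_sup_of_normal_right.1 hk
      refine ⟨k + 1, ?_⟩
      rw [pow_succ, pow_mul, ← hnv]
      have h1 : (QuotientGroup.mk ((n * v) ^ p) : G ⧸ V) = QuotientGroup.mk (n ^ p) := by
        rw [QuotientGroup.mk_pow, QuotientGroup.mk_mul, (QuotientGroup.eq_one_iff v).2 hv, mul_one,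
          QuotientGroup.mk_pow]
      have h2 : (n ^ p)⁻¹ * (n * v) ^ p ∈ V := QuotientGroup.eq.1 h1.symm
      have h3 : (n * v) ^ p = n ^ p * ((n ^ p)⁻¹ * (n * v) ^ p) := by
        rw [mul_inv_cancel_left]
      rw [h3]
      exact Subgroup.mul_mem_sup ⟨hp n hn1, (NN p B).pow_mem hn1 p⟩ h2
    · apply Subgroup.mem_sup_left
      exact ⟨hB hb, subset_NN hb⟩
  intro x hx
  obtain ⟨m, hm, v, hv, hmv⟩ := Subgroup.mem_sup_of_normal_right.1 (NN_le' hM' hx)
  have h1 : v ∈ NN p B := by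
    have h2 : v = m⁻¹ * x := by
      rw [← hmv, inv_mul_cancel_left]
    rw [h2]
    exact (NN p B).mul_mem ((NN p B).inv_mem hm.2) hx
  rw [← hmv]
  exact M.mul_mem hm.1 (hV ⟨h1, hv⟩)

theorem NN_map {t : MulAut G} (ht : Continuous t) (h : ∀ b ∈ B, t b ∈ NN p B) :
    ∀ x ∈ NN p B, t x ∈ NN p B := by
  intro x hx
  rw [mem_NN]
  intro M hM
  have h1 : Fam p B (M.comap (t : G →* G)) := by
    have := hM.1
    refine ⟨inferInstance, hM.2.1.preimage ht, fun y => ?_, fun b hb => ?_⟩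
    · obtain ⟨k, hk⟩ := hM.2.2.1 (t y)
      refine ⟨k, ?_⟩
      show t (y ^ p ^ k) ∈ M
      rw [map_pow]
      exact hk
    · exact NN_le' hM (h b hb)
  exact NN_le' h1 hx

end

end Pool.Agent.H371.GT
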