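import Pool.Agent.H371.GT.F4
import Pool.Agent.H371.GT.F5a
import Pool.Agent.H371.GT.Q4

set_option autoImplicit false

namespace Pool.Agent.H371.GT

open SE (AddOn LC CZ RI csum)

namespace F5bx

theorem exists_ord {U : Subgroup F2} (hU : IsOpen (U : Set F2)) (hn : U.Normal) (s : F2) :
    ∃ e : ℕ, 0 < e ∧ ∀ n : ℕ, s ^ n ∈ U ↔ e ∣ n := by
  have hfin : Finite (F2 ⧸ U) := Subgroup.quotient_finite_of_isOpen U hU
  refine ⟨orderOf (QuotientGroup.mk s : F2 ⧸ U), orderOf_pos _, fun n => ?_⟩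
  rw [orderOf_dvd_iff_pow_eq_one, ← QuotientGroup.mk_pow, QuotientGroup.eq_one_iff]

theorem core {M : Type} [AddCommGroup M] {W : Subgroup F2} {δ E m : F2 → M} (hδ : QH W δ)
    (hE : RI W E) (hm : RI W m) {s : F2}
    (hs : ∀ q, δ (s * q) = δ q + E q - (m (s * q) - m q)) (e : ℕ) (q : F2)
    (hq : ∀ j : ℕ, q⁻¹ * s ^ (e * j) * q ∈ W) (k : ℕ) :
    δ (q⁻¹ * s ^ (e * k) * q) = k • ∑ i ∈ Finset.range e, E (s ^ i * q) := by
  have h1 : ∀ (n : ℕ) (x : F2), δ (s ^ n * x) =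
      δ x + ∑ i ∈ Finset.range n, E (s ^ i * x) - (m (s ^ n * x) - m x) := by
    intro n x
    induction n with
    | zero => simp
    | succ n ih =>
      rw [pow_succ', mul_assoc, hs, ih, Finset.sum_range_succ]
      abel
  have h2 : ∀ j : ℕ, s ^ (e * j) * q = q * (q⁻¹ * s ^ (e * j) * q) := fun j => by group
  have h3 : ∀ j : ℕ, ∑ i ∈ Finset.range (e * j), E (s ^ i * q) =
      j • ∑ i ∈ Finset.range e, E (s ^ i * q) := by
    intro j
    induction j with
    | zero => simp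
    | succ j ih =>
      rw [Nat.mul_succ, Finset.sum_range_add, ih, succ_nsmul]
      congr 1
      refine Finset.sum_congr rfl fun i _ => ?_
      have h4 : s ^ (e * j + i) * q = s ^ i * q * (q⁻¹ * s ^ (e * j) * q) := by
        rw [add_comm, pow_add]
        group
      rw [h4]
      exact hE _ _ (hq j)
  have h4 := h1 (e * k) q
  have h5 : δ (s ^ (e * k) * q) = δ q + δ (q⁻¹ * s ^ (e * k) * q) := by
    conv_lhs => rw [h2]
    exact hδ _ _ (hq k)
  have h6 : m (s ^ (e * k) * q) = m q := by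
    conv_lhs => rw [h2]
    exact hm _ _ (hq k)
  rw [h5, h6, h3, sub_self, sub_zero] at h4
  exact add_left_cancel h4

end F5bx

theorem HB_F2 (p : ℕ) [Fact p.Prime] {U : Subgroup F2} (hU : IsOpen (U : Set F2))
    (hn : U.Normal) : HB p (BadS U) := by
  classical
  intro W hW hNW g hg hadd hinv
  -- the subgroup of `F2`
  set W2 : Subgroup F2 := W.map U.subtype with hW2
  have hW2o : IsOpen (W2 : Set F2) := by
    have h1 := hU.isOpenMap_subtype_val _ hW
    exact h1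
  have hW2U : ∀ x ∈ W2, x ∈ U := by
    rintro _ ⟨y, -, rfl⟩
    exact y.2
  have hW2mem : ∀ x : U, (x : F2) ∈ W2 ↔ x ∈ W := by
    intro x
    constructor
    · rintro ⟨y, hy, hyx⟩
      have h1 : y = x := Subtype.ext hyx
      rwa [← h1]
    · intro hx
      exact ⟨x, hx, rfl⟩
  have hg0 : g 1 = 0 := by
    have h1 := hadd 1 (one_mem _) 1 (one_mem _)
    rw [mul_one] at h1
    exact left_eq_add.1 h1
  have hgpow : ∀ x ∈ NN p (BadS U), ∀ k : ℕ, g (x ^ k) = k • g x := by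
    intro x hx k
    induction k with
    | zero => rw [pow_zero, hg0, zero_smul]
    | succ k ih => rw [pow_succ, hadd _ (pow_mem hx k) _ hx, ih, succ_nsmul]
  -- the three families
  have key : ∀ (s : F2) (S : Set F2), (∀ q ∈ S, ∀ w ∈ U, q * w ∈ S) →
      (∀ q, s * q ∈ S ↔ q ∈ S) →
      (∀ q ∈ S, ∀ n : ℕ, q⁻¹ * s ^ n * q ∈ U → q⁻¹ * s ^ n * q ∈ BadE U) →
      ∃ E : F2 → ZMod p, RI W2 E ∧ ∀ (δ m E' : F2 → ZMod p), QH W2 δ → RI W2 E' → RI W2 m →
        (∀ q, δ (s * q) = δ q + E' q - (m (s * q) - m q)) →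
        (∀ q ∈ S, E' q = E q) →
        ∀ q ∈ S, ∀ n : ℕ, ∀ hb : q⁻¹ * s ^ n * q ∈ U, δ (q⁻¹ * s ^ n * q) =
          g ⟨q⁻¹ * s ^ n * q, hb⟩ := by
    intro s S hSU hSs hSB
    obtain ⟨e, he, hs⟩ := F5bx.exists_ord hU hn s
    have hUconj : ∀ (q : F2) (n : ℕ), q⁻¹ * s ^ n * q ∈ U ↔ e ∣ n := by
      intro q n
      rw [← hs]
      constructor
      · intro h
        have h1 := hn.conj_mem _ h q
        have h2 : q * (q⁻¹ * s ^ n * q) * q⁻¹ = s ^ n := by group
        rwa [h2] at h1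
      · intro h
        have h1 := hn.conj_mem _ h q⁻¹
        rwa [inv_inv] at h1
    have hNN : ∀ q ∈ S, ∀ (n : ℕ) (h : q⁻¹ * s ^ n * q ∈ U),
        (⟨q⁻¹ * s ^ n * q, h⟩ : U) ∈ NN p (BadS U) := fun q hq n h =>
      subset_NN (hSB q hq n h)
    have hee : ∀ q : F2, q⁻¹ * s ^ e * q ∈ U := fun q => (hUconj q e).2 dvd_rfl
    let κ : F2 → ZMod p := fun q => g ⟨q⁻¹ * s ^ e * q, hee q⟩
    have hSe : ∀ q ∈ S, ∀ n : ℕ, q⁻¹ * s ^ n * q ∈ W2 ↔ e ∣ n := by
      intro q hq n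
      constructor
      · intro h
        exact (hUconj q n).1 (hW2U _ h)
      · intro h
        have h1 := (hUconj q n).2 h
        exact (hW2mem ⟨_, h1⟩).2 (hNW (hNN q hq n h1))
    have hκW : ∀ q ∈ S, ∀ w ∈ W2, κ (q * w) = κ q := by
      rintro q hq _ ⟨w, hw, rfl⟩
      have h1 := hinv w⁻¹ (inv_mem hw) _ (hNN q hq e (hee q))
      refine Eq.trans ?_ h1
      change g _ = g _
      congr 1
      apply Subtype.ext
      change (q * (w : F2))⁻¹ * s ^ e * (q * (w : F2)) =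
        (w : F2)⁻¹ * (q⁻¹ * s ^ e * q) * ((w : F2)⁻¹)⁻¹
      group
    have hκg : ∀ q ∈ S, κ (s * q) = κ q := by
      intro q _
      change g _ = g _
      congr 1
      apply Subtype.ext
      change (s * q)⁻¹ * s ^ e * (s * q) = q⁻¹ * s ^ e * q
      have h1 : s⁻¹ * s ^ e * s = s ^ e := by
        rw [mul_assoc, ← pow_succ, pow_succ', inv_mul_cancel_left]
      calc (s * q)⁻¹ * s ^ e * (s * q) = q⁻¹ * (s⁻¹ * s ^ e * s) * q := by group
        _ = q⁻¹ * s ^ e * q := by rw [h1]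
    obtain ⟨E, hE1, -, hE3⟩ := exists_transv hW2o s he S
      (fun q hq w hw => hSU q hq w (hW2U w hw)) hSs hSe κ hκW hκg
    refine ⟨E, hE1, fun δ m E' hδ hE' hm hδs hEE q hq n hb => ?_⟩
    obtain ⟨k, rfl⟩ := (hUconj q n).1 hb
    have hSpow : ∀ i : ℕ, s ^ i * q ∈ S := by
      intro i
      induction i with
      | zero => rwa [pow_zero, one_mul]
      | succ i ih =>
        rw [pow_succ', mul_assoc]
        exact (hSs _).2 ih
    have h1 := F5bx.core hδ hE' hm hδs e q (fun j => (hSe q hq _).2 (dvd_mul_right e j)) k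
    have h2 : ∑ i ∈ Finset.range e, E' (s ^ i * q) = κ q := by
      rw [← hE3 q hq]
      exact Finset.sum_congr rfl fun i _ => hEE _ (hSpow i)
    rw [h1, h2, ← hgpow _ (hNN q hq e (hee q))]
    congr 1
    apply Subtype.ext
    change (q⁻¹ * s ^ e * q) ^ k = q⁻¹ * s ^ (e * k) * q
    have h3 := conj_pow (i := k) (a := q⁻¹) (b := s ^ e)
    rw [inv_inv] at h3
    rw [h3, pow_mul]
  -- the base cusp
  obtain ⟨eX, heX, hsX⟩ := F5bx.exists_ord hU hn X
  let S : Set F2 := {q | ∀ m : ℕ, ∀ u ∈ U, q ≠ X ^ m * u}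
  obtain ⟨EX, hEX, hX⟩ := key X S (by
      intro q hq w hw m u hu h
      refine hq m (u * w⁻¹) (mul_mem hu (inv_mem hw)) ?_
      rw [← mul_assoc, ← h, mul_inv_cancel_right]) (by
      intro q
      constructor
      · intro hq m u hu h
        refine hq (m + 1) u hu ?_
        rw [h, pow_succ', mul_assoc]
      · intro hq m u hu h
        rcases m with _ | m
        · refine hq (eX - 1) ((X ^ eX)⁻¹ * u) (mul_mem (inv_mem ((hsX eX).2 dvd_rfl)) hu) ?_
          have h1 : X ^ eX = X * X ^ (eX - 1) := by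
            rw [← pow_succ', Nat.sub_add_cancel heX]
          have h2 : q = X⁻¹ * u := by
            rw [pow_zero, one_mul] at h
            rw [← h, inv_mul_cancel_left]
          have h3 : X ^ (eX - 1) * (X ^ eX)⁻¹ = X⁻¹ := by
            have h4 : X ^ eX = X ^ (eX - 1) * X := by
              rw [← pow_succ, Nat.sub_add_cancel heX]
            have h5 : (X ^ eX)⁻¹ = (X ^ (eX - 1))⁻¹ * X⁻¹ := by
              rw [h1, mul_inv_rev]
            rw [h5, mul_inv_cancel_left]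
          rw [h2, ← mul_assoc, h3]
        · refine hq m u hu ?_
          rw [pow_succ', mul_assoc] at h
          exact mul_left_cancel h) (by
      intro q hq n h
      exact ⟨h, Or.inr (Or.inr ⟨q, n, rfl, hq⟩)⟩)
  obtain ⟨EY, hEY, hY⟩ := key Y Set.univ (fun _ _ _ _ => trivial) (fun _ => Iff.rfl)
    (fun q _ n h => ⟨h, Or.inl ⟨q, n, rfl⟩⟩)
  obtain ⟨EZ, hEZ, hZ⟩ := key Z Set.univ (fun _ _ _ _ => trivial) (fun _ => Iff.rfl)
    (fun q _ n h => ⟨h, Or.inr (Or.inl ⟨q, n, rfl⟩)⟩)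
  have hfin : Finite (F2 ⧸ W2) := Subgroup.quotient_finite_of_isOpen W2 hW2o
  let c : ZMod p := -(csum W2 EX + csum W2 EY + csum W2 EZ)
  let I : F2 → ZMod p := fun q => if q ∈ W2 then c else 0
  have hI : RI W2 I := by
    intro q w hw
    change (if q * w ∈ W2 then c else 0) = if q ∈ W2 then c else 0
    rw [Subgroup.mul_mem_cancel_right W2 hw]
  have hEX' : RI W2 (fun q => EX q + I q) := by
    intro q w hw
    change EX (q * w) + I (q * w) = EX q + I q
    rw [hEX q w hw, hI q w hw]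
  have hsum : csum W2 (fun q => EX q + I q) + csum W2 EY + csum W2 EZ = 0 := by
    rw [SE.csum_add, SE.csum_single hI (fun x hx => if_neg hx)]
    have h1 : I 1 = c := if_pos (one_mem W2)
    rw [h1]
    ring
  obtain ⟨δ, m₁, m₃, -, hδ, hδLC, hm₁, hm₃, hδX, hδY, hδZ⟩ :=
    exists_QH_sum hW2o _ EY EZ hEX' hEY hEZ hsum
  have hSW2 : ∀ q ∈ S, q ∉ W2 := by
    intro q hq hqW
    refine hq 0 q (hW2U q hqW) ?_
    rw [pow_zero, one_mul]
  refine ⟨fun u => δ (u : F2), ?_, ?_, ?_⟩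
  · intro x _ y hy
    exact hδ _ _ ((hW2mem y).2 hy)
  · obtain ⟨V, hV, hVδ⟩ := hδLC
    refine ⟨V.comap U.subtype, hV.preimage continuous_subtype_val, fun x _ w _ hw => ?_⟩
    exact hVδ _ trivial _ trivial hw
  · rintro ⟨b, hbU⟩ ⟨-, hb⟩
    rcases hb with ⟨q, n, hb⟩ | ⟨q, n, hb⟩ | ⟨q, n, hb, hq⟩
    · change b = _ at hb
      subst hb
      exact hY δ 0 EY hδ hEY (fun _ _ _ => rfl) (fun q => by
        rw [hδY, Pi.zero_apply, Pi.zero_apply, sub_zero, sub_zero]) (fun _ _ => rfl) q trivial n hbU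
    · change b = _ at hb
      subst hb
      exact hZ δ m₃ EZ hδ hEZ hm₃ hδZ (fun _ _ => rfl) q trivial n hbU
    · change b = _ at hb
      subst hb
      refine hX δ m₁ (fun q => EX q + I q) hδ hEX' hm₁ hδX (fun q hq => ?_) q hq n hbU
      have h1 : I q = 0 := if_neg (hSW2 q hq)
      rw [h1, add_zero]

end Pool.Agent.H371.GT
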