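import Pool.Agent.H371.GT.F6
import Pool.Agent.H371.SE.A11

set_option autoImplicit false

namespace Pool.Agent.H371.GT

open SE (AddOn LC CZ RI csum)

namespace F7bx

variable {p : ℕ} {U : Subgroup F2} {δχ δψ γ : F2 → ZMod p}

/-- the extension of `γ` -/
noncomputable def gt (U : Subgroup F2) (δχ δψ γ : F2 → ZMod p) (q : F2) : ZMod p :=
  γ (((QuotientGroup.mk q : F2 ⧸ U).out)⁻¹ * q) +
    δχ ((QuotientGroup.mk q : F2 ⧸ U).out) * δψ (((QuotientGroup.mk q : F2 ⧸ U).out)⁻¹ * q)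

theorem out_mem (q : F2) : ((QuotientGroup.mk q : F2 ⧸ U).out)⁻¹ * q ∈ U := by
  rw [← QuotientGroup.eq, QuotientGroup.out_eq']

theorem gt_mul (hχ : QH U δχ) (hψ : QH U δψ)
    (hγ : ∀ x ∈ U, ∀ y ∈ U, γ (x * y) = γ x + γ y + δχ x * δψ y) (q u : F2) (hu : u ∈ U) :
    gt U δχ δψ γ (q * u) = gt U δχ δψ γ q + γ u + δχ q * δψ u := by
  have h1 : (QuotientGroup.mk (q * u) : F2 ⧸ U) = QuotientGroup.mk q :=
    QuotientGroup.mk_mul_of_mem q hu
  unfold gt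
  rw [h1]
  have hv := out_mem (U := U) q
  have e1 : ((QuotientGroup.mk q : F2 ⧸ U).out)⁻¹ * (q * u) =
      (((QuotientGroup.mk q : F2 ⧸ U).out)⁻¹ * q) * u := (mul_assoc _ _ _).symm
  rw [e1, hγ _ hv _ hu, hψ _ u hu]
  have e2 : δχ q = δχ ((QuotientGroup.mk q : F2 ⧸ U).out) +
      δχ (((QuotientGroup.mk q : F2 ⧸ U).out)⁻¹ * q) := by
    rw [← hχ _ _ hv]
    congr 1
    group
  rw [e2]
  ring

/-- the function `E_f` -/
noncomputable def EE (U : Subgroup F2) (δχ δψ γ : F2 → ZMod p) (f q : F2) : ZMod p :=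
  gt U δχ δψ γ (f * q) - gt U δχ δψ γ q - (δχ (f * q) - δχ q) * δψ q

theorem EE_RI (hχ : QH U δχ) (hψ : QH U δψ)
    (hγ : ∀ x ∈ U, ∀ y ∈ U, γ (x * y) = γ x + γ y + δχ x * δψ y) (f : F2) :
    RI U (EE U δχ δψ γ f) := by
  intro q u hu
  unfold EE
  rw [← mul_assoc, gt_mul hχ hψ hγ _ u hu, gt_mul hχ hψ hγ _ u hu, hχ _ u hu, hχ _ u hu, hψ _ u hu]
  ring

theorem D_RI {M : Type} [AddCommGroup M] {δ : F2 → M} (hδ : QH U δ) (f : F2) :
    RI U (fun q => δ (f * q) - δ q) := by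
  intro q u hu
  show δ (f * (q * u)) - δ (q * u) = δ (f * q) - δ q
  rw [← mul_assoc, hδ _ u hu, hδ _ u hu]
  abel

/-- the generic orbit sum -/
theorem orbit (hχ : QH U δχ) (hψ : QH U δψ)
    (hγ : ∀ x ∈ U, ∀ y ∈ U, γ (x * y) = γ x + γ y + δχ x * δψ y) (s : F2) (w : F2 → ZMod p)
    (hw : ∀ q, δψ (s * q) - δψ q = w (s * q) - w q) (q : F2) (n : ℕ) (hc : q⁻¹ * s ^ n * q ∈ U)
    (hχc : δχ (q⁻¹ * s ^ n * q) = 0) (hψc : δψ (q⁻¹ * s ^ n * q) = 0) :
    ∑ i ∈ Finset.range n, (EE U δχ δψ γ s (s ^ i * q) +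
      (δχ (s * (s ^ i * q)) - δχ (s ^ i * q)) * w (s ^ i * q)) = γ (q⁻¹ * s ^ n * q) := by
  have h1 : s ^ n * q = q * (q⁻¹ * s ^ n * q) := by group
  have hg : gt U δχ δψ γ (s ^ n * q) = gt U δχ δψ γ q + γ (q⁻¹ * s ^ n * q) := by
    rw [h1, gt_mul hχ hψ hγ _ _ hc, hψc, mul_zero, add_zero]
  have hx : δχ (s ^ n * q) = δχ q := by
    rw [h1, hχ _ _ hc, hχc, add_zero]
  -- the constant
  have hk : ∀ i : ℕ, δψ (s ^ i * q) = w (s ^ i * q) + (δψ q - w q) := by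
    intro i
    induction i with
    | zero =>
      rw [pow_zero, one_mul]
      ring
    | succ i ih =>
      have e : s ^ (i + 1) * q = s * (s ^ i * q) := by rw [pow_succ', mul_assoc]
      rw [e]
      have h2 := hw (s ^ i * q)
      linear_combination h2 + ih
  have h3 : ∀ i : ℕ, EE U δχ δψ γ s (s ^ i * q) +
      (δχ (s * (s ^ i * q)) - δχ (s ^ i * q)) * w (s ^ i * q) =
      (gt U δχ δψ γ (s ^ (i + 1) * q) - gt U δχ δψ γ (s ^ i * q)) -
        (δψ q - w q) * (δχ (s ^ (i + 1) * q) - δχ (s ^ i * q)) := by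
    intro i
    have e : s ^ (i + 1) * q = s * (s ^ i * q) := by rw [pow_succ', mul_assoc]
    rw [e]
    unfold EE
    rw [hk i]
    ring
  simp_rw [h3]
  rw [Finset.sum_sub_distrib, ← Finset.mul_sum,
    Finset.sum_range_sub (fun i => gt U δχ δψ γ (s ^ i * q)),
    Finset.sum_range_sub (fun i => δχ (s ^ i * q)), hg, hx, pow_zero, one_mul]
  ring

end F7bx

open F7bx in
/-- the formula for the cup product -/
theorem ND_formula {p : ℕ} [Fact p.Prime] {U : Subgroup F2} (hU : IsOpen (U : Set F2))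
    (hn : U.Normal) {e : ℕ} (he : 0 < e) (hXe : ∀ n : ℕ, X ^ n ∈ U ↔ e ∣ n)
    {δχ δψ : F2 → ZMod p} (hχ : QH U δχ) (hψ : QH U δψ) (hPχ : Par U δχ) (hPψ : Par U δψ)
    (a b : F2 → ZMod p) (ha : RI U a) (hb : RI U b)
    (hX : ∀ q, δψ (X * q) - δψ q = a q - a (X⁻¹ * q))
    (hY : ∀ q, δψ (Y * q) - δψ q = b (Y * q) - b q) (hZ : ∀ q, δψ (Z * q) = δψ q)
    (γ : F2 → ZMod p) (hγ : ∀ x ∈ U, ∀ y ∈ U, γ (x * y) = γ x + γ y + δχ x * δψ y)
    (hγB : ∀ x ∈ BadE U, γ x = 0) :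
    γ (X ^ e) = csum U (fun q => (δχ (X * q) - δχ q) * a q) +
      csum U (fun q => (δχ (Y * q) - δχ q) * b q) := by
  have : Finite (F2 ⧸ U) := SE.finite_of_isOpen hU
  -- the three functions
  have hEX := EE_RI (γ := γ) hχ hψ hγ X
  have hEY := EE_RI (γ := γ) hχ hψ hγ Y
  have hEZ := EE_RI (γ := γ) hχ hψ hγ Z
  have hDX := D_RI hχ X
  have hDY := D_RI hχ Y
  have hDZ := D_RI hχ Z
  have haX : RI U (fun q => a (X⁻¹ * q)) := by
    intro q u hu
    show a (X⁻¹ * (q * u)) = a (X⁻¹ * q)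
    rw [← mul_assoc]
    exact ha _ u hu
  -- Y
  have kY : csum U (fun q => EE U δχ δψ γ Y q + (δχ (Y * q) - δχ q) * b q) = 0 := by
    apply csum_orbits hU Y
    · intro q u hu
      show EE U δχ δψ γ Y (q * u) + (δχ (Y * (q * u)) - δχ (q * u)) * b (q * u) = _
      rw [hEY q u hu, hb q u hu]
      have := hDY q u hu
      simp only at this
      rw [this]
    · intro q n hc
      rw [orbit hχ hψ hγ Y b hY q n hc ((hPχ q n).2.1 hc) ((hPψ q n).2.1 hc)]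
      exact hγB _ ⟨hc, Or.inl ⟨q, n, rfl⟩⟩
  -- Z
  have kZ : csum U (fun q => EE U δχ δψ γ Z q + (δχ (Z * q) - δχ q) * 0) = 0 := by
    apply csum_orbits hU Z
    · intro q u hu
      show EE U δχ δψ γ Z (q * u) + (δχ (Z * (q * u)) - δχ (q * u)) * 0 = _
      rw [hEZ q u hu]
      simp
    · intro q n hc
      rw [orbit hχ hψ hγ Z (fun _ => 0) (fun q => by rw [hZ q]; ring) q n hc
        ((hPχ q n).2.2 hc) ((hPψ q n).2.2 hc)]
      exact hγB _ ⟨hc, Or.inr (Or.inl ⟨q, n, rfl⟩)⟩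
  -- X
  have hwX : ∀ q, δψ (X * q) - δψ q = a (X⁻¹ * (X * q)) - a (X⁻¹ * q) := by
    intro q
    rw [hX q, inv_mul_cancel_left]
  have kX : csum U (fun q => EE U δχ δψ γ X q + (δχ (X * q) - δχ q) * a (X⁻¹ * q)) = γ (X ^ e) := by
    rw [csum_base hU hn he hXe]
    · have hc : (1 : F2)⁻¹ * X ^ e * 1 ∈ U := by
        rw [inv_one, one_mul, mul_one]
        exact (hXe e).2 dvd_rfl
      have h1 := orbit hχ hψ hγ X (fun q => a (X⁻¹ * q)) hwX 1 e hc ((hPχ 1 e).1 hc) ((hPψ 1 e).1 hc)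
      simp only [mul_one, inv_one, one_mul] at h1
      exact h1
    · intro q u hu
      show EE U δχ δψ γ X (q * u) + (δχ (X * (q * u)) - δχ (q * u)) * a (X⁻¹ * (q * u)) = _
      rw [hEX q u hu]
      have e1 := hDX q u hu
      have e2 := haX q u hu
      simp only at e1 e2
      rw [e1, e2]
    · intro q n hne hc
      rw [orbit hχ hψ hγ X (fun q => a (X⁻¹ * q)) hwX q n hc ((hPχ q n).1 hc) ((hPψ q n).1 hc)]
      exact hγB _ ⟨hc, Or.inr (Or.inr ⟨q, n, rfl, hne⟩)⟩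
  -- the relation
  have hXYZ : X * (Y * Z) = 1 := by
    unfold Z
    group
  have kR : csum U (EE U δχ δψ γ X) + csum U (EE U δχ δψ γ Y) + csum U (EE U δχ δψ γ Z) =
      csum U (fun q => (δχ (X * q) - δχ q) * (δψ (X * q) - δψ q)) := by
    have hRI : RI U (fun q => (δχ (X * q) - δχ q) * (δψ (X * q) - δψ q)) := by
      intro q u hu
      have e1 := hDX q u hu
      have e2 := D_RI hψ X q u hu
      simp only at e1 e2
      show (δχ (X * (q * u)) - δχ (q * u)) * (δψ (X * (q * u)) - δψ (q * u)) = _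
      rw [e1, e2]
    rw [← SE.csum_mul_left hEX (Y * Z), ← SE.csum_mul_left hEY Z, ← SE.csum_add, ← SE.csum_add,
      ← SE.csum_mul_left hRI (Y * Z)]
    apply SE.csum_congr
    intro q
    have e1 : X * (Y * Z * q) = q := by rw [← mul_assoc, hXYZ, one_mul]
    unfold EE
    rw [e1, ← mul_assoc Y Z q, hZ q]
    ring
  -- conclusion
  rw [SE.csum_add] at kX kY kZ
  simp only [mul_zero] at kZ
  have e0 : csum U (fun _ : F2 => (0 : ZMod p)) = 0 := by
    unfold SE.csum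
    exact finsum_zero
  rw [e0, add_zero] at kZ
  have e3 : csum U (fun q => (δχ (X * q) - δχ q) * a q) =
      csum U (fun q => (δχ (X * q) - δχ q) * (δψ (X * q) - δψ q)) +
        csum U (fun q => (δχ (X * q) - δχ q) * a (X⁻¹ * q)) := by
    rw [← SE.csum_add]
    apply SE.csum_congr
    intro q
    rw [hX q]
    ring
  rw [e3, ← kR]
  have e4 : csum U (EE U δχ δψ γ X) = csum U (fun q => EE U δχ δψ γ X q) := rfl
  have e5 : csum U (EE U δχ δψ γ Y) = csum U (fun q => EE U δχ δψ γ Y q) := rfl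
  have e6 : csum U (EE U δχ δψ γ Z) = csum U (fun q => EE U δχ δψ γ Z q) := rfl
  linear_combination -kX - kY - kZ + 0 * e4 + 0 * e5 + 0 * e6

end Pool.Agent.H371.GT
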