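import Pool.Agent.H371.GT.F7a
import Pool.Agent.H371.GT.F7b

set_option autoImplicit false

namespace Pool.Agent.H371.GT

open SE (AddOn LC CZ RI csum)

namespace F7cx

theorem lc_of_ri {M : Type} {U : Subgroup F2} (hU : IsOpen (U : Set F2)) {m : F2 → M}
    (h : RI U m) : LC ⊤ m := ⟨U, hU, fun x _ w _ hw => h x w hw⟩

theorem lc_sub {M : Type} [AddCommGroup M] {f g : F2 → M} (hf : LC ⊤ f) (hg : LC ⊤ g) :
    LC ⊤ (fun q => f q - g q) := by
  obtain ⟨W, hW, h⟩ := hf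
  obtain ⟨W', hW', h'⟩ := hg
  refine ⟨W ⊓ W', ?_, fun x hx w hw hww => ?_⟩
  · rw [Subgroup.coe_inf]
    exact hW.inter hW'
  · rw [Subgroup.mem_inf] at hww
    beta_reduce
    rw [h x hx w hw hww.1, h' x hx w hw hww.2]

theorem tele {M : Type} [AddCommGroup M] {U : Subgroup F2} {δ m : F2 → M} (hδ : QH U δ)
    (hm : RI U m) {s : F2} (h : ∀ q, δ (s * q) - δ q = m (s * q) - m q) (q : F2) (n : ℕ)
    (hq : q⁻¹ * s ^ n * q ∈ U) : δ (q⁻¹ * s ^ n * q) = 0 := by
  have h1 : ∀ (i : ℕ) (z : F2), δ (s ^ i * z) - m (s ^ i * z) = δ z - m z := by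
    intro i
    induction i with
    | zero => intro z; rw [pow_zero, one_mul]
    | succ i ih =>
      intro z
      rw [pow_succ', mul_assoc, ← ih z, sub_eq_sub_iff_sub_eq_sub]
      exact h _
  have h2 := h1 n q
  have e1 : s ^ n * q = q * (q⁻¹ * s ^ n * q) := by group
  rw [e1, hδ _ _ hq, hm _ _ hq] at h2
  have h3 : δ q + δ (q⁻¹ * s ^ n * q) = δ q := by
    rw [sub_left_inj] at h2
    exact h2
  exact left_eq_add.1 h3.symm

theorem one_eq {M : Type} [AddCommGroup M] {U : Subgroup F2} {δ : F2 → M} (hδ : QH U δ) :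
    δ 1 = 0 := by
  have h := hδ 1 1 U.one_mem
  rw [mul_one] at h
  exact left_eq_add.1 h

end F7cx

open F7cx

/-- nondegeneracy -/
theorem ND_F2 (p : ℕ) [Fact p.Prime] {U : Subgroup F2} (hU : IsOpen (U : Set F2))
    (hn : U.Normal) {e : ℕ} (he : 0 < e) (hXe : ∀ n : ℕ, X ^ n ∈ U ↔ e ∣ n)
    (χ : U → ZMod p) (h1 : AddOn ⊤ χ) (h2 : LC ⊤ χ) (h3 : ∀ b ∈ BadS U, χ b = 0)
    (h4 : ∃ x, χ x ≠ 0) :
    ∃ ψ : U → ZMod p, AddOn ⊤ ψ ∧ LC ⊤ ψ ∧ (∀ b ∈ BadS U, ψ b = 0) ∧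
      ∀ γ : U → ZMod p, LC ⊤ γ → (∀ x y, γ (x * y) = γ x + γ y + χ x * ψ y) →
        (∀ b ∈ BadS U, γ b = 0) → γ ⟨X ^ e, (hXe e).2 dvd_rfl⟩ ≠ 0 := by
  classical
  obtain ⟨δχ, hχ, hχl, hχe⟩ := exists_ext hU χ h1 h2
  have hχB : ∀ b ∈ BadE U, δχ b = 0 := by
    intro b hb
    have := hχe ⟨b, hb.1⟩
    rw [h3 ⟨b, hb.1⟩ hb] at this
    exact this
  have hPχ : Par U δχ := par_of_bad hU hn he hXe hχ hχB
  have hri : ∀ {δ : F2 → ZMod p} (_ : QH U δ) (s : F2), RI U (fun q => δ (s * q) - δ q) := by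
    intro δ hδ s x u hu
    beta_reduce
    rw [← mul_assoc, hδ _ u hu, hδ _ u hu]
    ring
  obtain ⟨a, b, ha, hb, hab, hne⟩ := exists_dual hU (fun q => δχ (X * q) - δχ q)
    (fun q => δχ (Y * q) - δχ q) (hri hχ X) (hri hχ Y) (by
      rintro ⟨m, hm, hA, hB⟩
      obtain ⟨x, hx⟩ := h4
      apply hx
      have hc := const_of_inv (lc_sub hχl (lc_of_ri hU hm))
        (fun q => by
          have := hA q
          beta_reduce at this ⊢
          rw [sub_eq_sub_iff_sub_eq_sub]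
          exact this)
        (fun q => by
          have := hB q
          beta_reduce at this ⊢
          rw [sub_eq_sub_iff_sub_eq_sub]
          exact this) (x : F2)
      have h5 : m (x : F2) = m 1 := by
        have := hm 1 (x : F2) x.2
        rwa [one_mul] at this
      beta_reduce at hc
      rw [h5, one_eq hχ, sub_left_inj] at hc
      rw [← hχe x, hc])
  have hneZ : NeZero p := ⟨(Fact.out : p.Prime).ne_zero⟩
  obtain ⟨δψ, -, hψ, hψl, hX, hY⟩ := exists_QH hU (fun q => a q - a (X⁻¹ * q))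
    (fun q => b (Y * q) - b q)
    (by
      intro x u hu
      beta_reduce
      rw [← mul_assoc, ha _ u hu, ha _ u hu])
    (by
      intro x u hu
      beta_reduce
      rw [← mul_assoc, hb _ u hu, hb _ u hu])
  have hXYZ : X * (Y * Z) = 1 := by
    rw [← mul_assoc]
    exact mul_inv_cancel _
  have hYZ : Y * Z = X⁻¹ := eq_inv_of_mul_eq_one_right hXYZ
  have hZe : Z = Y⁻¹ * X⁻¹ := by rw [← hYZ, inv_mul_cancel_left]
  have hX' : ∀ q, δψ (X * q) - δψ q = a q - a (X⁻¹ * q) := by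
    intro q
    rw [hX q]
    ring
  have hY' : ∀ q, δψ (Y * q) - δψ q = b (Y * q) - b q := by
    intro q
    rw [hY q]
    ring
  have hZ' : ∀ q, δψ (Z * q) = δψ q := by
    intro q
    have e1 := hX (Y * Z * q)
    have e2 := hY (Z * q)
    rw [← mul_assoc] at e2
    have e3 : X * (Y * Z * q) = q := by rw [← mul_assoc, hXYZ, one_mul]
    rw [e3, e2, hYZ] at e1
    have e4 := hab (X⁻¹ * q)
    have e5 : Y⁻¹ * (X⁻¹ * q) = Z * q := by rw [hZe, mul_assoc]
    rw [e5] at e4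
    rw [e1]
    linear_combination -e4
  have hPψ : Par U δψ := by
    intro q n
    refine ⟨fun h => ?_, fun h => ?_, fun h => ?_⟩
    · refine tele hψ (m := fun q => a (X⁻¹ * q)) ?_ ?_ q n h
      · intro x u hu
        beta_reduce
        rw [← mul_assoc, ha _ u hu]
      · intro q
        beta_reduce
        rw [hX', inv_mul_cancel_left]
    · exact tele hψ hb hY' q n h
    · refine tele hψ (m := fun _ => (0 : ZMod p)) (fun _ _ _ => rfl) ?_ q n h
      intro q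
      rw [hZ']
      ring
  refine ⟨fun u => δψ u, ?_, ?_, ?_, ?_⟩
  · intro x _ y _
    exact hψ _ _ y.2
  · obtain ⟨W, hW, hWl⟩ := hψl
    refine ⟨W.comap U.subtype, hW.preimage continuous_subtype_val, fun x _ w _ hw => ?_⟩
    exact hWl _ (Subgroup.mem_top _) _ (Subgroup.mem_top _) hw
  · rintro ⟨b, hbU⟩ hb
    obtain ⟨-, h⟩ := hb
    simp only at h ⊢
    rcases h with ⟨q, n, h⟩ | ⟨q, n, h⟩ | ⟨q, n, h, -⟩
    · rw [h] at hbU ⊢
      exact (hPψ q n).2.1 hbU
    · rw [h] at hbU ⊢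
      exact (hPψ q n).2.2 hbU
    · rw [h] at hbU ⊢
      exact (hPψ q n).1 hbU
  · intro γ _ hγ hγB hγ0
    apply hne
    have h5 := ND_formula hU hn he hXe hχ hψ hPχ hPψ a b ha hb hX' hY' hZ'
      (fun q => if h : q ∈ U then γ ⟨q, h⟩ else 0) (by
        intro x hx y hy
        beta_reduce
        rw [dif_pos hx, dif_pos hy, dif_pos (U.mul_mem hx hy)]
        have h6 := hγ ⟨x, hx⟩ ⟨y, hy⟩
        rw [← hχe] at h6
        exact h6) (by
        intro x hx
        beta_reduce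
        rw [dif_pos hx.1]
        exact hγB ⟨x, hx.1⟩ hx)
    rw [← h5]
    beta_reduce
    rw [dif_pos ((hXe e).2 dvd_rfl)]
    exact hγ0

end Pool.Agent.H371.GT
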