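import Pool.Agent.H371.GT.Q4

set_option autoImplicit false

namespace Pool.Agent.H371.GT

open SE (AddOn LC CZ RI csum)

namespace F9ax

open Filter Topology

/-- a limit of elements of a closed subset of an open subgroup -/
lemma lim_mem {U : Subgroup F2} (hU : IsOpen (U : Set F2)) {N : Set U} (hN : IsClosed N)
    {f : ℕ → F2} {c : U} (hf : Tendsto f atTop (𝓝 (c : F2)))
    (h : ∀ᶠ k in atTop, ∀ hk : f k ∈ U, (⟨f k, hk⟩ : U) ∈ N) : c ∈ N := by
  by_contra hc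
  have h1 : IsOpen (Subtype.val '' (Nᶜ : Set U)) :=
    hU.isOpenEmbedding_subtypeVal.isOpenMap _ hN.isOpen_compl
  have h2 : Subtype.val '' (Nᶜ : Set U) ∈ 𝓝 (c : F2) := h1.mem_nhds ⟨c, hc, rfl⟩
  obtain ⟨k, hk1, hk2⟩ := ((hf.eventually h2).and h).exists
  obtain ⟨y, hy, hyk⟩ := hk1
  have h3 : f k ∈ U := hyk ▸ y.2
  have h4 := hk2 h3
  apply hy
  have h5 : (⟨f k, h3⟩ : U) = y := Subtype.ext hyk.symm
  rw [← h5]
  exact h4

lemma t_ppow {t : MulAut F2} (ht : Continuous t) (g : F2) (a : Zhat) :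
    t (ppow g a) = ppow (t g) a := by
  let φ : F2 →ₜ* F2 := ⟨t.toMonoidHom, ht⟩
  exact map_ppow φ g a

lemma tendsto_conj (q s : F2) (n : ℕ) (l : Zhat) :
    Tendsto (fun k : ℕ => q⁻¹ * s ^ (res l ⟨k.factorial, k.factorial_pos⟩ * n) * q) atTop
      (𝓝 (q⁻¹ * ppow s l ^ n * q)) := by
  have h1 := (tendsto_ppow s l).pow n
  have h2 := (h1.const_mul q⁻¹).mul_const q
  refine h2.congr fun k => ?_
  rw [← pow_mul]

lemma t_pow_mem {U : Subgroup F2} {t : MulAut F2} (htU : ∀ u ∈ U, t u ∈ U) (j : ℕ) :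
    ∀ u ∈ U, (t ^ j) u ∈ U := by
  induction j with
  | zero => intro u hu; simpa using hu
  | succ j ih =>
    intro u hu
    rw [pow_succ', MulAut.mul_apply]
    exact htU _ (ih u hu)

lemma t_pow_X {t : MulAut F2} {l : Zhat} (ht : Continuous t) (hX : t X = ppow X l) (j : ℕ) :
    (t ^ j) X = ppow X (l ^ j) := by
  induction j with
  | zero => rw [pow_zero, pow_zero, ppow_one]; rfl
  | succ j ih =>
    rw [pow_succ', MulAut.mul_apply, ih, t_ppow ht, hX, ← ppow_mul, pow_succ']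

end F9ax

open F9ax Filter Topology

section
variable {p : ℕ} [Fact p.Prime] {U : Subgroup F2} {t : MulAut F2} {l : Zhat}

theorem t_bad (hU : IsOpen (U : Set F2)) (hn : U.Normal) (ht : Continuous t) (htp : t ^ p = 1)
    (hex : Hex l t) (htU : ∀ u ∈ U, t u ∈ U) (b : U) (hb : b ∈ BadS U) :
    (⟨t b, htU b b.2⟩ : U) ∈ NN p (BadS U) := by
  obtain ⟨hX, ⟨gy, hgy⟩, gz, hgz⟩ := hex
  have key : ∀ (q' s : F2) (n : ℕ), t (b : F2) = q'⁻¹ * ppow s l ^ n * q' →
      (∀ m : ℕ, q'⁻¹ * s ^ m * q' ∈ U → q'⁻¹ * s ^ m * q' ∈ BadE U) →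
      (⟨t b, htU b b.2⟩ : U) ∈ NN p (BadS U) := by
    intro q' s n h1 h2
    refine lim_mem (c := ⟨t b, htU b b.2⟩) hU (NN_closed (p := p) (B := BadS U))
      (f := fun k : ℕ => q'⁻¹ * s ^ (res l ⟨k.factorial, k.factorial_pos⟩ * n) * q') ?_ ?_
    · show Tendsto _ atTop (𝓝 (t (b : F2)))
      rw [h1]
      exact tendsto_conj q' s n l
    · refine Eventually.of_forall fun k hk => ?_
      exact subset_NN (h2 _ hk)
  have hconj : ∀ (g q s : F2) (n : ℕ), t s = g⁻¹ * ppow s l * g →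
      t (q⁻¹ * s ^ n * q) = (g * t q)⁻¹ * ppow s l ^ n * (g * t q) := by
    intro g q s n h
    have h1 : (g⁻¹ * ppow s l * g) ^ n = g⁻¹ * ppow s l ^ n * g := by
      have := conj_pow (a := g⁻¹) (b := ppow s l) (i := n)
      simpa using this
    rw [map_mul, map_mul, map_inv, map_pow, h, h1]
    group
  rcases hb with ⟨hbU, ⟨q, n, hq⟩ | ⟨q, n, hq⟩ | ⟨q, n, hq, hq2⟩⟩
  · refine key (gy * t q) Y n (by rw [hq]; exact hconj gy q Y n hgy) ?_
    intro m hm
    exact ⟨hm, Or.inl ⟨_, m, rfl⟩⟩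
  · refine key (gz * t q) Z n (by rw [hq]; exact hconj gz q Z n hgz) ?_
    intro m hm
    exact ⟨hm, Or.inr (Or.inl ⟨_, m, rfl⟩)⟩
  · refine key (t q) X n ?_ ?_
    · rw [hq]
      have := hconj 1 q X n (by rw [hX]; group)
      simpa using this
    · intro m hm
      refine ⟨hm, Or.inr (Or.inr ⟨_, m, rfl, ?_⟩)⟩
      intro i u hu h
      have hp : 0 < p := (Fact.out : p.Prime).pos
      have h1 : (t ^ (p - 1)) (t q) = q := by
        have h2 : t ^ (p - 1) * t = 1 := by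
          rw [← pow_succ, Nat.sub_add_cancel hp, htp]
        have h3 : (t ^ (p - 1) * t) q = q := by rw [h2]; rfl
        exact h3
      rw [h, map_mul, map_pow, t_pow_X ht hX] at h1
      set l' : Zhat := l ^ (p - 1) with hl'
      -- `ppow X l' ^ i` lies in `X ^ j U`
      have h4 : Tendsto (fun k : ℕ => (X ^ (res l' ⟨k.factorial, k.factorial_pos⟩ * i))⁻¹ *
          ppow X l' ^ i) atTop (𝓝 ((ppow X l' ^ i)⁻¹ * ppow X l' ^ i)) := by
        have h5 := ((tendsto_ppow X l').pow i).inv.mul_const (ppow X l' ^ i)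
        refine h5.congr fun k => ?_
        rw [← pow_mul]
      rw [inv_mul_cancel] at h4
      obtain ⟨k, hk⟩ := (h4.eventually (hU.mem_nhds U.one_mem)).exists
      set j := res l' ⟨k.factorial, k.factorial_pos⟩ * i with hj
      refine hq2 j (((X ^ j)⁻¹ * ppow X l' ^ i) * (t ^ (p - 1)) u)
        (U.mul_mem hk (t_pow_mem htU _ u hu)) ?_
      rw [← h1]
      group

theorem t_base (hU : IsOpen (U : Set F2)) (hl : TrivAt p l) (hex : Hex l t)
    (htU : ∀ u ∈ U, t u ∈ U) (b : U) (n : ℕ) (hb : (b : F2) = X ^ n) :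
    b⁻¹ * (⟨t b, htU b b.2⟩ : U) ∈ NN p (BadS U) := by
  obtain ⟨hX, -, -⟩ := hex
  rw [NN, Subgroup.mem_sInf]
  rintro M ⟨hMn, hMo, hMp, -⟩
  obtain ⟨k, hk⟩ := hMp b
  have hMc : IsClosed (M : Set U) := M.isClosed_of_isOpen hMo
  have htb : t (b : F2) = ppow X l ^ n := by rw [hb, map_pow, hX]
  refine lim_mem (c := b⁻¹ * ⟨t b, htU b b.2⟩) hU hMc
    (f := fun j : ℕ => (b : F2)⁻¹ * (X ^ n) ^ (res l ⟨j.factorial, j.factorial_pos⟩)) ?_ ?_
  · show Tendsto _ atTop (𝓝 ((b : F2)⁻¹ * t (b : F2)))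
    rw [htb]
    have h1 := ((tendsto_ppow X l).pow n).const_mul (b : F2)⁻¹
    refine h1.congr fun j => ?_
    rw [← pow_mul, ← pow_mul, mul_comm n]
  · filter_upwards [eventually_ge_atTop (p ^ k)] with j hj hjU
    have hpk : 0 < p ^ k := pow_pos (Fact.out : p.Prime).pos k
    have h1 : res l ⟨j.factorial, j.factorial_pos⟩ ≡ 1 [MOD p ^ k] := by
      have h2 := res_modEq l (m := ⟨p ^ k, hpk⟩) (n := ⟨j.factorial, j.factorial_pos⟩)
        (Nat.dvd_factorial hpk hj)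
      exact h2.trans (hl k)
    have h3 : (⟨(b : F2)⁻¹ * (X ^ n) ^ (res l ⟨j.factorial, j.factorial_pos⟩), hjU⟩ : U) =
        b⁻¹ * b ^ (res l ⟨j.factorial, j.factorial_pos⟩) := by
      apply Subtype.ext
      simp [hb]
    show (⟨(b : F2)⁻¹ * (X ^ n) ^ (res l ⟨j.factorial, j.factorial_pos⟩), hjU⟩ : U) ∈ M
    rw [h3, ← QuotientGroup.eq, QuotientGroup.mk_pow]
    have h4 : (QuotientGroup.mk b : U ⧸ M) ^ p ^ k = 1 := by
      rw [← QuotientGroup.mk_pow, QuotientGroup.eq_one_iff]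
      exact hk
    rw [pow_eq_of_modEq h4 h1, pow_one]

end

end Pool.Agent.H371.GT
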