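import Pool.Agent.H371.GT.Q6
import Pool.Agent.H371.GT.F3
import Pool.Agent.H371.GT.F5b
import Pool.Agent.H371.GT.F7c
import Pool.Agent.H371.GT.F9a

set_option autoImplicit false

namespace Pool.Agent.H371.GT

open SE (AddOn LC CZ RI csum)

namespace F9bx

/-- the set of bad elements is stable under conjugation by elements of `U` -/
theorem bad_conj {U : Subgroup F2} {b : U} (hb : b ∈ BadS U) (u : U) :
    u * b * u⁻¹ ∈ BadS U := by
  obtain ⟨_, h⟩ := hb
  refine ⟨(u * b * u⁻¹).2, ?_⟩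
  have key : ∀ (W q : F2) (n : ℕ), (b : F2) = q⁻¹ * W ^ n * q →
      ((u * b * u⁻¹ : U) : F2) = (q * (u : F2)⁻¹)⁻¹ * W ^ n * (q * (u : F2)⁻¹) := by
    intro W q n hq
    rw [Subgroup.coe_mul, Subgroup.coe_mul, Subgroup.coe_inv, hq]
    group
  rcases h with ⟨q, n, hq⟩ | ⟨q, n, hq⟩ | ⟨q, n, hq, hm⟩
  · exact Or.inl ⟨q * (u : F2)⁻¹, n, key Y q n hq⟩
  · exact Or.inr (Or.inl ⟨q * (u : F2)⁻¹, n, key Z q n hq⟩)
  · refine Or.inr (Or.inr ⟨q * (u : F2)⁻¹, n, key X q n hq, ?_⟩)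
    intro m u' hu' he
    refine hm m (u' * u) (mul_mem hu' u.2) ?_
    rw [← mul_assoc, ← he]
    group

theorem pow_mem {U : Subgroup F2} {t : MulAut F2} (htU : ∀ u ∈ U, t u ∈ U) (k : ℕ) :
    ∀ u ∈ U, (t ^ k) u ∈ U := by
  induction k with
  | zero =>
    intro u hu
    rw [pow_zero]
    exact hu
  | succ k ih =>
    intro u hu
    rw [pow_succ, MulAut.mul_apply]
    exact ih _ (htU u hu)

/-- the restriction of the automorphism to `U` -/
theorem exists_restr {p : ℕ} [Fact p.Prime] {U : Subgroup F2} {t : MulAut F2}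
    (ht : Continuous t) (htp : t ^ p = 1) (htU : ∀ u ∈ U, t u ∈ U) :
    ∃ s : MulAut U, Continuous s ∧ s ^ p = 1 ∧ ∀ x : U, s x = ⟨t x, htU x x.2⟩ := by
  have hp : 0 < p := (Fact.out : p.Prime).pos
  have hinv : ∀ x : F2, (t ^ (p - 1)) (t x) = x := by
    intro x
    rw [← MulAut.mul_apply, ← pow_succ, Nat.sub_add_cancel hp, htp]
    rfl
  have hinv' : ∀ x : F2, t ((t ^ (p - 1)) x) = x := by
    intro x
    rw [← MulAut.mul_apply, ← pow_succ', Nat.sub_add_cancel hp, htp]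
    rfl
  let s : MulAut U :=
    { toFun := fun x => ⟨t x, htU x x.2⟩
      invFun := fun x => ⟨(t ^ (p - 1)) x, pow_mem htU (p - 1) x x.2⟩
      left_inv := fun x => Subtype.ext (hinv x)
      right_inv := fun x => Subtype.ext (hinv' x)
      map_mul' := fun x y => Subtype.ext (map_mul t (x : F2) (y : F2)) }
  have hs : ∀ x : U, s x = ⟨t x, htU x x.2⟩ := fun x => rfl
  refine ⟨s, ?_, ?_, hs⟩
  · exact (ht.comp continuous_subtype_val).subtype_mk _
  · have h : ∀ (k : ℕ) (x : U), (((s ^ k) x : U) : F2) = (t ^ k) (x : F2) := by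
      intro k
      induction k with
      | zero =>
        intro x
        rw [pow_zero, pow_zero]
        rfl
      | succ k ih =>
        intro x
        rw [pow_succ, pow_succ, MulAut.mul_apply, MulAut.mul_apply, ih]
        rfl
    apply MulEquiv.ext
    intro x
    apply Subtype.ext
    rw [h p x, htp]
    rfl

end F9bx

open F9bx

/-- the automorphism acts trivially on parabolic homomorphisms -/
theorem C1 {p : ℕ} [Fact p.Prime] {U : Subgroup F2} (hU : IsOpen (U : Set F2)) (hn : U.Normal)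
    {t : MulAut F2} (ht : Continuous t) (htp : t ^ p = 1) {l : Zhat} (hl : TrivAt p l)
    (hex : Hex l t) (htU : ∀ u ∈ U, t u ∈ U) {δ : F2 → ℤ_[p]} (hδ : QH U δ) (hc : CZ p ⊤ δ)
    (hP : Par U δ) : ∀ u ∈ U, δ (t u) = δ u := by
  have hcl : IsClosed (U : Set F2) := Subgroup.isClosed_of_isOpen U hU
  have hcomp : CompactSpace U := isCompact_iff_compactSpace.1 hcl.isCompact
  have hfin : Finite (F2 ⧸ U) := Subgroup.quotient_finite_of_isOpen U hU
  -- the order of `X` modulo `U`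
  obtain ⟨e, he, hXe⟩ : ∃ e : ℕ, 0 < e ∧ ∀ n : ℕ, X ^ n ∈ U ↔ e ∣ n := by
    refine ⟨orderOf (QuotientGroup.mk X : F2 ⧸ U), orderOf_pos _, fun n => ?_⟩
    rw [orderOf_dvd_iff_pow_eq_one, ← QuotientGroup.mk_pow, QuotientGroup.eq_one_iff]
  obtain ⟨s, hs1, hs2, hs3⟩ := exists_restr ht htp htU
  have hd : ∀ ψ : U → ZMod p, AddOn ⊤ ψ → LC ⊤ ψ → (∀ b ∈ BadS U, ψ b = 0) →
      ψ ⟨X ^ e, (hXe e).2 dvd_rfl⟩ = 0 := by
    intro ψ h1 h2 h3
    obtain ⟨δ', hq, -, hu⟩ := exists_ext hU ψ h1 h2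
    rw [← hu]
    refine base_zero hU hn he hXe hq ?_
    intro b hb
    have h4 := hu ⟨b, hb.1⟩
    rw [h3 ⟨b, hb.1⟩ hb] at h4
    exact h4
  have hrig := rigid_quot (p := p) (G := U) (B := BadS U) ⟨X ^ e, (hXe e).2 dvd_rfl⟩
    (fun b hb u => bad_conj hb u) (CD_sub (F2_cd p) U hU) (HB_F2 p hU hn)
    (fun χ h1 h2 h3 h4 => ND_F2 p hU hn he hXe χ h1 h2 h3 h4) hd s hs1 hs2
    (fun b hb => by rw [hs3]; exact t_bad hU hn ht htp hex htU b hb)
    (by rw [hs3]; exact t_base hU hl hex htU _ e rfl)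
  have hA : AddOn ⊤ (fun u : U => δ u) := fun x _ y _ => hδ x y y.2
  have hCZ : CZ p ⊤ (fun u : U => δ u) := by
    intro k
    obtain ⟨W, hW, h⟩ := hc k
    exact ⟨W.subgroupOf U, hW.preimage continuous_subtype_val,
      fun x _ w _ hw => h x trivial w trivial hw⟩
  have hB : ∀ b ∈ BadS U, (fun u : U => δ u) b = 0 := by
    rintro b ⟨hbU, ⟨q, n, hq⟩ | ⟨q, n, hq⟩ | ⟨q, n, hq, -⟩⟩
    · rw [hq] at hbU
      show δ (b : F2) = 0
      rw [hq]
      exact (hP q n).2.1 hbU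
    · rw [hq] at hbU
      show δ (b : F2) = 0
      rw [hq]
      exact (hP q n).2.2 hbU
    · rw [hq] at hbU
      show δ (b : F2) = 0
      rw [hq]
      exact (hP q n).1 hbU
  intro u hu
  have h1 := NN_homZ hA hCZ hB _ (hrig ⟨u, hu⟩)
  have h2 : δ ((u : F2)⁻¹ * t u) = 0 := by
    rw [hs3] at h1
    exact h1
  have h3 := hδ u⁻¹ (t u) (htU u hu)
  have h4 := hδ u⁻¹ u hu
  have h5 := hδ 1 1 (one_mem U)
  rw [mul_one] at h5
  rw [inv_mul_cancel] at h4
  have h6 : δ (1 : F2) = 0 := left_eq_add.1 h5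
  rw [h6] at h4
  rw [h2] at h3
  exact add_left_cancel (h3.symm.trans h4)

end Pool.Agent.H371.GT
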