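import Pool.Agent.H371.GT.F8a
import Pool.Agent.H371.GT.F9b

set_option autoImplicit false

namespace Pool.Agent.H371.GT

open SE (AddOn LC CZ RI csum)

namespace F10x

/-- the invariant core of a subgroup -/
def core (t : MulAut F2) (V0 : Subgroup F2) : Subgroup F2 where
  carrier := {x | ∀ i : ℕ, (t ^ i) x ∈ V0}
  mul_mem' := by
    intro a b ha hb i
    rw [map_mul]
    exact V0.mul_mem (ha i) (hb i)
  one_mem' := by
    intro i
    rw [map_one]
    exact V0.one_mem
  inv_mem' := by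
    intro a ha i
    rw [map_inv]
    exact V0.inv_mem (ha i)

theorem mem_core {t : MulAut F2} {V0 : Subgroup F2} {x : F2} :
    x ∈ core t V0 ↔ ∀ i : ℕ, (t ^ i) x ∈ V0 := Iff.rfl

theorem pow_cont {t : MulAut F2} (ht : Continuous t) (i : ℕ) : Continuous (t ^ i : MulAut F2) := by
  induction i with
  | zero => exact continuous_id
  | succ i ih =>
    rw [pow_succ]
    exact ih.comp ht

theorem core_open {p : ℕ} (hp : 0 < p) {t : MulAut F2} (ht : Continuous t) (htp : t ^ p = 1)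
    {V0 : Subgroup F2} (hV0 : IsOpen (V0 : Set F2)) : IsOpen (core t V0 : Set F2) := by
  have h1 : (core t V0 : Set F2) = ⋂ i ∈ Finset.range p, (t ^ i : MulAut F2) ⁻¹' (V0 : Set F2) := by
    ext x
    simp only [Set.mem_iInter, Set.mem_preimage, SetLike.mem_coe, mem_core, Finset.mem_range]
    constructor
    · intro h i _
      exact h i
    · intro h i
      have h2 : (t ^ i : MulAut F2) = t ^ (i % p) := by
        conv_lhs => rw [← Nat.div_add_mod i p, pow_add, pow_mul, htp, one_pow, one_mul]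
      rw [h2]
      exact h _ (Nat.mod_lt _ hp)
  rw [h1]
  exact isOpen_biInter_finset fun i _ => hV0.preimage (pow_cont ht i)

theorem core_normal {t : MulAut F2} {V0 : Subgroup F2} (h : V0.Normal) : (core t V0).Normal := by
  refine ⟨fun x hx g i => ?_⟩
  rw [map_mul, map_mul, map_inv]
  exact h.conj_mem _ (hx i) _

theorem core_inv {t : MulAut F2} {V0 : Subgroup F2} : ∀ x ∈ core t V0, t x ∈ core t V0 := by
  intro x hx i
  have h := hx (i + 1)
  rw [pow_succ] at h
  exact h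

theorem inv_pow_mem {p : ℕ} (hp : 0 < p) {t : MulAut F2} (htp : t ^ p = 1) {U : Subgroup F2}
    (h : ∀ u ∈ U, t u ∈ U) (u : F2) (hu : u ∈ U) : ∃ u' ∈ U, t u' = u := by
  have h1 : ∀ i : ℕ, (t ^ i) u ∈ U := by
    intro i
    induction i with
    | zero => exact hu
    | succ i ih =>
      rw [pow_succ']
      exact h _ ih
  refine ⟨(t ^ (p - 1)) u, h1 _, ?_⟩
  have h2 : t * t ^ (p - 1) = 1 := by
    rw [← pow_succ', Nat.sub_add_cancel hp, htp]
  calc t ((t ^ (p - 1)) u) = (t * t ^ (p - 1)) u := rfl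
    _ = u := by rw [h2]; rfl

theorem ker_inv {e : ℕ} (he : 0 < e) {t : MulAut F2} (ht : Continuous t) {l : Zhat}
    (hex : Hex l t) (κ : F2 →* Multiplicative (ZMod (4 * e))) (hκ : IsOpen (κ.ker : Set F2)) :
    ∀ x ∈ κ.ker, t x ∈ κ.ker := by
  have hne : NeZero (4 * e) := ⟨by omega⟩
  let n : ℕ+ := ⟨4 * e, by omega⟩
  have hn : ∀ x : Multiplicative (ZMod (4 * e)), x ^ (n : ℕ) = 1 := by
    intro x
    have h1 : x ^ Nat.card (Multiplicative (ZMod (4 * e))) = 1 := pow_card_eq_one'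
    have h2 : Nat.card (Multiplicative (ZMod (4 * e))) = 4 * e := by
      rw [Nat.card_eq_fintype_card, Fintype.card_multiplicative, ZMod.card]
    rw [h2] at h1
    exact h1
  have h1 : κ.comp t.toMonoidHom = (powMonoidHom (res l n)).comp κ := by
    apply hom_ext_XY_finite
    · have h2 : ((κ.comp t.toMonoidHom).ker : Set F2) = t ⁻¹' (κ.ker : Set F2) := rfl
      rw [h2]
      exact hκ.preimage ht
    · have h2 : κ.ker ≤ ((powMonoidHom (res l n)).comp κ).ker := by
        intro x hx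
        rw [MonoidHom.mem_ker] at hx ⊢
        rw [MonoidHom.comp_apply, hx, map_one]
      exact Subgroup.isOpen_mono h2 hκ
    · change κ (t X) = (κ X) ^ (res l n)
      rw [hex.1]
      exact fin_ppow κ hκ X l n (hn _)
    · obtain ⟨g, hg⟩ := hex.2.1
      change κ (t Y) = (κ Y) ^ (res l n)
      have h3 : ∀ a b : Multiplicative (ZMod (4 * e)), a⁻¹ * b * a = b := by
        intro a b
        rw [mul_comm a⁻¹ b]
        exact inv_mul_cancel_right b a
      rw [hg, map_mul, map_mul, map_inv, fin_ppow κ hκ Y l n (hn _)]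
      exact h3 _ _
  intro x hx
  rw [MonoidHom.mem_ker] at hx ⊢
  have h2 : κ (t x) = (κ x) ^ (res l n) := DFunLike.congr_fun h1 x
  rw [h2, hx, one_pow]

end F10x

/-- the main theorem -/
theorem t_eq_one {p : ℕ} [Fact p.Prime] {t : MulAut F2} (ht : Continuous t) (htp : t ^ p = 1)
    {l : Zhat} (hl : TrivAt p l) (hex : Hex l t) : t = 1 := by
  have hp : 0 < p := (Fact.out : p.Prime).pos
  by_contra hne
  obtain ⟨q₁, hq₁⟩ : ∃ q, t q ≠ q := by
    by_contra h
    push Not at h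
    exact hne (MulEquiv.ext h)
  have hr : t q₁ * q₁⁻¹ ≠ 1 := by
    intro h
    exact hq₁ (mul_inv_eq_one.1 h)
  set r : F2 := t q₁ * q₁⁻¹ with hrdef
  obtain ⟨N, hN⟩ := ProfiniteGrp.exist_openNormalSubgroup_sub_open_nhds_of_one
    (isOpen_compl_singleton (x := r)) (by simpa using hr.symm)
  set V : Subgroup F2 := F10x.core t N.toSubgroup with hVdef
  have hVo : IsOpen (V : Set F2) := F10x.core_open hp ht htp N.isOpen'
  have hVn : V.Normal := F10x.core_normal N.isNormal'
  have hVt : ∀ x ∈ V, t x ∈ V := F10x.core_inv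
  have hrV : r ∉ V := by
    intro h
    have h1 : r ∈ N.toSubgroup := h 0
    exact hN h1 rfl
  have hfin : Finite (F2 ⧸ V) := Subgroup.quotient_finite_of_isOpen V hVo
  set e : ℕ := Nat.card (F2 ⧸ V) with hedef
  have he : 0 < e := Nat.card_pos
  have hVe : ∀ q : F2, q ^ e ∈ V := by
    intro q
    rw [← QuotientGroup.eq_one_iff, QuotientGroup.mk_pow]
    exact pow_card_eq_one'
  have hnz : NeZero (4 * e) := ⟨by omega⟩
  obtain ⟨κ, hκX, hκY, hκ⟩ := exists_finite_XY (H := Multiplicative (ZMod (4 * e)))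
    (Multiplicative.ofAdd 1) (Multiplicative.ofAdd 1)
  obtain ⟨δ, hQ, hC, hP, w, hw, hw2, hw0⟩ := exists_par p hVo hVn he hVe κ hκ hκX hκY
  set U : Subgroup F2 := V ⊓ κ.ker with hU
  have hUo : IsOpen (U : Set F2) := by
    rw [hU, Subgroup.coe_inf]
    exact hVo.inter hκ
  have hUn : U.Normal := inferInstance
  have hUt : ∀ u ∈ U, t u ∈ U := by
    intro u hu
    rw [hU, Subgroup.mem_inf] at hu ⊢
    exact ⟨hVt u hu.1, F10x.ker_inv he ht hex κ hκ u hu.2⟩
  -- the conjugate function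
  have h1 : ∀ u ∈ U, δ (q₁ * t u * q₁⁻¹) = δ (q₁ * u * q₁⁻¹) := by
    refine C1 hUo hUn ht htp hl hex hUt (δ := fun q => δ (q₁ * q * q₁⁻¹)) ?_ ?_ ?_
    · intro q u hu
      have e1 : q₁ * (q * u) * q₁⁻¹ = (q₁ * q * q₁⁻¹) * (q₁ * u * q₁⁻¹) := by group
      simp only
      rw [e1]
      exact hQ _ _ (hUn.conj_mem u hu q₁)
    · intro k
      obtain ⟨W, hW, hWk⟩ := hC k
      refine ⟨W.comap (MulAut.conj q₁).toMonoidHom, ?_, fun x _ v _ hv => ?_⟩
      · have hcont : Continuous fun x : F2 => q₁ * x * q₁⁻¹ :=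
          (continuous_const_mul q₁).mul continuous_const
        exact hW.preimage hcont
      · have e1 : q₁ * (x * v) * q₁⁻¹ = (q₁ * x * q₁⁻¹) * (q₁ * v * q₁⁻¹) := by group
        simp only
        rw [e1]
        exact hWk _ (Subgroup.mem_top _) _ (Subgroup.mem_top _) hv
    · intro q n
      have e1 : ∀ s : F2, q₁ * (q⁻¹ * s ^ n * q) * q₁⁻¹ =
          (q * q₁⁻¹)⁻¹ * s ^ n * (q * q₁⁻¹) := by intro s; group
      have e2 : ∀ s : F2, q⁻¹ * s ^ n * q ∈ U → (q * q₁⁻¹)⁻¹ * s ^ n * (q * q₁⁻¹) ∈ U := by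
        intro s hs
        rw [← e1]
        exact hUn.conj_mem _ hs q₁
      refine ⟨fun h => ?_, fun h => ?_, fun h => ?_⟩
      · simp only
        rw [e1]
        exact (hP (q * q₁⁻¹) n).1 (e2 X h)
      · simp only
        rw [e1]
        exact (hP (q * q₁⁻¹) n).2.1 (e2 Y h)
      · simp only
        rw [e1]
        exact (hP (q * q₁⁻¹) n).2.2 (e2 Z h)
  have h2 : ∀ u ∈ U, δ (t u) = δ u := C1 hUo hUn ht htp hl hex hUt hQ hC hP
  have h3 : δ (r * w * r⁻¹) = δ w := by
    have h4 : q₁⁻¹ * w * q₁ ∈ U := by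
      have := hUn.conj_mem w hw q₁⁻¹
      rwa [inv_inv] at this
    obtain ⟨u', hu', hu't⟩ := F10x.inv_pow_mem hp htp hUt _ h4
    have e1 : r * w * r⁻¹ = t (q₁ * u' * q₁⁻¹) := by
      rw [map_mul, map_mul, map_inv, hu't, hrdef]
      group
    rw [e1, h2 _ (hUn.conj_mem u' hu' q₁), ← h1 u' hu', hu't]
    congr 1
    group
  rw [hw0 r hrV, hw2] at h3
  exact two_ne_zero h3.symm

end Pool.Agent.H371.GT
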