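import Pool.Agent.H371.GT.F10

set_option autoImplicit false

namespace Pool.Agent.H371.GT

open SE (AddOn LC CZ RI csum)

namespace F11x

/-- the continuous homomorphism given by an automorphism -/
def toC (t : MulAut F2) (ht : Continuous t) : F2 →ₜ* F2 := ⟨t.toMonoidHom, ht⟩

theorem aut_ppow {t : MulAut F2} (ht : Continuous t) (g : F2) (l : Zhat) :
    t (ppow g l) = ppow (t g) l := map_ppow (toC t ht) g l

theorem conj_ppow (g h : F2) (l : Zhat) : ppow (h⁻¹ * g * h) l = h⁻¹ * ppow g l * h := by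
  have := ppow_conj g h⁻¹ l
  rwa [inv_inv] at this

theorem conj_step {t : MulAut F2} (ht : Continuous t) {l l' : Zhat} {W : F2}
    (h : ∃ g, t W = g⁻¹ * ppow W l * g) {w' : F2} (h' : ∃ g, w' = g⁻¹ * ppow W l' * g) :
    ∃ g, t w' = g⁻¹ * ppow W (l * l') * g := by
  obtain ⟨g, hg⟩ := h
  obtain ⟨g', rfl⟩ := h'
  refine ⟨g * t g', ?_⟩
  rw [map_mul, map_mul, map_inv, aut_ppow ht, hg, conj_ppow, ppow_mul, mul_inv_rev]
  group

end F11x

open F11x in
theorem Hex.mul {l l' : Zhat} {t t' : MulAut F2} (ht : Continuous t) (h : Hex l t)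
    (h' : Hex l' t') : Hex (l * l') ((t * t' : MulAut F2) : F2 → F2) := by
  refine ⟨?_, ?_, ?_⟩
  · change t (t' X) = _
    rw [h'.1, aut_ppow ht, h.1, ppow_mul]
  · exact conj_step ht h.2.1 h'.2.1
  · exact conj_step ht h.2.2 h'.2.2

namespace F11x

theorem Hex.one : Hex 1 ((1 : MulAut F2) : F2 → F2) := by
  refine ⟨?_, ⟨1, ?_⟩, ⟨1, ?_⟩⟩
  · rw [ppow_one]; rfl
  · rw [ppow_one, inv_one, one_mul, mul_one]; rfl
  · rw [ppow_one, inv_one, one_mul, mul_one]; rfl

theorem cont_pow {t : MulAut F2} (ht : Continuous t) (k : ℕ) :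
    Continuous ((t ^ k : MulAut F2) : F2 → F2) := by
  induction k with
  | zero => rw [pow_zero]; exact continuous_id
  | succ k ih =>
    rw [pow_succ]
    exact ih.comp ht

theorem Hex.pow {l : Zhat} {t : MulAut F2} (ht : Continuous t) (h : Hex l t) (k : ℕ) :
    Hex (l ^ k) ((t ^ k : MulAut F2) : F2 → F2) := by
  induction k with
  | zero => rw [pow_zero, pow_zero]; exact Hex.one
  | succ k ih =>
    rw [pow_succ, pow_succ]
    exact Pool.Agent.H371.GT.Hex.mul (cont_pow ht k) ih h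

theorem Zhat_ext {a b : Zhat} (h : ∀ n : ℕ+,
    (Subtype.val (p := fun a => a ∈ ZhatRing) a n) =
      Subtype.val (p := fun a => a ∈ ZhatRing) b n) : a = b :=
  Subtype.ext (funext h)

/-- if `X ^ l = X` then `l = 1` -/
theorem eq_one_of_ppow {l : Zhat} (h : ppow X l = X) : l = 1 := by
  apply Zhat_ext
  intro n
  have : NeZero (n : ℕ) := ⟨n.pos.ne'⟩
  obtain ⟨ρ, hρX, -, ho⟩ := exists_finite_XY (H := Multiplicative (ZMod n))
    (Multiplicative.ofAdd 1) 1
  have hn : ρ X ^ (n : ℕ) = 1 := by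
    rw [hρX, ← ofAdd_nsmul]
    simp
  have h1 := fin_ppow ρ ho X l n hn
  rw [h, hρX, ← ofAdd_nsmul] at h1
  have h2 := Multiplicative.ofAdd.injective h1
  rw [nsmul_eq_mul, mul_one] at h2
  unfold res at h2
  rw [ZMod.natCast_zmod_val] at h2
  exact h2.symm

/-- projection to `ZMod (p ^ k)` -/
def prj (p : ℕ) [Fact p.Prime] (k : ℕ) : Zhat →+* ZMod (p ^ k) :=
  (Pi.evalRingHom (fun n : ℕ+ => ZMod n)
    (⟨p ^ k, pow_pos (Fact.out : p.Prime).pos k⟩ : ℕ+)).comp ZhatRing.subtype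

theorem prj_compat (p : ℕ) [Fact p.Prime] (k1 k2 : ℕ) (hk : k1 ≤ k2) :
    (ZMod.castHom (pow_dvd_pow p hk) _).comp (prj p k2) = prj p k1 := by
  ext l
  exact l.2 ⟨p ^ k1, pow_pos (Fact.out : p.Prime).pos k1⟩
    ⟨p ^ k2, pow_pos (Fact.out : p.Prime).pos k2⟩ (pow_dvd_pow p hk)

/-- the image in the `p`-adic integers -/
noncomputable def toP (p : ℕ) [Fact p.Prime] : Zhat →+* ℤ_[p] := PadicInt.lift (prj_compat p)

theorem toP_spec (p : ℕ) [Fact p.Prime] (k : ℕ) (l : Zhat) :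
    PadicInt.toZModPow k (toP p l) = prj p k l :=
  RingHom.congr_fun (PadicInt.lift_spec (prj_compat p) k) l

theorem res_prj (p : ℕ) [Fact p.Prime] (k : ℕ) (l : Zhat) :
    ((res l ⟨p ^ k, pow_pos (Fact.out : p.Prime).pos k⟩ : ℕ) : ZMod (p ^ k)) = prj p k l := by
  have : NeZero (p ^ k) := ⟨(pow_pos (Fact.out : p.Prime).pos k).ne'⟩
  exact ZMod.natCast_zmod_val (n := p ^ k) _

theorem trivAt_iff (p : ℕ) [Fact p.Prime] (l : Zhat) : TrivAt p l ↔ toP p l = 1 := by
  rw [← PadicInt.ext_of_toZModPow]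
  unfold TrivAt
  apply forall_congr'
  intro k
  rw [← ZMod.natCast_eq_natCast_iff, res_prj, toP_spec, map_one, Nat.cast_one]

/-- roots of unity of odd prime order in the `p`-adic integers -/
theorem root_odd {p : ℕ} [hp : Fact p.Prime] (hodd : Odd p) {a : ℤ_[p]} (ha : a ^ p = 1) :
    a = 1 := by
  by_contra hne
  have h1 : PadicInt.toZMod a = (1 : ZMod p) := by
    have h2 : (PadicInt.toZMod a : ZMod p) ^ p = 1 := by rw [← map_pow, ha, map_one]
    rwa [ZMod.pow_card] at h2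
  have h3 : (p : ℤ_[p]) ∣ a - 1 := by
    have h4 : a - 1 ∈ RingHom.ker (PadicInt.toZMod : ℤ_[p] →+* ZMod p) := by
      rw [RingHom.mem_ker, map_sub, h1, map_one, sub_self]
    rwa [PadicInt.ker_toZMod, PadicInt.maximalIdeal_eq_span_p, Ideal.mem_span_singleton] at h4
  obtain ⟨b, hb⟩ := h3
  have hab : a = 1 + p * b := by rw [← hb]; ring
  have h5 : (∑ i ∈ Finset.range p, a ^ i) * (a - 1) = 0 := by
    rw [geom_sum_mul, ha, sub_self]
  have h6 : ∑ i ∈ Finset.range p, a ^ i = 0 := by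
    rcases mul_eq_zero.1 h5 with h | h
    · exact h
    · exact absurd (sub_eq_zero.1 h) hne
  have h7 := odd_sq_dvd_geom_sum₂_sub (1 : ℤ_[p]) b hodd
  simp only [one_pow, mul_one] at h7
  rw [← hab, h6, zero_sub, dvd_neg] at h7
  have hp0 : (p : ℤ_[p]) ≠ 0 := by
    exact_mod_cast hp.out.ne_zero
  rw [sq] at h7
  have h8 : (p : ℤ_[p]) ∣ 1 := by
    have h9 : (p : ℤ_[p]) * p ∣ p * 1 := by rwa [mul_one]
    exact (mul_dvd_mul_iff_left hp0).1 h9
  exact PadicInt.prime_p.not_isUnit (isUnit_of_dvd_one h8)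

theorem sq_ne_neg_one (m : ℤ_[2]) : m ^ 2 ≠ -1 := by
  intro h
  have h1 : (PadicInt.toZModPow 2 m : ZMod (2 ^ 2)) ^ 2 = -1 := by
    rw [← map_pow, h, map_neg, map_one]
  have h2 : ∀ x : ZMod (2 ^ 2), x ^ 2 ≠ -1 := by decide
  exact h2 _ h1

end F11x

open F11x in
/-- elements of finite order -/
theorem torsion {l : Zhat} {t : MulAut F2} (ht : Continuous t) (hex : Hex l t) {n : ℕ}
    (hn : 0 < n) (htn : t ^ n = 1) :
    t = 1 ∨ (t ^ 2 = 1 ∧ l * l = 1 ∧
      ∀ k : ℕ, res l ⟨2 ^ k, pow_pos two_pos k⟩ + 1 ≡ 0 [MOD 2 ^ k]) := by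
  set N := orderOf t with hN
  have hNpos : 0 < N := orderOf_pos_iff.2 (isOfFinOrder_iff_pow_eq_one.2 ⟨n, hn, htn⟩)
  have hlN : ∀ k : ℕ, t ^ k = 1 → l ^ k = 1 := by
    intro k hk
    have h1 := (F11x.Hex.pow ht hex k).1
    rw [hk] at h1
    exact eq_one_of_ppow h1.symm
  have hlt : ∀ k : ℕ, 0 < k → k < N → t ^ k ≠ 1 := by
    intro k hk hkN h
    have := orderOf_le_of_pow_eq_one hk h
    omega
  rcases Nat.eq_two_pow_or_exists_odd_prime_and_dvd N with ⟨j, hj⟩ | ⟨p, hp, hpN, hodd⟩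
  · by_cases h4 : 4 ∣ N
    · exfalso
      obtain ⟨m, hm⟩ := h4
      have hm0 : 0 < m := by omega
      have h1 : (l ^ m) ^ 4 = 1 := by
        rw [← pow_mul, mul_comm m 4, ← hm]
        exact hlN N (pow_orderOf_eq_one t)
      have h2 : (toP 2 (l ^ m)) ^ 2 = 1 := by
        have h3 : ((toP 2 (l ^ m)) ^ 2 - 1) * ((toP 2 (l ^ m)) ^ 2 + 1) = 0 := by
          have h5 : (toP 2 (l ^ m)) ^ 4 = 1 := by rw [← map_pow, h1, map_one]
          linear_combination h5
        rcases mul_eq_zero.1 h3 with h | h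
        · exact sub_eq_zero.1 h
        · exact absurd (eq_neg_of_add_eq_zero_left h) (sq_ne_neg_one _)
      have h6 : TrivAt 2 (l ^ (m * 2)) := by
        rw [trivAt_iff, pow_mul, map_pow]
        exact h2
      have h7 : (t ^ (m * 2)) ^ 2 = 1 := by
        rw [← pow_mul, mul_assoc, show 2 * 2 = 4 by norm_num, mul_comm m 4, ← hm]
        exact pow_orderOf_eq_one t
      have h8 := t_eq_one (p := 2) (cont_pow ht (m * 2)) h7 h6 (F11x.Hex.pow ht hex (m * 2))
      exact hlt (m * 2) (by omega) (by omega) h8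
    · have hN2 : N = 1 ∨ N = 2 := by
        rcases j with _ | _ | j
        · left; simpa using hj
        · right; simpa using hj
        · exfalso
          apply h4
          rw [hj, pow_add]
          exact ⟨2 ^ j, by ring⟩
      rcases hN2 with h | h
      · left
        exact orderOf_eq_one_iff.1 (hN ▸ h)
      · have h1 : t ^ 2 = 1 := by
          have h0 : t ^ N = 1 := pow_orderOf_eq_one t
          rwa [h] at h0
        have h2 : l ^ 2 = 1 := hlN 2 h1
        have h3 : (toP 2 l - 1) * (toP 2 l + 1) = 0 := by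
          have h5 : (toP 2 l) ^ 2 = 1 := by rw [← map_pow, h2, map_one]
          linear_combination h5
        rcases mul_eq_zero.1 h3 with h6 | h6
        · left
          exact t_eq_one (p := 2) ht h1 ((trivAt_iff 2 l).2 (sub_eq_zero.1 h6)) hex
        · right
          refine ⟨h1, by rw [← sq]; exact h2, ?_⟩
          intro k
          rw [← ZMod.natCast_eq_natCast_iff, Nat.cast_add, Nat.cast_one, Nat.cast_zero]
          have h7 := res_prj 2 k l
          rw [← toP_spec 2 k l, eq_neg_of_add_eq_zero_left h6, map_neg, map_one] at h7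
          have h8 : ((res l ⟨2 ^ k, pow_pos two_pos k⟩ : ℕ) : ZMod (2 ^ k)) = -1 := h7
          rw [h8]
          ring
  · exfalso
    have : Fact p.Prime := ⟨hp⟩
    obtain ⟨m, hm⟩ := hpN
    have hm0 : 0 < m := by
      rcases Nat.eq_zero_or_pos m with h | h
      · rw [h, mul_zero] at hm; omega
      · exact h
    have hp2 := hp.two_le
    have h1 : (l ^ m) ^ p = 1 := by
      rw [← pow_mul, mul_comm m p, ← hm]
      exact hlN N (pow_orderOf_eq_one t)
    have h2 : toP p (l ^ m) = 1 := by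
      apply root_odd hodd
      rw [← map_pow, h1, map_one]
    have h7 : (t ^ m) ^ p = 1 := by
      rw [← pow_mul, mul_comm m p, ← hm]
      exact pow_orderOf_eq_one t
    have h8 := t_eq_one (p := p) (cont_pow ht m) h7 ((trivAt_iff p _).2 h2)
      (F11x.Hex.pow ht hex m)
    exact hlt m hm0 (by nlinarith) h8

end Pool.Agent.H371.GT
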