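import Pool.Agent.H371.GT.F1
import Pool.Agent.H371.SE.A1

set_option autoImplicit false

namespace Pool.Agent.H371.GT

open SE (AddOn LC CZ RI csum)

/-- `p`-adic functions with given differences -/
theorem exists_QH_Zp (p : ℕ) [Fact p.Prime] {U : Subgroup F2} (hU : IsOpen (U : Set F2))
    (A B : F2 → ℤ_[p]) (hA : RI U A) (hB : RI U B) :
    ∃ δ : F2 → ℤ_[p], δ 1 = 0 ∧ QH U δ ∧ CZ p ⊤ δ ∧ (∀ q, δ (X * q) = δ q + A q) ∧
      ∀ q, δ (Y * q) = δ q + B q := by
  have hex : ∀ k : ℕ, ∃ δ : F2 → ZMod (p ^ k), δ 1 = 0 ∧ QH U δ ∧ LC ⊤ δ ∧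
      (∀ q, δ (X * q) = δ q + PadicInt.toZModPow k (A q)) ∧
      ∀ q, δ (Y * q) = δ q + PadicInt.toZModPow k (B q) := by
    intro k
    have : NeZero (p ^ k) := ⟨pow_ne_zero _ (Fact.out : p.Prime).ne_zero⟩
    exact exists_QH hU _ _ (fun x u hu => by rw [hA x u hu]) (fun x u hu => by rw [hB x u hu])
  choose δ h1 hQ hL hX hY using hex
  have hcomp : ∀ k q, ZMod.castHom (pow_dvd_pow p (Nat.le_succ k)) (ZMod (p ^ k)) (δ (k + 1) q) =
      δ k q := by
    intro k q
    have hcast : ∀ a : ℤ_[p], ZMod.castHom (pow_dvd_pow p (Nat.le_succ k)) (ZMod (p ^ k))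
        (PadicInt.toZModPow (k + 1) a) = PadicInt.toZModPow k a := fun a =>
      PadicInt.cast_toZModPow k (k + 1) (Nat.le_succ k) a
    have h := const_of_inv (δ := fun q => ZMod.castHom (pow_dvd_pow p (Nat.le_succ k))
      (ZMod (p ^ k)) (δ (k + 1) q) - δ k q) ?_ ?_ ?_ q
    · simp only [h1, map_zero, sub_zero] at h
      exact sub_eq_zero.1 h
    · obtain ⟨W1, hW1, e1⟩ := hL (k + 1)
      obtain ⟨W2, hW2, e2⟩ := hL k
      refine ⟨W1 ⊓ W2, ?_, fun x hx w hw hwW => ?_⟩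
      · rw [Subgroup.coe_inf]
        exact hW1.inter hW2
      · simp only
        rw [e1 x hx w hw (Subgroup.mem_inf.1 hwW).1, e2 x hx w hw (Subgroup.mem_inf.1 hwW).2]
    · intro q
      rw [hX, hX, map_add, hcast]
      ring
    · intro q
      rw [hY, hY, map_add, hcast]
      ring
  have hlim : ∀ q, ∃ v : ℤ_[p], ∀ k, PadicInt.toZModPow k v = δ k q := by
    intro q
    obtain ⟨v, hv⟩ := SE.A1x.limit (p := p) 0 (fun k => (((δ k q).val : ℕ) : ℤ_[p])) (by
      intro i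
      rw [zero_add, SE.A1x.dvd_iff, map_sub, map_natCast, map_natCast]
      have : NeZero (p ^ i) := ⟨pow_ne_zero _ (Fact.out : p.Prime).ne_zero⟩
      have : NeZero (p ^ (i + 1)) := ⟨pow_ne_zero _ (Fact.out : p.Prime).ne_zero⟩
      have h := hcomp i q
      rw [ZMod.castHom_apply, ZMod.cast_eq_val] at h
      rw [h, ZMod.natCast_zmod_val, sub_self])
    refine ⟨v, fun k => ?_⟩
    have h := hv k
    rw [zero_add, SE.A1x.dvd_iff, map_sub, map_natCast, sub_eq_zero] at h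
    have : NeZero (p ^ k) := ⟨pow_ne_zero _ (Fact.out : p.Prime).ne_zero⟩
    rw [h, ZMod.natCast_zmod_val]
  choose D hD using hlim
  refine ⟨D, ?_, ?_, ?_, ?_, ?_⟩
  · rw [← PadicInt.ext_of_toZModPow]
    intro k
    rw [hD, h1, map_zero]
  · intro q u hu
    rw [← PadicInt.ext_of_toZModPow]
    intro k
    rw [map_add, hD, hD, hD]
    exact hQ k q u hu
  · intro k
    obtain ⟨W, hW, e⟩ := hL k
    refine ⟨W, hW, fun x hx w hw hwW => ?_⟩
    rw [SE.A1x.dvd_iff, map_sub, hD, hD, e x hx w hw hwW, sub_self]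
  · intro q
    rw [← PadicInt.ext_of_toZModPow]
    intro k
    rw [map_add, hD, hD]
    exact hX k q
  · intro q
    rw [← PadicInt.ext_of_toZModPow]
    intro k
    rw [map_add, hD, hD]
    exact hY k q

end Pool.Agent.H371.GT
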