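import Pool.Agent.H371.GT.F1
import Pool.Agent.H371.SE.A11

set_option autoImplicit false

namespace Pool.Agent.H371.GT

open SE (AddOn LC CZ RI csum)

namespace F4x

theorem XYZ : X * Y * Z = 1 := mul_inv_cancel (X * Y)

theorem XYZ_mul (q : F2) : X * (Y * (Z * q)) = q := by
  rw [← mul_assoc, ← mul_assoc, XYZ, one_mul]

theorem YZ_mul (q : F2) : Y * (Z * q) = X⁻¹ * q := by
  rw [eq_inv_mul_iff_mul_eq]
  exact XYZ_mul q

theorem Z_inv : (Z : F2)⁻¹ = X * Y := inv_inv (X * Y)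

section

variable {M : Type} [AddCommGroup M] {U : Subgroup F2}

/-- the functions which are sums of differences -/
def P (M : Type) [AddCommGroup M] (U : Subgroup F2) : AddSubgroup (F2 → M) where
  carrier := {Φ | ∃ m₁ m₃ : F2 → M, RI U m₁ ∧ RI U m₃ ∧
      ∀ q, Φ q = m₁ q - m₁ (X⁻¹ * q) + (m₃ (Z * q) - m₃ q)}
  zero_mem' := ⟨0, 0, fun _ _ _ => rfl, fun _ _ _ => rfl, fun q => by simp⟩
  add_mem' := by
    rintro a b ⟨m₁, m₃, h₁, h₃, h⟩ ⟨n₁, n₃, k₁, k₃, k⟩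
    refine ⟨fun q => m₁ q + n₁ q, fun q => m₃ q + n₃ q, ?_, ?_, ?_⟩
    · intro x u hu
      change m₁ (x * u) + n₁ (x * u) = m₁ x + n₁ x
      rw [h₁ x u hu, k₁ x u hu]
    · intro x u hu
      change m₃ (x * u) + n₃ (x * u) = m₃ x + n₃ x
      rw [h₃ x u hu, k₃ x u hu]
    · intro q
      change a q + b q = (m₁ q + n₁ q) - (m₁ (X⁻¹ * q) + n₁ (X⁻¹ * q)) +
        ((m₃ (Z * q) + n₃ (Z * q)) - (m₃ q + n₃ q))
      rw [h q, k q]
      abel
  neg_mem' := by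
    rintro a ⟨m₁, m₃, h₁, h₃, h⟩
    refine ⟨fun q => - m₁ q, fun q => - m₃ q, ?_, ?_, ?_⟩
    · intro x u hu
      change - m₁ (x * u) = - m₁ x
      rw [h₁ x u hu]
    · intro x u hu
      change - m₃ (x * u) = - m₃ x
      rw [h₃ x u hu]
    · intro q
      change - a q = - m₁ q - (- m₁ (X⁻¹ * q)) + (- m₃ (Z * q) - (- m₃ q))
      rw [h q]
      abel

open Classical in
/-- indicator functions -/
noncomputable def E (U : Subgroup F2) (ω : F2 ⧸ U) (v : M) : F2 → M :=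
  fun q => if (QuotientGroup.mk q : F2 ⧸ U) = ω then v else 0

theorem E_RI (ω : F2 ⧸ U) (v : M) : RI U (E U ω v) := by
  intro x u hu
  unfold E
  rw [QuotientGroup.mk_mul_of_mem x hu]

theorem E_smul (g : F2) (ω : F2 ⧸ U) (v : M) (q : F2) :
    E U ω v (g * q) = E U (g⁻¹ • ω) v q := by
  unfold E
  have h : ((QuotientGroup.mk (g * q) : F2 ⧸ U) = ω) ↔
      ((QuotientGroup.mk q : F2 ⧸ U) = g⁻¹ • ω) := by
    rw [eq_inv_smul_iff]
    rfl
  by_cases hq : (QuotientGroup.mk (g * q) : F2 ⧸ U) = ω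
  · rw [if_pos hq, if_pos (h.1 hq)]
  · rw [if_neg hq, if_neg fun h' => hq (h.2 h')]

theorem E_zero (ω : F2 ⧸ U) (q : F2) : E U ω (0 : M) q = 0 := by
  unfold E
  split_ifs <;> rfl

/-- the permutations which move indicators by elements of `P` -/
def S (M : Type) [AddCommGroup M] (U : Subgroup F2) : Subgroup (Equiv.Perm (F2 ⧸ U)) where
  carrier := {σ | ∀ (ω : F2 ⧸ U) (v : M), E U ω v - E U (σ ω) v ∈ P M U}
  one_mem' ω v := by
    change E U ω v - E U ω v ∈ P M U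
    rw [sub_self]
    exact (P M U).zero_mem
  mul_mem' {σ τ} h h' ω v := by
    change E U ω v - E U (σ (τ ω)) v ∈ P M U
    have h3 := (P M U).add_mem (h' ω v) (h (τ ω) v)
    rw [sub_add_sub_cancel] at h3
    exact h3
  inv_mem' {σ} h ω v := by
    change E U ω v - E U (σ⁻¹ ω) v ∈ P M U
    have h3 := (P M U).neg_mem (h (σ⁻¹ ω) v)
    have e : σ (σ⁻¹ ω) = ω := Equiv.apply_symm_apply σ ω
    rw [neg_sub, e] at h3
    exact h3

/-- the action on the cosets -/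
def ρ (U : Subgroup F2) : F2 →* Equiv.Perm (F2 ⧸ U) := MulAction.toPermHom F2 (F2 ⧸ U)

theorem ρ_apply (g : F2) (ω : F2 ⧸ U) : ρ U g ω = g • ω := rfl

theorem ρ_open (hU : IsOpen (U : Set F2)) : IsOpen ((ρ U).ker : Set F2) := by
  have : Finite (F2 ⧸ U) := Subgroup.quotient_finite_of_isOpen U hU
  have : U.FiniteIndex := Subgroup.finiteIndex_of_finite_quotient
  have hc : IsClosed (U : Set F2) := U.isClosed_of_isOpen hU
  have h1 : (ρ U).ker = U.normalCore := (Subgroup.normalCore_eq_ker U).symm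
  rw [h1]
  exact U.normalCore.isOpen_of_isClosed_of_finiteIndex (U.normalCore_isClosed hc)

theorem X_mem : ρ U X ∈ S M U := by
  intro ω v
  refine ⟨E U ω v, 0, E_RI ω v, fun _ _ _ => rfl, fun q => ?_⟩
  rw [Pi.sub_apply, E_smul, inv_inv, ρ_apply]
  simp

theorem Z_mem : ρ U Z ∈ S M U := by
  have h : (ρ U Z)⁻¹ ∈ S M U := by
    intro ω v
    refine ⟨0, - E U ω v, fun _ _ _ => rfl, ?_, fun q => ?_⟩
    · intro x u hu
      rw [Pi.neg_apply, Pi.neg_apply, E_RI ω v x u hu]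
    · rw [← map_inv, Pi.sub_apply, Pi.neg_apply, Pi.neg_apply, E_smul, ρ_apply]
      simp [sub_eq_add_neg, add_comm]
  exact (Subgroup.inv_mem_iff _).1 h

theorem Y_mem : ρ U Y ∈ S M U := by
  have h : (Y : F2) = X⁻¹ * Z⁻¹ := by
    rw [Z_inv, inv_mul_cancel_left]
  rw [h, map_mul, map_inv, map_inv]
  exact (S M U).mul_mem ((S M U).inv_mem X_mem) ((S M U).inv_mem Z_mem)

theorem E_mem (hU : IsOpen (U : Set F2)) (ω ω' : F2 ⧸ U) (v : M) :
    E U ω v - E U ω' v ∈ P M U := by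
  obtain ⟨g, hg⟩ := MulAction.exists_smul_eq F2 ω ω'
  have h := mem_of_gen (ρ U) (ρ_open hU) (S M U) X_mem Y_mem g ω v
  rw [ρ_apply, hg] at h
  exact h

end

end F4x

open F4x

/-- the functions with sum `0` are spanned by differences -/
theorem aug {M : Type} [AddCommGroup M] {U : Subgroup F2} (hU : IsOpen (U : Set F2))
    (Φ : F2 → M) (hΦ : RI U Φ) (h : csum U Φ = 0) :
    ∃ m₁ m₃ : F2 → M, RI U m₁ ∧ RI U m₃ ∧
      ∀ q, Φ q = m₁ q - m₁ (X⁻¹ * q) + (m₃ (Z * q) - m₃ q) := by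
  classical
  have hf : Finite (F2 ⧸ U) := Subgroup.quotient_finite_of_isOpen U hU
  have := Fintype.ofFinite (F2 ⧸ U)
  have h0 : ∑ ω : F2 ⧸ U, Φ ω.out = 0 := by
    rw [← h]
    unfold csum
    rw [finsum_eq_sum_of_fintype]
  let ω₀ : F2 ⧸ U := QuotientGroup.mk 1
  have h1 : Φ = ∑ ω : F2 ⧸ U, (E U ω (Φ ω.out) - E U ω₀ (Φ ω.out)) := by
    funext q
    rw [Finset.sum_apply]
    have h2 : ∀ ω : F2 ⧸ U, (E U ω (Φ ω.out) - E U ω₀ (Φ ω.out)) q =
        (if (QuotientGroup.mk q : F2 ⧸ U) = ω then Φ ω.out else 0) -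
          (if (QuotientGroup.mk q : F2 ⧸ U) = ω₀ then Φ ω.out else 0) := fun ω => by
      rw [Pi.sub_apply]
      unfold E
      rfl
    rw [Finset.sum_congr rfl fun ω _ => h2 ω, Finset.sum_sub_distrib]
    have h3 : ∑ ω : F2 ⧸ U, (if (QuotientGroup.mk q : F2 ⧸ U) = ω₀ then Φ ω.out else 0) = 0 := by
      by_cases hq : (QuotientGroup.mk q : F2 ⧸ U) = ω₀
      · rw [Finset.sum_congr rfl fun ω _ => if_pos hq, h0]
      · rw [Finset.sum_congr rfl fun ω _ => if_neg hq, Finset.sum_const_zero]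
    rw [h3, sub_zero, Finset.sum_ite_eq, if_pos (Finset.mem_univ _)]
    exact (SE.A11x.RI_out hΦ q).symm
  have h2 : Φ ∈ P M U := by
    rw [h1]
    exact (P M U).sum_mem fun ω _ => E_mem hU ω ω₀ _
  exact h2

theorem exists_QH_sum {M : Type} [AddCommGroup M] [Finite M] {U : Subgroup F2}
    (hU : IsOpen (U : Set F2)) (EX EY EZ : F2 → M) (hX : RI U EX) (hY : RI U EY) (hZ : RI U EZ)
    (hsum : csum U EX + csum U EY + csum U EZ = 0) :
    ∃ δ m₁ m₃ : F2 → M, δ 1 = 0 ∧ QH U δ ∧ LC ⊤ δ ∧ RI U m₁ ∧ RI U m₃ ∧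
      (∀ q, δ (X * q) = δ q + EX q - (m₁ (X * q) - m₁ q)) ∧
      (∀ q, δ (Y * q) = δ q + EY q) ∧
      ∀ q, δ (Z * q) = δ q + EZ q - (m₃ (Z * q) - m₃ q) := by
  have hf : Finite (F2 ⧸ U) := Subgroup.quotient_finite_of_isOpen U hU
  have hΦ : RI U fun q => (EX (Y * (Z * q)) + EY (Z * q)) + EZ q := by
    intro x u hu
    change (EX (Y * (Z * (x * u))) + EY (Z * (x * u))) + EZ (x * u) =
      (EX (Y * (Z * x)) + EY (Z * x)) + EZ x
    rw [← mul_assoc Z x u, ← mul_assoc Y (Z * x) u, hX _ u hu, hY _ u hu, hZ _ u hu]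
  have hs : csum U (fun q => (EX (Y * (Z * q)) + EY (Z * q)) + EZ q) = 0 := by
    rw [SE.csum_add, SE.csum_add, ← hsum]
    have e1 : csum U (fun q => EX (Y * (Z * q))) = csum U EX := by
      have e2 : (fun q => EX (Y * (Z * q))) = fun q => EX ((Y * Z) * q) := by
        funext q
        rw [mul_assoc]
      rw [e2]
      exact SE.csum_mul_left hX (Y * Z)
    rw [e1, SE.csum_mul_left hY Z]
  obtain ⟨m₁, m₃, h₁, h₃, h⟩ := aug hU _ hΦ hs
  have hA : RI U fun q => EX q - (m₁ (X * q) - m₁ q) := by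
    intro x u hu
    change EX (x * u) - (m₁ (X * (x * u)) - m₁ (x * u)) = EX x - (m₁ (X * x) - m₁ x)
    rw [← mul_assoc, hX _ u hu, h₁ _ u hu, h₁ _ u hu]
  obtain ⟨δ, d1, dQ, dL, dX, dY⟩ := exists_QH hU _ EY hA hY
  refine ⟨δ, m₁, m₃, d1, dQ, dL, h₁, h₃, ?_, dY, ?_⟩
  · intro q
    rw [dX q]
    abel
  · intro q
    have e1 := dX (Y * (Z * q))
    have e2 := dY (Z * q)
    have e3 := h q
    rw [XYZ_mul] at e1
    rw [e2] at e1
    rw [YZ_mul] at e1 e3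
    have e4 : EX (X⁻¹ * q) = m₁ q - m₁ (X⁻¹ * q) + (m₃ (Z * q) - m₃ q) - EZ q - EY (Z * q) := by
      rw [← e3]
      abel
    rw [e4] at e1
    rw [e1]
    abel

/-- the sum of the values at all cusps is `0` -/
theorem csum_zero {M : Type} [AddCommGroup M] {U : Subgroup F2} (hU : IsOpen (U : Set F2))
    {δ : F2 → M} (hδ : QH U δ) : csum U (fun q => δ (X * q) - δ q) +
      csum U (fun q => δ (Y * q) - δ q) + csum U (fun q => δ (Z * q) - δ q) = 0 := by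
  have hf : Finite (F2 ⧸ U) := Subgroup.quotient_finite_of_isOpen U hU
  have hR : ∀ g : F2, RI U fun q => δ (g * q) - δ q := by
    intro g x u hu
    change δ (g * (x * u)) - δ (x * u) = δ (g * x) - δ x
    rw [← mul_assoc, hδ _ u hu, hδ _ u hu]
    abel
  have e1 : csum U (fun q => δ (X * q) - δ q) =
      csum U (fun q => δ (X * ((Y * Z) * q)) - δ ((Y * Z) * q)) :=
    (SE.csum_mul_left (hR X) (Y * Z)).symm
  have e2 : csum U (fun q => δ (Y * q) - δ q) =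
      csum U (fun q => δ (Y * (Z * q)) - δ (Z * q)) :=
    (SE.csum_mul_left (hR Y) Z).symm
  rw [e1, e2, ← SE.csum_add, ← SE.csum_add]
  have e3 : (fun q => δ (X * ((Y * Z) * q)) - δ ((Y * Z) * q) + (δ (Y * (Z * q)) - δ (Z * q)) +
      (δ (Z * q) - δ q)) = fun _ => (0 : M) := by
    funext q
    rw [mul_assoc Y Z q, XYZ_mul]
    abel
  rw [e3]
  unfold csum
  exact finsum_zero

end Pool.Agent.H371.GT
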