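import Pool.Agent.H371.GT.F4

set_option autoImplicit false

namespace Pool.Agent.H371.GT

open SE (AddOn LC CZ RI csum)

namespace F6x

section
variable {M : Type} [AddCommGroup M] {U : Subgroup F2}

theorem sum_eq_aux (g : F2) (A : F2 → M)
    (h : ∀ (q : F2) (n : ℕ), q⁻¹ * g ^ n * q ∈ U → ∑ i ∈ Finset.range n, A (g ^ i * q) = 0)
    (r : F2) (n k : ℕ) (hk : (g ^ n * r)⁻¹ * (g ^ (n + k) * r) ∈ U) :
    ∑ i ∈ Finset.range (n + k), A (g ^ i * r) = ∑ i ∈ Finset.range n, A (g ^ i * r) := by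
  rw [Finset.sum_range_add]
  have h1 : ∑ x ∈ Finset.range k, A (g ^ (n + x) * r) = 0 := by
    rw [← h (g ^ n * r) k ?_]
    · refine Finset.sum_congr rfl fun i _ => ?_
      rw [← mul_assoc, ← pow_add, add_comm i n]
    · have : (g ^ n * r)⁻¹ * g ^ k * (g ^ n * r) = (g ^ n * r)⁻¹ * (g ^ (n + k) * r) := by
        rw [mul_assoc, ← mul_assoc (g ^ k), ← pow_add, add_comm k n]
      rw [this]
      exact hk
  rw [h1, add_zero]

theorem sum_eq (g : F2) (A : F2 → M)
    (h : ∀ (q : F2) (n : ℕ), q⁻¹ * g ^ n * q ∈ U → ∑ i ∈ Finset.range n, A (g ^ i * q) = 0)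
    (r : F2) (n n' : ℕ) (hk : (g ^ n * r)⁻¹ * (g ^ n' * r) ∈ U) :
    ∑ i ∈ Finset.range n, A (g ^ i * r) = ∑ i ∈ Finset.range n', A (g ^ i * r) := by
  rcases le_total n n' with hle | hle
  · obtain ⟨k, rfl⟩ := Nat.exists_eq_add_of_le hle
    exact (sum_eq_aux g A h r n k hk).symm
  · obtain ⟨k, rfl⟩ := Nat.exists_eq_add_of_le hle
    refine sum_eq_aux g A h r n' k ?_
    have h1 := U.inv_mem hk
    have h2 : ((g ^ (n' + k) * r)⁻¹ * (g ^ n' * r))⁻¹ =
        (g ^ n' * r)⁻¹ * (g ^ (n' + k) * r) := by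
      rw [mul_inv_rev, inv_inv]
    rw [h2] at h1
    exact h1

/-- a common period of the left multiplication by `g` -/
theorem exists_period (hU : IsOpen (U : Set F2)) (g : F2) :
    ∃ N : ℕ, 0 < N ∧ ∀ q : F2, q⁻¹ * g ^ N * q ∈ U := by
  have hfin : Finite (F2 ⧸ U) := SE.finite_of_isOpen hU
  let σ : Equiv.Perm (F2 ⧸ U) := MulAction.toPerm g
  have hpow : ∀ n : ℕ, σ ^ n = MulAction.toPerm (g ^ n) := by
    intro n
    induction n with
    | zero =>
      rw [pow_zero, pow_zero]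
      ext x
      simp
    | succ n ih =>
      rw [pow_succ, ih, pow_succ]
      ext x
      simp [σ, mul_smul]
  refine ⟨orderOf σ, orderOf_pos σ, fun q => ?_⟩
  have h1 : σ ^ orderOf σ = 1 := pow_orderOf_eq_one σ
  rw [hpow] at h1
  have h2 : g ^ orderOf σ • (QuotientGroup.mk q : F2 ⧸ U) = QuotientGroup.mk q := by
    have := DFunLike.congr_fun h1 (QuotientGroup.mk q : F2 ⧸ U)
    exact this
  have h3 : (QuotientGroup.mk q : F2 ⧸ U) = QuotientGroup.mk (g ^ orderOf σ * q) := h2.symm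
  have h4 := QuotientGroup.eq.1 h3
  rw [← mul_assoc] at h4
  exact h4

/-- the orbit relation -/
def orbS (g : F2) (U : Subgroup F2) : Setoid F2 where
  r q q' := ∃ n : ℤ, q⁻¹ * g ^ n * q' ∈ U
  iseqv := by
    refine ⟨fun q => ⟨0, ?_⟩, ?_, ?_⟩
    · rw [zpow_zero, mul_one, inv_mul_cancel]
      exact U.one_mem
    · rintro q q' ⟨n, hn⟩
      refine ⟨-n, ?_⟩
      have h1 := U.inv_mem hn
      have h2 : (q⁻¹ * g ^ n * q')⁻¹ = q'⁻¹ * g ^ (-n) * q := by
        rw [zpow_neg]
        group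
      rw [h2] at h1
      exact h1
    · rintro q q' q'' ⟨n, hn⟩ ⟨m, hm⟩
      refine ⟨n + m, ?_⟩
      have h1 := U.mul_mem hn hm
      have h2 : q⁻¹ * g ^ n * q' * (q'⁻¹ * g ^ m * q'') = q⁻¹ * g ^ (n + m) * q'' := by
        rw [zpow_add]
        group
      rw [h2] at h1
      exact h1

/-- representative of the orbit -/
noncomputable def rep (g : F2) (U : Subgroup F2) (q : F2) : F2 :=
  (Quotient.mk (orbS g U) q).out

theorem rep_eq {g : F2} {q q' : F2} (n : ℤ) (h : q⁻¹ * g ^ n * q' ∈ U) :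
    rep g U q = rep g U q' := by
  unfold rep
  have : Quotient.mk (orbS g U) q = Quotient.mk (orbS g U) q' := Quotient.sound ⟨n, h⟩
  rw [this]

theorem rep_rel (hU : IsOpen (U : Set F2)) (g q : F2) :
    ∃ n : ℕ, q⁻¹ * (g ^ n * rep g U q) ∈ U := by
  have h1 : (orbS g U).r (rep g U q) q := Quotient.mk_out (s := orbS g U) q
  obtain ⟨n, hn⟩ := (orbS g U).iseqv.symm h1
  obtain ⟨N, hN, hN1⟩ := exists_period hU g
  set r := rep g U q with hr
  obtain ⟨k, m, hkm⟩ : ∃ (k m : ℕ), (m : ℤ) = n + N * k := by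
    refine ⟨n.natAbs, (n + N * n.natAbs).toNat, ?_⟩
    rw [Int.toNat_of_nonneg]
    have h2 : (1 : ℤ) ≤ N := by exact_mod_cast hN
    have h3 : -(n.natAbs : ℤ) ≤ n := by omega
    nlinarith [Int.natCast_nonneg n.natAbs]
  have hNk : ∀ k : ℕ, r⁻¹ * g ^ (N * k) * r ∈ U := by
    intro k
    induction k with
    | zero =>
      rw [mul_zero, pow_zero, mul_one, inv_mul_cancel]
      exact U.one_mem
    | succ k ih =>
      have h2 := U.mul_mem ih (hN1 r)
      have h3 : r⁻¹ * g ^ (N * k) * r * (r⁻¹ * g ^ N * r) = r⁻¹ * g ^ (N * (k + 1)) * r := by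
        rw [mul_add, mul_one, pow_add]
        group
      rw [h3] at h2
      exact h2
  refine ⟨m, ?_⟩
  have h2 := U.mul_mem hn (hNk k)
  have h3 : q⁻¹ * g ^ n * r * (r⁻¹ * g ^ (N * k) * r) = q⁻¹ * (g ^ m * r) := by
    have h4 : g ^ m = g ^ n * g ^ (N * k) := by
      rw [← zpow_natCast, hkm, zpow_add, ← zpow_natCast g (N * k)]
      push_cast
      rfl
    rw [h4]
    group
  rw [h3] at h2
  exact h2

theorem periodic_sum {f : ℕ → M} {e : ℕ} (hf : ∀ i, f (i + e) = f i)
    (h0 : ∑ i ∈ Finset.range e, f i = 0) (m k : ℕ) :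
    ∑ i ∈ Finset.range (e * k), f (i + m) = 0 := by
  have h1 : ∀ m, ∑ i ∈ Finset.range e, f (i + m) = 0 := by
    intro m
    induction m with
    | zero => simpa using h0
    | succ m ih =>
      have h2 := Finset.sum_range_succ (fun i => f (i + m)) e
      have h3 := Finset.sum_range_succ' (fun i => f (i + m)) e
      rw [h2] at h3
      simp only [zero_add] at h3
      rw [ih, zero_add, add_comm e m, hf m] at h3
      have h4 : ∑ i ∈ Finset.range e, f (i + 1 + m) = 0 := by
        have := h3.symm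
        rwa [add_eq_right] at this
      rw [← h4]
      refine Finset.sum_congr rfl fun i _ => ?_
      congr 1
      omega
  induction k with
  | zero => simp
  | succ k ih =>
    rw [mul_add, mul_one, Finset.sum_range_add, ih, zero_add]
    rw [← h1 (e * k + m)]
    refine Finset.sum_congr rfl fun i _ => ?_
    congr 1
    omega

theorem QH_one {δ : F2 → M} (hδ : QH U δ) : δ 1 = 0 := by
  have := hδ 1 1 U.one_mem
  rw [mul_one] at this
  exact left_eq_add.mp this

theorem QH_RI {δ : F2 → M} (hδ : QH U δ) (s : F2) : RI U (fun q => δ (s * q) - δ q) := by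
  intro q u hu
  simp only
  rw [← mul_assoc, hδ _ u hu, hδ _ u hu]
  abel

theorem telescope {δ : F2 → M} (s q : F2) (n : ℕ) :
    ∑ i ∈ Finset.range n, (δ (s * (s ^ i * q)) - δ (s ^ i * q)) = δ (s ^ n * q) - δ q := by
  have h1 : ∀ i ∈ Finset.range n, δ (s * (s ^ i * q)) - δ (s ^ i * q) =
      δ (s ^ (i + 1) * q) - δ (s ^ i * q) := by
    intro i _
    rw [← mul_assoc, ← pow_succ']
  rw [Finset.sum_congr rfl h1, Finset.sum_range_sub (fun i => δ (s ^ i * q)), pow_zero, one_mul]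

theorem orbit_sum {δ : F2 → M} (hδ : QH U δ) (s q : F2) (n : ℕ) (hq : q⁻¹ * s ^ n * q ∈ U) :
    ∑ i ∈ Finset.range n, (δ (s * (s ^ i * q)) - δ (s ^ i * q)) = δ (q⁻¹ * s ^ n * q) := by
  rw [telescope]
  have h1 : s ^ n * q = q * (q⁻¹ * s ^ n * q) := by group
  conv_lhs => rw [h1]
  rw [hδ q _ hq]
  abel

end

end F6x

open F6x

/-- a function with vanishing orbit sums is a difference -/
theorem exists_prim {M : Type} [AddCommGroup M] {U : Subgroup F2} (hU : IsOpen (U : Set F2))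
    (g : F2) (A : F2 → M) (hA : RI U A)
    (h : ∀ (q : F2) (n : ℕ), q⁻¹ * g ^ n * q ∈ U → ∑ i ∈ Finset.range n, A (g ^ i * q) = 0) :
    ∃ m : F2 → M, RI U m ∧ ∀ q, A q = m (g * q) - m q := by
  choose n hn using rep_rel hU g
  have key : ∀ (q r : F2) (k : ℕ), r = rep g U q → q⁻¹ * (g ^ k * r) ∈ U →
      ∑ i ∈ Finset.range (n q), A (g ^ i * rep g U q) = ∑ i ∈ Finset.range k, A (g ^ i * r) := by
    intro q r k hr hk
    rw [hr] at hk ⊢
    apply sum_eq g A h
    have h1 := U.mul_mem (U.inv_mem (hn q)) hk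
    have h2 : (q⁻¹ * (g ^ n q * rep g U q))⁻¹ * (q⁻¹ * (g ^ k * rep g U q)) =
        (g ^ n q * rep g U q)⁻¹ * (g ^ k * rep g U q) := by group
    rw [h2] at h1
    exact h1
  refine ⟨fun q => ∑ i ∈ Finset.range (n q), A (g ^ i * rep g U q), ?_, ?_⟩
  · intro q u hu
    simp only
    have hr : rep g U q = rep g U (q * u) := by
      apply rep_eq 0
      rw [zpow_zero, mul_one, inv_mul_cancel_left]
      exact hu
    rw [← hr]
    have h1 := key (q * u) (rep g U q) (n q) hr (by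
      have h2 := U.mul_mem (U.inv_mem hu) (hn q)
      rw [← mul_assoc, ← mul_inv_rev] at h2
      exact h2)
    rw [← hr] at h1
    exact h1
  · intro q
    simp only
    have hr : rep g U q = rep g U (g * q) := by
      apply rep_eq (-1)
      rw [mul_assoc, zpow_neg, zpow_one, inv_mul_cancel_left, inv_mul_cancel]
      exact U.one_mem
    have h1 := key (g * q) (rep g U q) (n q + 1) hr (by
      have h2 : (g * q)⁻¹ * (g ^ (n q + 1) * rep g U q) = q⁻¹ * (g ^ n q * rep g U q) := by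
        rw [pow_succ']
        group
      rw [h2]
      exact hn q)
    rw [h1, Finset.sum_range_succ]
    have h3 : A (g ^ n q * rep g U q) = A q := by
      have h4 := hA q _ (hn q)
      rw [mul_inv_cancel_left] at h4
      exact h4
    rw [h3]
    abel

theorem csum_orbits {M : Type} [AddCommGroup M] {U : Subgroup F2} (hU : IsOpen (U : Set F2))
    (g : F2) (A : F2 → M) (hA : RI U A)
    (h : ∀ (q : F2) (n : ℕ), q⁻¹ * g ^ n * q ∈ U → ∑ i ∈ Finset.range n, A (g ^ i * q) = 0) :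
    csum U A = 0 := by
  have hfin : Finite (F2 ⧸ U) := SE.finite_of_isOpen hU
  obtain ⟨m, hm, hm1⟩ := exists_prim hU g A hA h
  rw [SE.csum_congr hm1, SE.csum_sub, SE.csum_mul_left hm, sub_self]

/-- if all orbit sums except the one of the base point vanish -/
theorem csum_base {M : Type} [AddCommGroup M] {U : Subgroup F2} (hU : IsOpen (U : Set F2))
    (hn : U.Normal) {e : ℕ} (he : 0 < e) (hXe : ∀ n : ℕ, X ^ n ∈ U ↔ e ∣ n)
    (A : F2 → M) (hA : RI U A)
    (h : ∀ (q : F2) (n : ℕ), (∀ m : ℕ, ∀ u ∈ U, q ≠ X ^ m * u) → q⁻¹ * X ^ n * q ∈ U →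
      ∑ i ∈ Finset.range n, A (X ^ i * q) = 0) :
    csum U A = ∑ i ∈ Finset.range e, A (X ^ i) := by
  classical
  have hfin : Finite (F2 ⧸ U) := SE.finite_of_isOpen hU
  set c := ∑ i ∈ Finset.range e, A (X ^ i) with hc
  have hI : RI U (fun q => if q ∈ U then c else 0) := by
    intro q u hu
    simp only
    rw [U.mul_mem_cancel_right hu]
  have hXeU : X ^ e ∈ U := (hXe e).2 dvd_rfl
  have h1 : csum U (fun q => A q - (if q ∈ U then c else 0)) = 0 := by
    apply csum_orbits hU X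
    · intro q u hu
      have a1 := hA q u hu
      have a2 := hI q u hu
      simp only at a2 ⊢
      rw [a1, a2]
    · intro q n hq
      by_cases hex : ∃ m : ℕ, ∃ u ∈ U, q = X ^ m * u
      · obtain ⟨m, u, hu, rfl⟩ := hex
        have h2 : X ^ n ∈ U := by
          have h3 : (X ^ m * u)⁻¹ * X ^ n * (X ^ m * u) = u⁻¹ * X ^ n * u := by
            have h4 : X ^ n * X ^ m = X ^ m * X ^ n := by rw [← pow_add, ← pow_add, add_comm]
            calc (X ^ m * u)⁻¹ * X ^ n * (X ^ m * u)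
                = u⁻¹ * (X ^ m)⁻¹ * (X ^ n * X ^ m) * u := by group
              _ = u⁻¹ * X ^ n * u := by
                  rw [h4]
                  group
          rw [h3] at hq
          have h5 := U.mul_mem (U.mul_mem hu hq) (U.inv_mem hu)
          have h6 : u * (u⁻¹ * X ^ n * u) * u⁻¹ = X ^ n := by group
          rw [h6] at h5
          exact h5
        obtain ⟨k, rfl⟩ := (hXe n).1 h2
        have h3 : ∀ i ∈ Finset.range (e * k),
            A (X ^ i * (X ^ m * u)) - (if X ^ i * (X ^ m * u) ∈ U then c else 0) =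
            (fun j => A (X ^ j) - (if X ^ j ∈ U then c else 0)) (i + m) := by
          intro i _
          have a1 := hA (X ^ i * X ^ m) u hu
          have a2 := hI (X ^ i * X ^ m) u hu
          simp only at a2 ⊢
          rw [← mul_assoc, a1, a2, ← pow_add]
        rw [Finset.sum_congr rfl h3]
        refine periodic_sum (f := fun j => A (X ^ j) - (if X ^ j ∈ U then c else 0)) ?_ ?_ m k
        · intro i
          have a1 := hA (X ^ i) (X ^ e) hXeU
          have a2 := hI (X ^ i) (X ^ e) hXeU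
          simp only at a2 ⊢
          rw [pow_add, a1, a2]
        · rw [Finset.sum_sub_distrib, ← hc]
          have h4 : ∑ i ∈ Finset.range e, (if X ^ i ∈ U then c else 0) = c := by
            rw [Finset.sum_eq_single 0]
            · rw [pow_zero, if_pos U.one_mem]
            · intro i hi hi0
              rw [if_neg]
              intro h5
              have h6 := Nat.le_of_dvd (Nat.pos_of_ne_zero hi0) ((hXe i).1 h5)
              have h7 := Finset.mem_range.1 hi
              omega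
            · intro h5
              exact absurd (Finset.mem_range.2 he) h5
          rw [h4, sub_self]
      · have hne : ∀ m : ℕ, ∀ u ∈ U, q ≠ X ^ m * u := by
          intro m u hu hqu
          exact hex ⟨m, u, hu, hqu⟩
        rw [Finset.sum_sub_distrib, h q n hne hq, zero_sub, neg_eq_zero]
        apply Finset.sum_eq_zero
        intro i _
        rw [if_neg]
        intro h2
        have h3 : (X ^ (e * i))⁻¹ * (X ^ i * q) ∈ U :=
          U.mul_mem (U.inv_mem ((hXe _).2 (dvd_mul_right e i))) h2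
        refine hne (e * i - i) _ h3 ?_
        have h4 : i ≤ e * i := Nat.le_mul_of_pos_left i he
        have h5 : X ^ (e * i) = X ^ (e * i - i) * X ^ i := by
          rw [← pow_add, Nat.sub_add_cancel h4]
        have h6 : X ^ (e * i - i) * X ^ i = X ^ i * X ^ (e * i - i) := by
          rw [← pow_add, ← pow_add, add_comm]
        rw [h5, h6]
        group
  rw [SE.csum_sub, SE.csum_single hI (fun x hx => if_neg hx), if_pos U.one_mem,
    sub_eq_zero] at h1
  exact h1

theorem exists_ext {M : Type} [AddCommGroup M] {U : Subgroup F2} (hU : IsOpen (U : Set F2))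
    (ψ : U → M) (h1 : AddOn ⊤ ψ) (h2 : LC ⊤ ψ) :
    ∃ δ : F2 → M, QH U δ ∧ LC ⊤ δ ∧ ∀ u : U, δ u = ψ u := by
  classical
  let s : F2 ⧸ U → F2 := fun ω => if ω = QuotientGroup.mk 1 then 1 else ω.out
  have hs : ∀ ω, (QuotientGroup.mk (s ω) : F2 ⧸ U) = ω := by
    intro ω
    by_cases hω : ω = QuotientGroup.mk 1
    · simp only [s]
      rw [if_pos hω, hω]
    · simp only [s]
      rw [if_neg hω, QuotientGroup.out_eq']
  have hmem : ∀ q : F2, (s (QuotientGroup.mk q))⁻¹ * q ∈ U := by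
    intro q
    rw [← QuotientGroup.eq, hs]
  have hmk : ∀ q : F2, ∀ u ∈ U, (QuotientGroup.mk (q * u) : F2 ⧸ U) = QuotientGroup.mk q := by
    intro q u hu
    rw [QuotientGroup.eq]
    have : (q * u)⁻¹ * q = u⁻¹ := by group
    rw [this]
    exact U.inv_mem hu
  have hval : ∀ (q : F2) (u : U) (hh : (s (QuotientGroup.mk (q * (u : F2))))⁻¹ * (q * (u : F2)) ∈ U),
      (⟨_, hh⟩ : U) = ⟨_, hmem q⟩ * u := by
    intro q u hh
    apply Subtype.ext
    show (s (QuotientGroup.mk (q * (u : F2))))⁻¹ * (q * (u : F2)) = _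
    rw [hmk q u u.2, ← mul_assoc]
    rfl
  have hone : ∀ u : U, (⟨(s (QuotientGroup.mk (u : F2)))⁻¹ * (u : F2), hmem u⟩ : U) = u := by
    intro u
    apply Subtype.ext
    show (s (QuotientGroup.mk (u : F2)))⁻¹ * (u : F2) = u
    have h3 : (QuotientGroup.mk (u : F2) : F2 ⧸ U) = QuotientGroup.mk 1 := by
      have := hmk 1 u u.2
      rwa [one_mul] at this
    rw [h3]
    simp only [s]
    rw [if_pos trivial, inv_one, one_mul]
  refine ⟨fun q => ψ ⟨(s (QuotientGroup.mk q))⁻¹ * q, hmem q⟩, ?_, ?_, ?_⟩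
  · intro q u hu
    simp only
    rw [hval q ⟨u, hu⟩ (hmem _), h1 _ trivial _ trivial, hone ⟨u, hu⟩]
  · obtain ⟨W, hW, hW1⟩ := h2
    refine ⟨W.map U.subtype, ?_, ?_⟩
    · have h3 : ((W.map U.subtype : Subgroup F2) : Set F2) = Subtype.val '' (W : Set U) := by
        ext x
        simp [Subgroup.mem_map]
      rw [h3]
      exact hU.isOpenMap_subtype_val _ hW
    · intro q _ w _ hw
      obtain ⟨w', hw', rfl⟩ := hw
      simp only
      have h3 : (U.subtype w' : F2) = (w' : F2) := rfl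
      rw [h3, hval q w' (hmem _)]
      exact hW1 _ trivial _ trivial hw'
  · intro u
    simp only
    rw [hone u]

theorem base_zero {M : Type} [AddCommGroup M] {U : Subgroup F2} (hU : IsOpen (U : Set F2))
    (hn : U.Normal) {e : ℕ} (he : 0 < e) (hXe : ∀ n : ℕ, X ^ n ∈ U ↔ e ∣ n)
    {δ : F2 → M} (hδ : QH U δ) (hB : ∀ b ∈ BadE U, δ b = 0) : δ (X ^ e) = 0 := by
  have h1 := csum_zero hU hδ
  have hY : csum U (fun q => δ (Y * q) - δ q) = 0 := by
    apply csum_orbits hU Y _ (QH_RI hδ Y)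
    intro q n hq
    rw [orbit_sum hδ Y q n hq]
    exact hB _ ⟨hq, Or.inl ⟨q, n, rfl⟩⟩
  have hZ : csum U (fun q => δ (Z * q) - δ q) = 0 := by
    apply csum_orbits hU Z _ (QH_RI hδ Z)
    intro q n hq
    rw [orbit_sum hδ Z q n hq]
    exact hB _ ⟨hq, Or.inr (Or.inl ⟨q, n, rfl⟩)⟩
  have hXs : csum U (fun q => δ (X * q) - δ q) = δ (X ^ e) := by
    rw [csum_base hU hn he hXe _ (QH_RI hδ X)]
    · have h2 := telescope (δ := δ) X 1 e
      simp only [mul_one] at h2
      rw [h2, QH_one hδ, sub_zero]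
    · intro q n hne hq
      rw [orbit_sum hδ X q n hq]
      exact hB _ ⟨hq, Or.inr (Or.inr ⟨q, n, rfl, hne⟩)⟩
  rw [hXs, hY, hZ, add_zero, add_zero] at h1
  exact h1

theorem par_of_bad {M : Type} [AddCommGroup M] {U : Subgroup F2} (hU : IsOpen (U : Set F2))
    (hn : U.Normal) {e : ℕ} (he : 0 < e) (hXe : ∀ n : ℕ, X ^ n ∈ U ↔ e ∣ n)
    {δ : F2 → M} (hδ : QH U δ) (hB : ∀ b ∈ BadE U, δ b = 0) : Par U δ := by
  intro q n
  refine ⟨fun hq => ?_, fun hq => hB _ ⟨hq, Or.inl ⟨q, n, rfl⟩⟩,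
    fun hq => hB _ ⟨hq, Or.inr (Or.inl ⟨q, n, rfl⟩)⟩⟩
  by_cases hex : ∃ m : ℕ, ∃ u ∈ U, q = X ^ m * u
  · obtain ⟨m, u, hu, rfl⟩ := hex
    have h3 : (X ^ m * u)⁻¹ * X ^ n * (X ^ m * u) = u⁻¹ * X ^ n * u := by
      have h4 : X ^ n * X ^ m = X ^ m * X ^ n := by rw [← pow_add, ← pow_add, add_comm]
      calc (X ^ m * u)⁻¹ * X ^ n * (X ^ m * u)
          = u⁻¹ * (X ^ m)⁻¹ * (X ^ n * X ^ m) * u := by group
        _ = u⁻¹ * X ^ n * u := by
            rw [h4]
            group
    rw [h3] at hq ⊢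
    have hXn : X ^ n ∈ U := by
      have h5 := U.mul_mem (U.mul_mem hu hq) (U.inv_mem hu)
      have h6 : u * (u⁻¹ * X ^ n * u) * u⁻¹ = X ^ n := by group
      rw [h6] at h5
      exact h5
    have h7 : δ (u⁻¹) + δ u = 0 := by
      have := hδ u⁻¹ u hu
      rw [inv_mul_cancel, QH_one hδ] at this
      exact this.symm
    rw [hδ _ u hu, hδ _ _ hXn]
    obtain ⟨k, rfl⟩ := (hXe n).1 hXn
    have hXeU : X ^ e ∈ U := (hXe e).2 dvd_rfl
    have h8 : ∀ k : ℕ, δ (X ^ (e * k)) = 0 := by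
      intro k
      induction k with
      | zero => rw [mul_zero, pow_zero, QH_one hδ]
      | succ k ih =>
        rw [mul_add, mul_one, pow_add, hδ _ _ hXeU, ih, base_zero hU hn he hXe hδ hB, add_zero]
    rw [h8 k, add_zero, h7]
  · exact hB _ ⟨hq, Or.inr (Or.inr ⟨q, n, rfl, fun m u hu hqu => hex ⟨m, u, hu, hqu⟩⟩)⟩

end Pool.Agent.H371.GT
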