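import Pool.Agent.H371.GT.Defs
import Pool.Agent.H371.SE.A11

set_option autoImplicit false

namespace Pool.Agent.H371.GT

open SE (AddOn LC CZ RI csum)

namespace F7ax

/-- duality for two permutations of a finite set: the annihilator of the image of
`m ↦ (m ∘ σ - m, m ∘ τ - m)` -/
theorem dual_aux {Ω k : Type} [Field k] [Fintype Ω] [DecidableEq Ω] (σ τ : Equiv.Perm Ω)
    (A B : Ω → k)
    (h : ¬ ∃ m : Ω → k, (∀ w, A w = m (σ w) - m w) ∧ ∀ w, B w = m (τ w) - m w) :
    ∃ a b : Ω → k, (∀ w, a w - a (σ.symm w) + (b w - b (τ.symm w)) = 0) ∧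
      ∑ w, A w * a w + ∑ w, B w * b w ≠ 0 := by
  let D1 : (Ω → k) →ₗ[k] (Ω → k) := LinearMap.funLeft k k σ - LinearMap.id
  let D2 : (Ω → k) →ₗ[k] (Ω → k) := LinearMap.funLeft k k τ - LinearMap.id
  let D : (Ω → k) →ₗ[k] (Ω → k) × (Ω → k) := D1.prod D2
  have hD : ((A, B) : (Ω → k) × (Ω → k)) ∉ LinearMap.range D := by
    rintro ⟨m, hm⟩
    apply h
    refine ⟨m, fun w => ?_, fun w => ?_⟩
    · have h1 := congrFun (congrArg Prod.fst hm) w
      exact h1.symm
    · have h1 := congrFun (congrArg Prod.snd hm) w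
      exact h1.symm
  obtain ⟨f, hf1, hf2⟩ := Submodule.exists_le_ker_of_notMem hD
  -- the value of `f`
  have hfv : ∀ u v : Ω → k, f (u, v) = ∑ w, u w * f (Pi.single w 1, 0) +
      ∑ w, v w * f (0, Pi.single w 1) := by
    intro u v
    have h1 : ((u, v) : (Ω → k) × (Ω → k)) = (u, 0) + (0, v) := by simp
    have h2 : f (u, 0) = ∑ w, u w * f (Pi.single w 1, 0) := by
      have h3 := (f.comp (LinearMap.inl k (Ω → k) (Ω → k))).pi_apply_eq_sum_univ u
      simp only [LinearMap.comp_apply, LinearMap.inl_apply, smul_eq_mul] at h3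
      rw [h3]
      refine Finset.sum_congr rfl fun w _ => ?_
      congr 3
      funext j
      rw [Pi.single_apply]
      simp only [eq_comm]
    have h2' : f (0, v) = ∑ w, v w * f (0, Pi.single w 1) := by
      have h3 := (f.comp (LinearMap.inr k (Ω → k) (Ω → k))).pi_apply_eq_sum_univ v
      simp only [LinearMap.comp_apply, LinearMap.inr_apply, smul_eq_mul] at h3
      rw [h3]
      refine Finset.sum_congr rfl fun w _ => ?_
      congr 3
      funext j
      rw [Pi.single_apply]
      simp only [eq_comm]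
    rw [h1, map_add, h2, h2']
  refine ⟨fun w => f (Pi.single w 1, 0), fun w => f (0, Pi.single w 1), fun w => ?_, ?_⟩
  · have h1 : f (D (Pi.single w 1)) = 0 := hf2 (LinearMap.mem_range_self D _)
    have h2 : D (Pi.single w 1) =
        (fun v => (Pi.single w (1 : k) : Ω → k) (σ v) - (Pi.single w (1 : k) : Ω → k) v,
         fun v => (Pi.single w (1 : k) : Ω → k) (τ v) - (Pi.single w (1 : k) : Ω → k) v) := rfl
    rw [h2, hfv] at h1
    have h3 : ∀ (ρ : Equiv.Perm Ω) (c : Ω → k),
        ∑ v, ((Pi.single w (1 : k) : Ω → k) (ρ v) - (Pi.single w (1 : k) : Ω → k) v) * c v =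
          c (ρ.symm w) - c w := by
      intro ρ c
      have e1 : ∑ v, (Pi.single w (1 : k) : Ω → k) (ρ v) * c v = c (ρ.symm w) := by
        rw [Finset.sum_eq_single (ρ.symm w)]
        · rw [Equiv.apply_symm_apply, Pi.single_eq_same, one_mul]
        · intro v _ hv
          rw [Pi.single_eq_of_ne, zero_mul]
          intro h4
          apply hv
          rw [← h4, Equiv.symm_apply_apply]
        · intro h4
          exact absurd (Finset.mem_univ _) h4
      have e2 : ∑ v, (Pi.single w (1 : k) : Ω → k) v * c v = c w := by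
        rw [Finset.sum_eq_single w]
        · rw [Pi.single_eq_same, one_mul]
        · intro v _ hv
          rw [Pi.single_eq_of_ne hv, zero_mul]
        · intro h4
          exact absurd (Finset.mem_univ _) h4
      simp only [sub_mul]
      rw [Finset.sum_sub_distrib, e1, e2]
    rw [h3 σ, h3 τ] at h1
    linear_combination -h1
  · rw [← hfv]
    exact hf1

end F7ax

/-- the annihilator of the annihilator -/
theorem exists_dual {p : ℕ} [Fact p.Prime] {U : Subgroup F2} (hU : IsOpen (U : Set F2))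
    (A B : F2 → ZMod p) (hA : RI U A) (hB : RI U B)
    (h : ¬ ∃ m : F2 → ZMod p, RI U m ∧ (∀ q, A q = m (X * q) - m q) ∧
      ∀ q, B q = m (Y * q) - m q) :
    ∃ a b : F2 → ZMod p, RI U a ∧ RI U b ∧
      (∀ q, a q - a (X⁻¹ * q) + (b q - b (Y⁻¹ * q)) = 0) ∧
      csum U (fun q => A q * a q) + csum U (fun q => B q * b q) ≠ 0 := by
  classical
  have hfin : Finite (F2 ⧸ U) := SE.finite_of_isOpen hU
  have : Fintype (F2 ⧸ U) := Fintype.ofFinite _
  have hRI : ∀ F : F2 ⧸ U → ZMod p, RI U (fun x : F2 => F (QuotientGroup.mk x)) := by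
    intro F x u hu
    show F (QuotientGroup.mk (x * u)) = F (QuotientGroup.mk x)
    rw [QuotientGroup.mk_mul_of_mem x hu]
  obtain ⟨a, b, hab, hne⟩ := F7ax.dual_aux
    (MulAction.toPerm X : Equiv.Perm (F2 ⧸ U)) (MulAction.toPerm Y : Equiv.Perm (F2 ⧸ U))
    (fun w => A w.out) (fun w => B w.out) (by
      rintro ⟨m, hm1, hm2⟩
      apply h
      refine ⟨fun x => m (QuotientGroup.mk x), hRI m, fun q => ?_, fun q => ?_⟩
      · have h1 := hm1 (QuotientGroup.mk q)
        rw [SE.A11x.RI_out hA q] at h1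
        exact h1
      · have h1 := hm2 (QuotientGroup.mk q)
        rw [SE.A11x.RI_out hB q] at h1
        exact h1)
  refine ⟨fun x => a (QuotientGroup.mk x), fun x => b (QuotientGroup.mk x), hRI a, hRI b,
    fun q => ?_, ?_⟩
  · exact hab (QuotientGroup.mk q)
  · unfold csum
    rw [finsum_eq_sum_of_fintype, finsum_eq_sum_of_fintype]
    simp only [QuotientGroup.out_eq']
    exact hne

end Pool.Agent.H371.GT
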