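import Pool.Agent.H371.GT.F2a

set_option autoImplicit false

namespace Pool.Agent.H371.GT

open SE (AddOn LC CZ RI csum)

namespace F8ax

theorem ri_congr {M : Type} {V0 : Subgroup F2} {D : F2 → M} (h : RI V0 D) {x y : F2}
    (hxy : y⁻¹ * x ∈ V0) : D x = D y := by
  have h1 := h y _ hxy
  rwa [mul_inv_cancel_left] at h1

theorem par_aux {p : ℕ} [Fact p.Prime] {V0 : Subgroup F2} (hn : V0.Normal) {δ : F2 → ℤ_[p]}
    (hδ : QH V0 δ) {s c : F2} {D : F2 → ℤ_[p]} (hD : ∀ q, δ (s * q) = δ q + D q)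
    (hDr : RI V0 D) (hDc : ∀ q, D (c * q) = - D q) (hc : ∀ g, (c * g)⁻¹ * (g * c) ∈ V0) {k : ℕ}
    (hk : c⁻¹ * s ^ k ∈ V0) (q : F2) (n : ℕ) (hq : q⁻¹ * s ^ n * q ∈ V0) :
    δ (q⁻¹ * s ^ n * q) = 0 := by
  have hsn : s ^ n ∈ V0 := by
    have h1 := hn.conj_mem _ hq q
    have e1 : q * (q⁻¹ * s ^ n * q) * q⁻¹ = s ^ n := by group
    rwa [e1] at h1
  have hconj : ∀ (z v : F2), v ∈ V0 → z⁻¹ * v * z ∈ V0 := by
    intro z v hv
    have h1 := hn.conj_mem v hv z⁻¹
    rwa [inv_inv] at h1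
  set S : F2 → ℤ_[p] := fun z => δ (s ^ n * z) - δ z with hS
  have hSe : ∀ z, S z = δ (z⁻¹ * s ^ n * z) := by
    intro z
    have h1 := hδ z _ (hconj z _ hsn)
    have e1 : z * (z⁻¹ * s ^ n * z) = s ^ n * z := by group
    rw [e1] at h1
    simp only [hS]
    rw [h1]
    ring
  have hSr : ∀ z, ∀ v ∈ V0, S (z * v) = S z := by
    intro z v hv
    simp only [hS]
    rw [← mul_assoc, hδ _ v hv, hδ z v hv]
    ring
  have hDp : ∀ (i : ℕ) (z : F2), δ (s ^ i * z) = δ z + ∑ j ∈ Finset.range i, D (s ^ j * z) := by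
    intro i
    induction i with
    | zero => intro z; simp
    | succ i ih =>
      intro z
      rw [Finset.sum_range_succ, pow_succ', mul_assoc, hD, ih]
      ring
  have hSs : ∀ z, S (s * z) = S z := by
    intro z
    have e1 : s ^ n * (s * z) = s * (s ^ n * z) := by
      rw [← mul_assoc, ← mul_assoc, ← pow_succ, ← pow_succ']
    have h1 : D (s ^ n * z) = D z := by
      apply ri_congr hDr
      have := hconj z _ hsn
      rwa [mul_assoc] at this
    simp only [hS]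
    rw [e1, hD, hD, h1]
    ring
  have hSp : ∀ (i : ℕ) (z : F2), S (s ^ i * z) = S z := by
    intro i
    induction i with
    | zero => intro z; simp
    | succ i ih =>
      intro z
      rw [pow_succ', mul_assoc, hSs, ih]
  have hSc : ∀ z, S (c * z) = - S z := by
    intro z
    have h1 : S (c * z) = ∑ j ∈ Finset.range n, D (s ^ j * (c * z)) := by
      simp only [hS]
      rw [hDp]
      ring
    have h2 : S z = ∑ j ∈ Finset.range n, D (s ^ j * z) := by
      simp only [hS]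
      rw [hDp]
      ring
    rw [h1, h2, ← Finset.sum_neg_distrib]
    refine Finset.sum_congr rfl fun j _ => ?_
    rw [← hDc]
    apply ri_congr hDr
    have h3 := hconj z _ (hc (s ^ j))
    have e1 : (c * (s ^ j * z))⁻¹ * (s ^ j * (c * z)) = z⁻¹ * ((c * s ^ j)⁻¹ * (s ^ j * c)) * z := by
      group
    rw [e1]
    exact h3
  have h1 : S q = - S q := by
    calc S q = S (s ^ k * q) := (hSp k q).symm
      _ = S (c * q * (q⁻¹ * (c⁻¹ * s ^ k) * q)) := by
          congr 1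
          group
      _ = S (c * q) := hSr _ _ (hconj q _ hk)
      _ = - S q := hSc q
  rw [← hSe]
  exact self_eq_neg.1 h1

end F8ax

open F8ax

/-- parabolic homomorphisms on small subgroups -/
theorem exists_par (p : ℕ) [Fact p.Prime] {V : Subgroup F2} (hV : IsOpen (V : Set F2))
    (hVn : V.Normal) {e : ℕ} (he : 0 < e) (hVe : ∀ q : F2, q ^ e ∈ V)
    (κ : F2 →* Multiplicative (ZMod (4 * e))) (hκ : IsOpen (κ.ker : Set F2))
    (hκX : κ X = Multiplicative.ofAdd 1) (hκY : κ Y = Multiplicative.ofAdd 1) :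
    ∃ δ : F2 → ℤ_[p], QH (V ⊓ κ.ker) δ ∧ CZ p ⊤ δ ∧ Par (V ⊓ κ.ker) δ ∧
      ∃ w ∈ V ⊓ κ.ker, δ w = 2 ∧ ∀ r, r ∉ V → δ (r * w * r⁻¹) = 0 := by
  classical
  set V0 : Subgroup F2 := V ⊓ κ.ker with hV0
  have hV0o : IsOpen (V0 : Set F2) := by
    rw [hV0, Subgroup.coe_inf]
    exact hV.inter hκ
  have hV0n : V0.Normal := inferInstance
  have hm : ∀ x, x ∈ V0 ↔ x ∈ V ∧ κ x = 1 := by
    intro x
    rw [hV0, Subgroup.mem_inf, MonoidHom.mem_ker]
  have hconj : ∀ (z v : F2), v ∈ V0 → z⁻¹ * v * z ∈ V0 := by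
    intro z v hv
    have h1 := hV0n.conj_mem v hv z⁻¹
    rwa [inv_inv] at h1
  have hpowV : ∀ (x : F2) (k : ℕ), x ^ (k * e) ∈ V := by
    intro x k
    rw [mul_comm, pow_mul]
    exact V.pow_mem (hVe x) k
  -- `κ` of some elements
  set b : Multiplicative (ZMod (4 * e)) := Multiplicative.ofAdd 1 with hb
  have hb4 : b ^ (4 * e) = 1 := by
    rw [hb, ← ofAdd_nsmul, nsmul_eq_mul, mul_one]
    have : ((4 * e : ℕ) : ZMod (4 * e)) = 0 := ZMod.natCast_self _
    rw [this, ofAdd_zero]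
  have hb2 : b ^ (2 * e) ≠ 1 := by
    intro h
    rw [hb, ← ofAdd_nsmul, nsmul_eq_mul, mul_one, ofAdd_eq_one,
      ZMod.natCast_eq_zero_iff] at h
    have := Nat.le_of_dvd (by omega) h
    omega
  have hbinv : (b ^ (2 * e))⁻¹ = b ^ (2 * e) := by
    apply inv_eq_of_mul_eq_one_right
    rw [← pow_add, show 2 * e + 2 * e = 4 * e by ring, hb4]
  -- elements of `V` are central modulo `V0`
  have hcen : ∀ a ∈ V, ∀ g, (a * g)⁻¹ * (g * a) ∈ V0 := by
    intro a ha g
    rw [hm]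
    refine ⟨?_, ?_⟩
    · have e1 : (a * g)⁻¹ * (g * a) = g⁻¹ * a⁻¹ * g * a := by group
      rw [e1]
      have h1 := hVn.conj_mem a⁻¹ (V.inv_mem ha) g⁻¹
      rw [inv_inv] at h1
      exact V.mul_mem h1 ha
    · rw [map_mul, map_inv, map_mul, map_mul, mul_comm (κ a) (κ g)]
      exact inv_mul_cancel _
  set c : F2 := X ^ (2 * e) with hc
  have hcV : c ∈ V := hpowV X 2
  have hκc : κ c = b ^ (2 * e) := by rw [hc, map_pow, hκX]
  have hc0 : c ∉ V0 := by
    rw [hm, hκc]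
    exact fun h => hb2 h.2
  have hcc : c * c ∈ V0 := by
    rw [hm]
    refine ⟨V.mul_mem hcV hcV, ?_⟩
    rw [map_mul, hκc, ← pow_add, show 2 * e + 2 * e = 4 * e by ring, hb4]
  -- the function `A`
  set A : F2 → ℤ_[p] := fun q => if q ∈ V0 then 1 else if c⁻¹ * q ∈ V0 then -1 else 0 with hA
  have hAr : RI V0 A := by
    intro x u hu
    simp only [hA]
    rw [← mul_assoc, Subgroup.mul_mem_cancel_right V0 hu, Subgroup.mul_mem_cancel_right V0 hu]
  have hAc : ∀ q, A (c * q) = - A q := by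
    intro q
    simp only [hA]
    rw [inv_mul_cancel_left]
    by_cases h1 : q ∈ V0
    · have h2 : c * q ∉ V0 := by
        rw [Subgroup.mul_mem_cancel_right V0 h1]
        exact hc0
      rw [if_neg h2, if_pos h1, if_pos h1]
    · by_cases h2 : c⁻¹ * q ∈ V0
      · have h3 : c * q ∈ V0 := by
          have h4 := V0.mul_mem hcc h2
          have e1 : c * c * (c⁻¹ * q) = c * q := by group
          rwa [e1] at h4
        rw [if_pos h3, if_neg h1, if_pos h2, neg_neg]
      · have h3 : c * q ∉ V0 := by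
          intro h
          apply h2
          have h4 := V0.mul_mem (V0.inv_mem hcc) h
          have e1 : (c * c)⁻¹ * (c * q) = c⁻¹ * q := by group
          rwa [e1] at h4
        rw [if_neg h3, if_neg h1, if_neg h1, if_neg h2, neg_zero]
  have hA1 : A 1 = 1 := by
    simp only [hA]
    rw [if_pos V0.one_mem]
  have hAV : ∀ q, q ∉ V → A q = 0 := by
    intro q hq
    simp only [hA]
    have h1 : q ∉ V0 := fun h => hq ((hm q).1 h).1
    have h2 : c⁻¹ * q ∉ V0 := by
      intro h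
      apply hq
      have h3 := V.mul_mem hcV ((hm _).1 h).1
      rwa [mul_inv_cancel_left] at h3
    rw [if_neg h1, if_neg h2]
  obtain ⟨δ, -, hQ, hC, hX, hY⟩ := exists_QH_Zp p hV0o A (fun _ => 0) hAr (fun _ _ _ => rfl)
  have hXYZ : X * (Y * Z) = 1 := by
    rw [← mul_assoc]
    exact mul_inv_cancel _
  have hYZ : Y * Z = X⁻¹ := eq_inv_of_mul_eq_one_right hXYZ
  have hZ : ∀ q, δ (Z * q) = δ q + (- A (X⁻¹ * q)) := by
    intro q
    have h1 := hX (Y * Z * q)
    have h2 := hY (Z * q)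
    rw [← mul_assoc] at h2
    have e1 : X * (Y * Z * q) = q := by rw [← mul_assoc, hXYZ, one_mul]
    rw [e1, h2, hYZ] at h1
    rw [h1]
    ring
  have hcX : c * X⁻¹ = X⁻¹ * c := by
    rw [hc]
    exact ((Commute.refl X).pow_left (2 * e)).inv_right
  refine ⟨δ, hQ, hC, ?_, ?_⟩
  · -- parabolic
    intro q n
    refine ⟨fun h => ?_, fun h => ?_, fun h => ?_⟩
    · exact par_aux hV0n hQ hX hAr hAc (hcen c hcV) (k := 2 * e)
        (by rw [← hc, inv_mul_cancel]; exact V0.one_mem) q n h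
    · refine par_aux hV0n hQ (D := fun _ => 0) (fun q => by rw [hY]) (fun _ _ _ => rfl)
        (fun _ => neg_zero.symm) (hcen c hcV) (k := 2 * e) ?_ q n h
      rw [hm]
      refine ⟨V.mul_mem (V.inv_mem hcV) (hpowV Y 2), ?_⟩
      rw [map_mul, map_inv, hκc, map_pow, hκY]
      exact inv_mul_cancel _
    · refine par_aux hV0n hQ (D := fun q => - A (X⁻¹ * q)) hZ ?_ ?_ (hcen c hcV) (k := 1 * e)
        ?_ q n h
      · intro x u hu
        change - A (X⁻¹ * (x * u)) = - A (X⁻¹ * x)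
        rw [← mul_assoc, hAr _ u hu]
      · intro q
        rw [← mul_assoc, ← hcX, mul_assoc, hAc]
      · rw [hm]
        refine ⟨V.mul_mem (V.inv_mem hcV) (hpowV Z 1), ?_⟩
        have hκZ : κ Z = (b ^ 2)⁻¹ := by
          rw [Z, map_inv, map_mul, hκX, hκY, pow_two]
        rw [map_mul, map_inv, hκc, map_pow, hκZ, one_mul, inv_pow, ← pow_mul, hbinv]
        rw [← pow_add, show 2 * e + 2 * e = 4 * e by ring, hb4]
  · -- the element `w`
    set y : F2 := Y ^ (2 * e) with hy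
    have hyV : y ∈ V := hpowV Y 2
    have hκy : κ y = b ^ (2 * e) := by rw [hy, map_pow, hκY]
    have hcy : c⁻¹ * y ∈ V0 := by
      rw [hm]
      refine ⟨V.mul_mem (V.inv_mem hcV) hyV, ?_⟩
      rw [map_mul, map_inv, hκc, hκy]
      exact inv_mul_cancel _
    set w0 : F2 := X * y * X⁻¹ * y⁻¹ with hw0
    have hw0V : w0 ∈ V0 := by
      have h1 := hcen y hyV (X * y⁻¹)
      -- `(y * (X * y⁻¹))⁻¹ * (X * y⁻¹ * y) = y * X⁻¹ * y⁻¹ * X`
      have h2 := hV0n.conj_mem _ h1 X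
      have e1 : X * ((y * (X * y⁻¹))⁻¹ * (X * y⁻¹ * y)) * X⁻¹ = w0 := by
        rw [hw0]
        group
      rwa [e1] at h2
    have hYp : ∀ (k : ℕ) (q : F2), δ (Y ^ k * q) = δ q := by
      intro k
      induction k with
      | zero => intro q; simp
      | succ k ih =>
        intro q
        rw [pow_succ', mul_assoc, hY, ih, add_zero]
    have hyδ : ∀ q, δ (y * q) = δ q := hYp (2 * e)
    have hyδ' : ∀ q, δ (y⁻¹ * q) = δ q := by
      intro q
      have := hyδ (y⁻¹ * q)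
      rw [mul_inv_cancel_left] at this
      exact this.symm
    have hXδ' : ∀ q, δ (X⁻¹ * q) = δ q - A (X⁻¹ * q) := by
      intro q
      have := hX (X⁻¹ * q)
      rw [mul_inv_cancel_left] at this
      rw [this]
      ring
    have hkey : ∀ q, δ (w0 * q) = δ q + 2 * A (X⁻¹ * q) := by
      intro q
      have e1 : w0 * q = X * (y * (X⁻¹ * (y⁻¹ * q))) := by rw [hw0]; group
      have h1 : A (y * (X⁻¹ * (y⁻¹ * q))) = A (X⁻¹ * q) := by
        apply ri_congr hAr
        -- `(X⁻¹ q)⁻¹ (y X⁻¹ y⁻¹ q) = q⁻¹ (X y X⁻¹ y⁻¹) q`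
        have h2 := hconj q _ hw0V
        have e2 : (X⁻¹ * q)⁻¹ * (y * (X⁻¹ * (y⁻¹ * q))) = q⁻¹ * w0 * q := by
          rw [hw0]
          group
        rw [e2]
        exact h2
      have h3 : A (X⁻¹ * (y⁻¹ * q)) = - A (X⁻¹ * q) := by
        have h4 : A (X⁻¹ * q) = A (c * (X⁻¹ * (y⁻¹ * q))) := by
          apply ri_congr hAr
          -- `(c X⁻¹ y⁻¹ q)⁻¹ (X⁻¹ q) = q⁻¹ y X c⁻¹ X⁻¹ q = q⁻¹ y c⁻¹ q`
          have h5 : y * c⁻¹ ∈ V0 := by
            have h6 := hV0n.conj_mem _ hcy c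
            have e3 : c * (c⁻¹ * y) * c⁻¹ = y * c⁻¹ := by group
            rwa [e3] at h6
          have h6 := hconj q _ h5
          have e2 : (c * (X⁻¹ * (y⁻¹ * q)))⁻¹ * (X⁻¹ * q) = q⁻¹ * (y * c⁻¹) * q := by
            have e3 : c * (X⁻¹ * (y⁻¹ * q)) = X⁻¹ * c * (y⁻¹ * q) := by
              rw [← mul_assoc, hcX]
            rw [e3]
            group
          rw [e2]
          exact h6
        rw [h4, hAc, neg_neg]
      rw [e1, hX, hyδ, hXδ', hyδ', h1, h3]
      ring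
    have hconjw : ∀ q, δ (q⁻¹ * w0 * q) = 2 * A (X⁻¹ * q) := by
      intro q
      have h1 := hQ q _ (hconj q _ hw0V)
      have e1 : q * (q⁻¹ * w0 * q) = w0 * q := by group
      rw [e1, hkey] at h1
      exact (add_left_cancel h1).symm
    refine ⟨X⁻¹ * w0 * X, hconj X _ hw0V, ?_, fun r hr => ?_⟩
    · rw [hconjw, inv_mul_cancel, hA1, mul_one]
    · have e1 : r * (X⁻¹ * w0 * X) * r⁻¹ = (X * r⁻¹)⁻¹ * w0 * (X * r⁻¹) := by group
      rw [e1, hconjw, inv_mul_cancel_left, hAV, mul_zero]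
      intro h
      exact hr (by simpa using V.inv_mem h)

end Pool.Agent.H371.GT
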