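import Pool.Agent.H371.GT.Defs

set_option autoImplicit false

namespace Pool.Agent.H371.GT

open SE (AddOn LC CZ RI csum)

namespace G1x

theorem ev_comp (θ : F2 →ₜ* F2) (A B f : F2) : θ (ev A B f) = ev (θ A) (θ B) f := by
  have h : θ.comp (ev A B) = ev (θ A) (θ B) := by
    apply hom_ext_XY
    · rw [ev_X]
      show θ (ev A B X) = _
      rw [ev_X]
    · rw [ev_Y]
      show θ (ev A B Y) = _
      rw [ev_Y]
  have h2 := DFunLike.congr_fun h f
  exact h2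

/-- conjugation -/
noncomputable def cj (h : F2) : F2 →ₜ* F2 :=
  ⟨(MulAut.conj h).toMonoidHom, by
    show Continuous fun x => h * x * h⁻¹
    exact (continuous_const.mul continuous_id).mul continuous_const⟩

theorem cj_apply (h x : F2) : cj h x = h * x * h⁻¹ := rfl

theorem ev_conj (h A B f : F2) : ev (h * A * h⁻¹) (h * B * h⁻¹) f = h * ev A B f * h⁻¹ := by
  have h1 := ev_comp (cj h) A B f
  rw [cj_apply, cj_apply, cj_apply] at h1
  exact h1.symm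

theorem rel_swap {f : F2} (h1 : RelI f) (A B : F2) : ev A B f * ev B A f = 1 := by
  have h2 : ev A B (f * ev Y X f) = ev A B 1 := by
    rw [h1]
  rw [map_mul, map_one, ev_comp, ev_X, ev_Y] at h2
  exact h2

end G1x

open G1x in
theorem hex_of_rel {l m : Zhat} (hlm : l = 1 + 2 * m) {f : F2} (h1 : RelI f) (h2 : RelII m f)
    {φ : F2 →ₜ* F2} (hφ : IsPhi l f φ) : Hex l φ := by
  refine ⟨hφ.1, ⟨f, hφ.2⟩, ?_⟩
  have hI : ∀ A B : F2, ev B A f = (ev A B f)⁻¹ := fun A B =>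
    (inv_eq_of_mul_eq_one_right (rel_swap h1 A B)).symm
  have hf : ev X Y f = f := by
    have h : ev X Y = ContinuousMonoidHom.id F2 := by
      apply hom_ext_XY
      · rw [ev_X]; rfl
      · rw [ev_Y]; rfl
    rw [h]
    rfl
  have ha : ev Y X f = f⁻¹ := by
    rw [hI X Y, hf]
  set c := ev Z X f with hc
  set b := ev Y Z f with hb
  have hII : c * ppow Z m * b * ppow Y m * f * ppow X m = 1 := h2
  have hZ : Z = Y⁻¹ * X⁻¹ := by
    show (X * Y)⁻¹ = _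
    rw [mul_inv_rev]
  have hz1 : ev Y X Z = Y * Z * Y⁻¹ := by
    show ev Y X (X * Y)⁻¹ = _
    rw [map_inv, map_mul, ev_X, ev_Y, hZ]
    group
  have hz2 : ev Y X Z = X⁻¹ * Z * X⁻¹⁻¹ := by
    show ev Y X (X * Y)⁻¹ = _
    rw [map_inv, map_mul, ev_X, ev_Y, hZ]
    group
  have e1 : ev Y X c = Y * b⁻¹ * Y⁻¹ := by
    rw [hc, ev_comp, ev_X, hz1]
    have h3 : ev (Y * Z * Y⁻¹) Y f = ev (Y * Z * Y⁻¹) (Y * Y * Y⁻¹) f := by
      have h4 : Y * Y * Y⁻¹ = Y := by group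
      rw [h4]
    rw [h3, ev_conj, hI Y Z]
  have e2 : ev Y X b = X⁻¹ * c⁻¹ * X := by
    rw [hb, ev_comp, ev_Y, hz2]
    have h3 : ev X (X⁻¹ * Z * X⁻¹⁻¹) f = ev (X⁻¹ * X * X⁻¹⁻¹) (X⁻¹ * Z * X⁻¹⁻¹) f := by
      have h4 : X⁻¹ * X * X⁻¹⁻¹ = X := by group
      rw [h4]
    rw [h3, ev_conj, hI Z X, inv_inv]
  have e3 : ev Y X (ppow Z m) = Y * ppow Z m * Y⁻¹ := by
    rw [map_ppow, hz1, ppow_conj]
  have hIII : (Y * b⁻¹ * Y⁻¹) * (Y * ppow Z m * Y⁻¹) * (X⁻¹ * c⁻¹ * X) * ppow X m * f⁻¹ *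
      ppow Y m = 1 := by
    have h3 : ev Y X (c * ppow Z m * b * ppow Y m * f * ppow X m) = 1 := by
      rw [hII, map_one]
    rw [map_mul, map_mul, map_mul, map_mul, map_mul, e1, e2, e3, map_ppow, map_ppow, ev_X, ev_Y,
      ha] at h3
    exact h3
  have hX : ppow X (1 + m) = X * ppow X m := by rw [ppow_add, ppow_one]
  have hX' : ppow X (1 + 2 * m) = ppow X m * (X * ppow X m) := by
    have h3 : (1 + 2 * m : Zhat) = m + (1 + m) := by ring
    rw [h3, ppow_add, hX]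
  have hY' : ppow Y (1 + 2 * m) = ppow Y m * Y * ppow Y m := by
    have h3 : (1 + 2 * m : Zhat) = m + 1 + m := by ring
    rw [h3, ppow_add, ppow_add, ppow_one]
  have hZ' : ppow Z (1 + 2 * m) = ppow Z m * (ppow Z m * Z) := by
    have h3 : (1 + 2 * m : Zhat) = m + (m + 1) := by ring
    rw [h3, ppow_add, ppow_add, ppow_one]
  have hphi : φ Z = (φ X * φ Y)⁻¹ := by
    show φ (X * Y)⁻¹ = _
    rw [map_inv, map_mul]
  refine ⟨(ppow X m * c)⁻¹, ?_⟩
  rw [hphi, hφ.1, hφ.2, hlm, hX', hY', hZ', inv_inv]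
  set x := ppow X m
  set y := ppow Y m
  set z := ppow Z m
  -- from hIII: X x f⁻¹ y Y = c (z Z)⁻¹ b
  have h5 : X * x * f⁻¹ * y * Y = c * (z * Z)⁻¹ * b := by
    have h6 : (Y * b⁻¹ * z * Z * c⁻¹) * (X * x * f⁻¹ * y) = 1 := by
      calc (Y * b⁻¹ * z * Z * c⁻¹) * (X * x * f⁻¹ * y)
          = (Y * b⁻¹ * Y⁻¹) * (Y * z * Y⁻¹) * (X⁻¹ * c⁻¹ * X) * x * f⁻¹ * y := by
            rw [hZ]
            group
        _ = 1 := hIII
    have h7 : X * x * f⁻¹ * y = (Y * b⁻¹ * z * Z * c⁻¹)⁻¹ := eq_inv_of_mul_eq_one_right h6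
    rw [h7]
    group
  -- from hII
  have h8 : b * y * f = z⁻¹ * c⁻¹ * x⁻¹ := by
    have h9 : (c * z) * (b * y * f) * x = 1 := by
      rw [← hII]
      group
    have h10 : (c * z) * (b * y * f) = x⁻¹ := eq_inv_of_mul_eq_one_left h9
    rw [← h10]
    group
  have h11 : x * (X * x) * (f⁻¹ * (y * Y * y) * f) = x * c * (z * (z * Z))⁻¹ * (x * c)⁻¹ := by
    calc x * (X * x) * (f⁻¹ * (y * Y * y) * f)
        = x * (X * x * f⁻¹ * y * Y) * (y * f) := by group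
      _ = x * (c * (z * Z)⁻¹ * b) * (y * f) := by rw [h5]
      _ = x * c * (z * Z)⁻¹ * (b * y * f) := by group
      _ = x * c * (z * Z)⁻¹ * (z⁻¹ * c⁻¹ * x⁻¹) := by rw [h8]
      _ = _ := by group
  rw [h11]
  simp only [mul_inv_rev, inv_inv, mul_assoc]

end Pool.Agent.H371.GT
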