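import Pool.Agent.H371.GT.F4

set_option autoImplicit false

namespace Pool.Agent.H371.GT

open SE (AddOn LC CZ RI csum)

namespace G2x

open Filter Topology

/-- a closed subgroup which does not contain `x` is contained in an open subgroup which does not
contain `x` -/
theorem exists_open {R : Subgroup F2} (hR : IsClosed (R : Set F2)) {x : F2} (hx : x ∉ R) :
    ∃ U : Subgroup F2, IsOpen (U : Set F2) ∧ R ≤ U ∧ x ∉ U := by
  have hopen : IsOpen ((fun a => x * a) ⁻¹' ((R : Set F2)ᶜ)) :=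
    hR.isOpen_compl.preimage (continuous_const_mul _)
  have h1 : (1 : F2) ∈ (fun a => x * a) ⁻¹' ((R : Set F2)ᶜ) := by
    show x * 1 ∈ (R : Set F2)ᶜ
    rw [mul_one]
    exact hx
  obtain ⟨N, hN⟩ := ProfiniteGrp.exist_openNormalSubgroup_sub_open_nhds_of_one hopen h1
  have hNn : N.toSubgroup.Normal := inferInstance
  refine ⟨R ⊔ N.toSubgroup, ?_, le_sup_left, ?_⟩
  · exact Subgroup.isOpen_mono (H₁ := N.toSubgroup) le_sup_right N.isOpen'
  · intro h
    rw [Subgroup.mem_sup_of_normal_right] at h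
    obtain ⟨r, hr, v, hv, hrv⟩ := h
    have h2 : v⁻¹ ∈ (N : Set F2) := N.toSubgroup.inv_mem hv
    have h3 := hN h2
    apply h3
    show x * v⁻¹ ∈ R
    rw [← hrv, mul_inv_cancel_right]
    exact hr

theorem ppow_mem {U : Subgroup F2} (hU : IsOpen (U : Set F2)) {a : F2} (ha : a ∈ U) (m : Zhat) :
    ppow a m ∈ U := by
  have hc : IsClosed (U : Set F2) := Subgroup.isClosed_of_isOpen U hU
  exact hc.mem_of_tendsto (tendsto_ppow a m) (Eventually.of_forall fun k => U.pow_mem ha _)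

theorem mem_of_ppow_mem {U : Subgroup F2} (hU : IsOpen (U : Set F2)) {a : F2} (l : Zhatˣ)
    (ha : ppow a (l : Zhat) ∈ U) : a ∈ U := by
  have h := ppow_mem hU ha ((l⁻¹ : Zhatˣ) : Zhat)
  rwa [← ppow_mul, Units.mul_inv, ppow_one] at h

/-- the value of `δ` at a profinite power with an invertible exponent -/
theorem delta_ppow {U : Subgroup F2} (hU : IsOpen (U : Set F2)) {δ : F2 → ZMod 2} (h0 : δ 1 = 0)
    (hQ : QH U δ) (hL : LC ⊤ δ) {a : F2} (ha : a ∈ U) (l : Zhatˣ) :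
    δ (ppow a (l : Zhat)) = δ a := by
  have hpow : ∀ n : ℕ, δ (a ^ n) = n * δ a := by
    intro n
    induction n with
    | zero => rw [pow_zero, h0, Nat.cast_zero, zero_mul]
    | succ n ih =>
      rw [pow_succ, hQ (a ^ n) a ha, ih]
      push_cast
      ring
  obtain ⟨W, hWo, hW⟩ := hL
  have hmem : (fun b => (ppow a (l : Zhat))⁻¹ * b) ⁻¹' (W : Set F2) ∈ 𝓝 (ppow a (l : Zhat)) := by
    apply (hWo.preimage (continuous_const_mul _)).mem_nhds
    show (ppow a (l : Zhat))⁻¹ * ppow a (l : Zhat) ∈ W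
    rw [inv_mul_cancel]
    exact W.one_mem
  obtain ⟨k, hk1, hk2⟩ := (((tendsto_ppow a (l : Zhat)).eventually hmem).and
    (eventually_ge_atTop 2)).exists
  have h1 : δ (a ^ res (l : Zhat) ⟨k.factorial, k.factorial_pos⟩) = δ (ppow a (l : Zhat)) := by
    have h2 := hW (ppow a (l : Zhat)) trivial _ trivial hk1
    rwa [mul_inv_cancel_left] at h2
  rw [← h1, hpow]
  have hcop := res_unit_coprime l ⟨k.factorial, k.factorial_pos⟩
  have h2k : 2 ∣ k.factorial := Nat.dvd_factorial two_pos hk2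
  have hodd : Nat.Coprime (res (l : Zhat) ⟨k.factorial, k.factorial_pos⟩) 2 :=
    Nat.Coprime.coprime_dvd_right h2k hcop
  have h3 : ((res (l : Zhat) ⟨k.factorial, k.factorial_pos⟩ : ℕ) : ZMod 2) = 1 := by
    have h4 : Odd (res (l : Zhat) ⟨k.factorial, k.factorial_pos⟩) :=
      Nat.coprime_two_right.1 hodd
    exact ZMod.natCast_eq_one_iff_odd.2 h4
  rw [h3, one_mul]

theorem XYZ : X * Y * Z = 1 := by
  unfold Z
  rw [mul_inv_cancel]

end G2x

theorem surj_of_hex (l : Zhatˣ) (φ : F2 →ₜ* F2) (h : Hex l φ) : Function.Surjective φ := by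
  classical
  obtain ⟨hX, ⟨g, hY⟩, ⟨g', hZ⟩⟩ := h
  by_contra hns
  rw [Function.Surjective] at hns
  push Not at hns
  obtain ⟨x0, hx0⟩ := hns
  let R : Subgroup F2 := φ.toMonoidHom.range
  have hRc : IsClosed (R : Set F2) := by
    have : (R : Set F2) = Set.range φ := rfl
    rw [this]
    exact (isCompact_range φ.continuous_toFun).isClosed
  have hxR : x0 ∉ R := by
    rintro ⟨y, hy⟩
    exact hx0 y hy
  obtain ⟨U, hUo, hRU, hxU⟩ := G2x.exists_open hRc hxR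
  have hφU : ∀ y, φ y ∈ U := fun y => hRU ⟨y, rfl⟩
  have e1 : φ Y = ppow (g⁻¹ * Y * g) (l : Zhat) := by
    have := ppow_conj Y g⁻¹ (l : Zhat)
    rw [inv_inv] at this
    rw [this, hY]
  have e2 : φ Z = ppow (g'⁻¹ * Z * g') (l : Zhat) := by
    have := ppow_conj Z g'⁻¹ (l : Zhat)
    rw [inv_inv] at this
    rw [this, hZ]
  have hXU : X ∈ U := G2x.mem_of_ppow_mem hUo l (hX ▸ hφU X)
  have hYU : g⁻¹ * Y * g ∈ U := G2x.mem_of_ppow_mem hUo l (e1 ▸ hφU Y)
  have hZU : g'⁻¹ * Z * g' ∈ U := G2x.mem_of_ppow_mem hUo l (e2 ▸ hφU Z)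
  have hfin : Finite (F2 ⧸ U) := SE.finite_of_isOpen hUo
  let F0 : F2 → ZMod 2 := fun q => if q ∈ U then 1 else 0
  have hF0 : RI U F0 := by
    intro q u hu
    show (if q * u ∈ U then (1 : ZMod 2) else 0) = if q ∈ U then 1 else 0
    rw [Subgroup.mul_mem_cancel_right U hu]
  have hF1 : RI U (fun q => F0 (x0⁻¹ * q)) := by
    intro q u hu
    show F0 (x0⁻¹ * (q * u)) = F0 (x0⁻¹ * q)
    rw [← mul_assoc]
    exact hF0 _ u hu
  have hEX : RI U (fun q => F0 q - F0 (x0⁻¹ * q)) := by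
    intro q u hu
    show F0 (q * u) - F0 (x0⁻¹ * (q * u)) = F0 q - F0 (x0⁻¹ * q)
    rw [hF0 q u hu, ← mul_assoc, hF0 _ u hu]
  have h0RI : RI U (fun _ : F2 => (0 : ZMod 2)) := fun _ _ _ => rfl
  have hs0 : csum U (fun _ : F2 => (0 : ZMod 2)) = 0 := by
    unfold csum
    exact finsum_zero
  have hsum : csum U (fun q => F0 q - F0 (x0⁻¹ * q)) + csum U (fun _ : F2 => (0 : ZMod 2)) +
      csum U (fun _ : F2 => (0 : ZMod 2)) = 0 := by
    rw [hs0, add_zero, add_zero, SE.csum_sub, SE.csum_mul_left hF0, sub_self]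
  obtain ⟨δ, m₁, m₃, hδ1, hQ, hL, hm₁, hm₃, dX, dY, dZ⟩ :=
    exists_QH_sum hUo _ _ _ hEX h0RI h0RI hsum
  have hδX : δ X = 1 := by
    have h1 := dX 1
    have h2 : m₁ (X * 1) = m₁ 1 := by
      rw [mul_one, ← one_mul X]
      exact hm₁ 1 X hXU
    rw [h2, sub_self, sub_zero, mul_one, hδ1, zero_add] at h1
    rw [h1]
    have h3 : F0 1 = 1 := if_pos U.one_mem
    have h4 : F0 (x0⁻¹ * 1) = 0 := by
      refine if_neg ?_
      rw [mul_one]
      exact fun h5 => hxU (inv_mem_iff.1 h5)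
    rw [h3, h4, sub_zero]
  have hδY : δ (g⁻¹ * Y * g) = 0 := by
    have h1 := dY g
    have h2 := hQ g (g⁻¹ * Y * g) hYU
    have h3 : g * (g⁻¹ * Y * g) = Y * g := by group
    rw [h3, h1, add_zero] at h2
    exact (left_eq_add.1 h2)
  have hδZ : δ (g'⁻¹ * Z * g') = 0 := by
    have h1 := dZ g'
    have h2 := hQ g' (g'⁻¹ * Z * g') hZU
    have h3 : g' * (g'⁻¹ * Z * g') = Z * g' := by group
    have h4 : m₃ (Z * g') = m₃ g' := by
      rw [← h3]
      exact hm₃ g' _ hZU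
    rw [h3, h1, h4, sub_self, sub_zero, add_zero] at h2
    exact (left_eq_add.1 h2)
  have a1 : δ (φ X) = 1 := by
    rw [hX, G2x.delta_ppow hUo hδ1 hQ hL hXU, hδX]
  have a2 : δ (φ Y) = 0 := by
    rw [e1, G2x.delta_ppow hUo hδ1 hQ hL hYU, hδY]
  have a3 : δ (φ Z) = 0 := by
    rw [e2, G2x.delta_ppow hUo hδ1 hQ hL hZU, hδZ]
  have h1 : φ X * φ Y * φ Z = 1 := by
    rw [← map_mul, ← map_mul, G2x.XYZ, map_one]
  have h2 : δ (φ X * φ Y * φ Z) = 1 := by
    rw [hQ _ _ (hφU Z), hQ _ _ (hφU Y), a1, a2, a3, add_zero, add_zero]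
  rw [h1, hδ1] at h2
  exact zero_ne_one h2

end Pool.Agent.H371.GT
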