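import Pool.Agent.H371.GT.Defs

set_option autoImplicit false

namespace Pool.Agent.H371.GT

open SE (AddOn LC CZ RI csum)

namespace G3x

lemma isOpen_ker_comp {H : Type} [Group H] (φ : F2 →ₜ* F2) (ρ : F2 →* H)
    (h : IsOpen (ρ.ker : Set F2)) : IsOpen ((ρ.comp φ.toMonoidHom).ker : Set F2) := by
  have h1 : ((ρ.comp φ.toMonoidHom).ker : Set F2) = φ ⁻¹' (ρ.ker : Set F2) := by
    ext a
    simp only [SetLike.mem_coe, MonoidHom.mem_ker, Set.mem_preimage]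
    exact Iff.rfl
  rw [h1]
  exact h.preimage φ.continuous_toFun

lemma finite_hom (H : Type) [Group H] [Finite H] :
    Finite {ρ : F2 →* H // IsOpen (ρ.ker : Set F2)} := by
  apply Finite.of_injective
    (fun ρ : {ρ : F2 →* H // IsOpen (ρ.ker : Set F2)} => ((ρ.1 X, ρ.1 Y) : H × H))
  rintro ⟨ρ, hρ⟩ ⟨ρ', hρ'⟩ he
  have h1 : ρ X = ρ' X := congrArg Prod.fst he
  have h2 : ρ Y = ρ' Y := congrArg Prod.snd he
  exact Subtype.ext (hom_ext_XY_finite hρ hρ' h1 h2)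

lemma exists_factor {H : Type} [Group H] [Finite H] (φ : F2 →ₜ* F2)
    (h : Function.Surjective φ) (ρ : F2 →* H) (hρ : IsOpen (ρ.ker : Set F2)) :
    ∃ ρ' : F2 →* H, ∀ x, ρ' (φ x) = ρ x := by
  have hfin := finite_hom H
  let T : {ρ : F2 →* H // IsOpen (ρ.ker : Set F2)} →
      {ρ : F2 →* H // IsOpen (ρ.ker : Set F2)} :=
    fun ρ => ⟨ρ.1.comp φ.toMonoidHom, isOpen_ker_comp φ ρ.1 ρ.2⟩
  have hT : Function.Injective T := by
    rintro ⟨ρ₁, h₁⟩ ⟨ρ₂, h₂⟩ he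
    apply Subtype.ext
    show ρ₁ = ρ₂
    have he' : ρ₁.comp φ.toMonoidHom = ρ₂.comp φ.toMonoidHom := congrArg Subtype.val he
    apply MonoidHom.ext
    intro y
    obtain ⟨x, rfl⟩ := h y
    exact DFunLike.congr_fun he' x
  obtain ⟨ρ', hρ'⟩ := (Finite.injective_iff_surjective.1 hT) ⟨ρ, hρ⟩
  refine ⟨ρ'.1, fun x => ?_⟩
  have h1 : ρ'.1.comp φ.toMonoidHom = ρ := congrArg Subtype.val hρ'
  exact DFunLike.congr_fun h1 x

end G3x

theorem inj_of_surj (φ : F2 →ₜ* F2) (h : Function.Surjective φ) : Function.Injective φ := by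
  intro a b hab
  apply eq_of_forall_mk_eq
  intro N
  have hfin : Finite (F2 ⧸ N.toSubgroup) := inferInstance
  have hker : IsOpen ((QuotientGroup.mk' N.toSubgroup).ker : Set F2) := by
    rw [QuotientGroup.ker_mk']
    exact N.isOpen'
  obtain ⟨ρ', hρ'⟩ := G3x.exists_factor φ h (QuotientGroup.mk' N.toSubgroup) hker
  have h1 := hρ' a
  have h2 := hρ' b
  rw [hab] at h1
  exact h1.symm.trans h2

end Pool.Agent.H371.GT
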