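import Pool.Agent.H371.GT.Defs

set_option autoImplicit false

namespace Pool.Agent.H371.GT

open SE (AddOn LC CZ RI csum)

namespace Q1x

section power
variable {p : ℕ} [Fact p.Prime] {Q' : Type} [Group Q'] (c : Q')

/-- powers of an element of order `p`, with exponents in `ZMod p` -/
def E (c : Q') (z : ZMod p) : Q' := c ^ z.val

variable {c}

theorem E_add (hc : orderOf c = p) (a b : ZMod p) : E c (a + b) = E c a * E c b := by
  unfold E
  rw [ZMod.val_add, ← pow_add]
  have h := pow_mod_orderOf c (a.val + b.val)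
  rw [hc] at h
  exact h

theorem E_zero : E c (0 : ZMod p) = 1 := by
  unfold E
  rw [ZMod.val_zero, pow_zero]

theorem E_inj (hc : orderOf c = p) {a b : ZMod p} (h : E c a = E c b) : a = b := by
  unfold E at h
  rw [pow_inj_mod, hc, Nat.mod_eq_of_lt (ZMod.val_lt a), Nat.mod_eq_of_lt (ZMod.val_lt b)] at h
  exact ZMod.val_injective p h

theorem exists_E (hc : orderOf c = p) {x : Q'} (hx : x ∈ Subgroup.zpowers c) :
    ∃ z : ZMod p, x = E c z := by
  have hfin : IsOfFinOrder c := by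
    rw [← orderOf_pos_iff, hc]
    exact (Fact.out : p.Prime).pos
  rw [← hfin.mem_powers_iff_mem_zpowers] at hx
  obtain ⟨n, rfl⟩ := hx
  refine ⟨(n : ZMod p), ?_⟩
  unfold E
  rw [ZMod.val_natCast]
  have h := pow_mod_orderOf c n
  rw [hc] at h
  exact h.symm

omit [Fact p.Prime] in
theorem E_mem (z : ZMod p) : E c z ∈ Subgroup.zpowers c :=
  Subgroup.pow_mem _ (Subgroup.mem_zpowers c) _

omit [Fact p.Prime] in
theorem E_comm (hz : ∀ g : Q', g * c = c * g) (z : ZMod p) (g : Q') : g * E c z = E c z * g := by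
  unfold E
  exact (Commute.pow_right (hz g) _)

end power

/-- central extensions by a group of order `p` -/
theorem central {p : ℕ} [Fact p.Prime] {Γ : Type} [Group Γ] [TopologicalSpace Γ]
    [IsTopologicalGroup Γ] (hcd : CDtop p Γ) {Q' : Type} [Group Q'] (c : Q') (hc : orderOf c = p)
    (hz : ∀ g : Q', g * c = c * g) (C : Subgroup Q') [C.Normal] (hC : C = Subgroup.zpowers c)
    (φ : Γ →* Q' ⧸ C) (hφ : IsOpen (φ.ker : Set Γ)) :
    ∃ φ' : Γ →* Q', IsOpen (φ'.ker : Set Γ) ∧ (QuotientGroup.mk' C).comp φ' = φ := by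
  have hs : ∀ a : Q' ⧸ C, ((Quotient.out a : Q') : Q' ⧸ C) = a := fun a => QuotientGroup.out_eq' a
  obtain ⟨s, hs⟩ : ∃ s : Q' ⧸ C → Q', ∀ a, ((s a : Q') : Q' ⧸ C) = a := ⟨_, hs⟩
  have hf : ∀ a b : Q' ⧸ C, ∃ z : ZMod p, s a * s b = s (a * b) * E c z := by
    intro a b
    have h1 : (s (a * b))⁻¹ * (s a * s b) ∈ C := by
      rw [← QuotientGroup.eq]
      rw [QuotientGroup.mk_mul, hs, hs, hs]
    have h1' : (s (a * b))⁻¹ * (s a * s b) ∈ Subgroup.zpowers c := hC ▸ h1
    obtain ⟨z, hz⟩ := exists_E hc h1'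
    refine ⟨z, ?_⟩
    rw [← hz]
    group
  choose f hf using hf
  have hcoc : ∀ a b d, f a b + f (a * b) d = f b d + f a (b * d) := by
    intro a b d
    apply E_inj hc
    have h1 : s a * s b * s d = s (a * b * d) * E c (f a b + f (a * b) d) := by
      rw [hf a b, mul_assoc, ← E_comm hz, ← mul_assoc, hf (a * b) d, mul_assoc, ← E_add hc,
        add_comm]
    have h2 : s a * s b * s d = s (a * b * d) * E c (f b d + f a (b * d)) := by
      rw [mul_assoc, hf b d, ← mul_assoc, hf a (b * d), mul_assoc, ← E_add hc, add_comm,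
        mul_assoc a b d]
    exact mul_left_cancel (h1.symm.trans h2)
  obtain ⟨g, ⟨W, hW, hgW⟩, hg⟩ := hcd (fun x y => f (φ x) (φ y)) (by
    intro x y z
    simp only [map_mul]
    exact hcoc _ _ _) ⟨φ.ker, hφ, by
    intro x y w hw w' hw'
    rw [MonoidHom.mem_ker] at hw hw'
    simp only [map_mul, hw, hw', mul_one]⟩
  let φ' : Γ →* Q' := MonoidHom.mk' (fun x => s (φ x) * E c (g x)) (by
    intro x y
    rw [hg, map_mul]
    have h3 : s (φ x) * E c (g x) * (s (φ y) * E c (g y)) =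
        s (φ x) * s (φ y) * (E c (g x) * E c (g y)) := by
      rw [mul_assoc, ← mul_assoc (E c (g x)), ← E_comm hz (g x) (s (φ y))]
      simp only [mul_assoc]
    rw [h3, hf, mul_assoc, ← E_add hc, ← E_add hc]
    congr 2
    ring)
  have hφ' : ∀ x, φ' x = s (φ x) * E c (g x) := fun x => rfl
  refine ⟨φ', ?_, ?_⟩
  · have hle : W ⊓ φ.ker ≤ φ'.ker := by
      intro w hw
      have hw1 := hw.1
      have hw2 : φ w = 1 := hw.2
      have h4 := hgW 1 (Subgroup.mem_top _) w (Subgroup.mem_top _) hw1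
      rw [one_mul] at h4
      rw [MonoidHom.mem_ker, hφ', hw2, h4]
      have h5 := map_one φ'
      rw [hφ', map_one] at h5
      exact h5
    have hopen : IsOpen ((W ⊓ φ.ker : Subgroup Γ) : Set Γ) := by
      rw [Subgroup.coe_inf]
      exact hW.inter hφ
    exact Subgroup.isOpen_mono hle hopen
  · ext x
    show ((s (φ x) * E c (g x) : Q') : Q' ⧸ C) = φ x
    have h6 : ((s (φ x) * E c (g x) : Q') : Q' ⧸ C) = (s (φ x) : Q' ⧸ C) := by
      rw [QuotientGroup.mk_mul_of_mem]
      rw [hC]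
      exact E_mem _
    rw [h6, hs]

/-- a nontrivial normal subgroup of a finite `p`-group contains a central element of order `p` -/
theorem exists_central {p : ℕ} [Fact p.Prime] {Q' : Type} [Group Q'] [Finite Q']
    (hQ' : IsPGroup p Q') (K : Subgroup Q') [K.Normal] (hK : K ≠ ⊥) :
    ∃ c ∈ K, orderOf c = p ∧ ∀ g : Q', g * c = c * g := by
  have hp : p ∣ Nat.card K := by
    have h1 : IsPGroup p K := hQ'.to_subgroup K
    rcases h1.card_eq_or_dvd with h | h
    · exact absurd (Subgroup.card_eq_one.1 h) hK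
    · exact h
  have hconj : IsPGroup p (ConjAct Q') := hQ'.of_equiv ConjAct.toConjAct
  have hfix : (1 : K) ∈ MulAction.fixedPoints (ConjAct Q') K := by
    intro g
    exact smul_one g
  obtain ⟨b, hb, hb1⟩ := hconj.exists_fixed_point_of_prime_dvd_card_of_fixed_point K hp hfix
  have hbc : ∀ g : Q', g * (b : Q') = b * g := by
    intro g
    have h2 : ConjAct.toConjAct g • b = b := hb (ConjAct.toConjAct g)
    have h3 : ((ConjAct.toConjAct g • b : K) : Q') = b := by rw [h2]
    rw [ConjAct.Subgroup.val_conj_smul, ConjAct.toConjAct_smul] at h3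
    have h4 : g * (b : Q') * g⁻¹ * g = b * g := by rw [h3]
    rwa [inv_mul_cancel_right] at h4
  have hb0 : (b : Q') ≠ 1 := by
    intro h
    apply hb1
    ext
    exact h.symm
  obtain ⟨k, hk⟩ := (IsPGroup.iff_orderOf.1 hQ') (b : Q')
  have hk0 : k ≠ 0 := by
    rintro rfl
    rw [pow_zero, orderOf_eq_one_iff] at hk
    exact hb0 hk
  obtain ⟨j, rfl⟩ := Nat.exists_eq_succ_of_ne_zero hk0
  refine ⟨(b : Q') ^ p ^ j, K.pow_mem b.2 _, ?_, ?_⟩
  · rw [orderOf_pow_of_dvd (pow_ne_zero _ (Fact.out : p.Prime).ne_zero) (by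
      rw [hk, pow_succ]
      exact Dvd.intro _ rfl), hk, pow_succ]
    exact Nat.mul_div_cancel_left p (pow_pos (Fact.out : p.Prime).pos j)
  · intro g
    exact (Commute.pow_right (hbc g) _)

theorem EP_aux {p : ℕ} [Fact p.Prime] {Γ : Type} [Group Γ] [TopologicalSpace Γ]
    [IsTopologicalGroup Γ] (hcd : CDtop p Γ) (n : ℕ) :
    ∀ (Q' Q : Type) [Group Q'] [Group Q] [Finite Q'], Nat.card Q' = n → IsPGroup p Q' →
    ∀ (π : Q' →* Q), Function.Surjective π → ∀ (φ : Γ →* Q), IsOpen (φ.ker : Set Γ) →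
    ∃ φ' : Γ →* Q', IsOpen (φ'.ker : Set Γ) ∧ π.comp φ' = φ := by
  induction n using Nat.strong_induction_on with
  | _ n ih =>
    intro Q' Q _ _ _ hn hQ' π hπ φ hφ
    by_cases hinj : Function.Injective π
    · let e : Q' ≃* Q := MulEquiv.ofBijective π ⟨hinj, hπ⟩
      refine ⟨e.symm.toMonoidHom.comp φ, ?_, ?_⟩
      · have : (e.symm.toMonoidHom.comp φ).ker = φ.ker := by
          ext x
          simp only [MonoidHom.mem_ker, MonoidHom.comp_apply]
          exact e.symm.map_eq_one_iff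
        rw [this]
        exact hφ
      · ext x
        exact e.apply_symm_apply (φ x)
    · have hK : π.ker ≠ ⊥ := fun h => hinj ((MonoidHom.ker_eq_bot_iff π).1 h)
      obtain ⟨c, hcK, hc, hz⟩ := exists_central hQ' π.ker hK
      obtain ⟨C, hC⟩ : ∃ C : Subgroup Q', C = Subgroup.zpowers c := ⟨_, rfl⟩
      have hCn : C.Normal := by
        refine ⟨fun x hx g => ?_⟩
        have h1 : g * x * g⁻¹ = x := by
          rw [hC, Subgroup.mem_zpowers_iff] at hx
          obtain ⟨k, rfl⟩ := hx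
          have h2 : g * c ^ k = c ^ k * g := Commute.zpow_right (hz g) k
          rw [h2, mul_inv_cancel_right]
        rw [h1]
        exact hx
      have hCK : C ≤ π.ker := by
        rw [hC, Subgroup.zpowers_le]
        exact hcK
      have hcard : Nat.card (Q' ⧸ C) < n := by
        have h1 := Subgroup.card_eq_card_quotient_mul_card_subgroup C
        have h2 : Nat.card C = p := by rw [hC, Nat.card_zpowers, hc]
        rw [h2, hn] at h1
        have h3 : 0 < Nat.card (Q' ⧸ C) := Nat.card_pos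
        rw [h1]
        exact lt_mul_of_one_lt_right h3 (Fact.out : p.Prime).one_lt
      let π'' : Q' ⧸ C →* Q := QuotientGroup.lift C π hCK
      have hπ'' : Function.Surjective π'' := by
        intro y
        obtain ⟨x, rfl⟩ := hπ y
        exact ⟨(x : Q' ⧸ C), rfl⟩
      obtain ⟨φ'', hφ'', hcomp⟩ := ih _ hcard (Q' ⧸ C) Q rfl (hQ'.to_quotient C) π'' hπ'' φ hφ
      obtain ⟨φ', hφ', hcomp'⟩ := central hcd c hc hz C hC φ'' hφ''
      refine ⟨φ', hφ', ?_⟩
      rw [← hcomp, ← hcomp']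
      rfl

end Q1x

/-- embedding problems with kernel a finite `p`-group can be solved -/
theorem EP {p : ℕ} [Fact p.Prime] {Γ : Type} [Group Γ] [TopologicalSpace Γ] [IsTopologicalGroup Γ]
    (hcd : CDtop p Γ) {Q' Q : Type} [Group Q'] [Group Q] [Finite Q'] (hQ' : IsPGroup p Q')
    (π : Q' →* Q) (hπ : Function.Surjective π) (φ : Γ →* Q) (hφ : IsOpen (φ.ker : Set Γ)) :
    ∃ φ' : Γ →* Q', IsOpen (φ'.ker : Set Γ) ∧ π.comp φ' = φ :=
  Q1x.EP_aux hcd _ Q' Q rfl hQ' π hπ φ hφ

end Pool.Agent.H371.GT
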