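import Pool.Agent.H371.GT.Defs

set_option autoImplicit false

namespace Pool.Agent.H371.GT

open SE (AddOn LC CZ RI csum)

namespace Q2x

open Module

section

variable {p : ℕ} [Fact p.Prime] {V : Type} [AddCommGroup V] [Module (ZMod p) V]

/-- the coordinates of an element of the submodule -/
theorem snoc_repr {n : ℕ} {N : Submodule (ZMod p) V} (b' : Basis (Fin n) (ZMod p) N) (w : V)
    (hli : ∀ (c : ZMod p), ∀ x ∈ N, c • w + x = 0 → c = 0)
    (hsp : ∀ z : V, ∃ c : ZMod p, z + c • w ∈ N) (x : N) :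
    (Basis.mkFinSnoc b' w hli hsp).repr (x : V) (Fin.last n) = 0 ∧
      ∀ i : Fin n, (Basis.mkFinSnoc b' w hli hsp).repr (x : V) i.castSucc = b'.repr x i := by
  obtain ⟨b, hb⟩ : ∃ b, b = Basis.mkFinSnoc b' w hli hsp := ⟨_, rfl⟩
  have hcast : ∀ i : Fin n, ((b' i : N) : V) = b i.castSucc := by
    intro i
    rw [hb, Basis.coe_mkFinSnoc, Fin.snoc_castSucc]
    rfl
  rw [← hb]
  constructor
  · have h1 : (b.coord (Fin.last n)).comp N.subtype = 0 := by
      refine b'.ext fun i => ?_
      rw [LinearMap.comp_apply, Submodule.subtype_apply, hcast, Basis.coord_apply, Basis.repr_self,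
        Finsupp.single_eq_of_ne (Fin.castSucc_ne_last i).symm]
      rfl
    exact LinearMap.congr_fun h1 x
  · intro i
    have h1 : (b.coord i.castSucc).comp N.subtype = b'.coord i := by
      refine b'.ext fun j => ?_
      rw [LinearMap.comp_apply, Submodule.subtype_apply, hcast, Basis.coord_apply, Basis.repr_self,
        Basis.coord_apply, Basis.repr_self]
      by_cases h : i = j
      · rw [h, Finsupp.single_eq_same, Finsupp.single_eq_same]
      · rw [Finsupp.single_eq_of_ne h,
          Finsupp.single_eq_of_ne (fun h' => h (Fin.castSucc_injective n h'))]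
    exact LinearMap.congr_fun h1 x

/-- an invariant functional -/
theorem exists_fun (P : Type) [Group P] (hP : IsPGroup p P) [Module.Finite (ZMod p) V]
    (n : ℕ) (hn : finrank (ZMod p) V = n + 1) (ρ : P →* (V →ₗ[ZMod p] V)) :
    ∃ φ : V →ₗ[ZMod p] ZMod p, φ ≠ 0 ∧ ∀ y v, φ (ρ y v) = φ v := by
  let hact : MulAction P (Dual (ZMod p) V) :=
    { smul := fun y φ => φ.comp (ρ y⁻¹)
      one_smul := by
        intro φ
        show φ.comp (ρ 1⁻¹) = φ
        rw [inv_one, map_one]
        exact LinearMap.ext fun _ => rfl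
      mul_smul := by
        intro x y φ
        show φ.comp (ρ (x * y)⁻¹) = (φ.comp (ρ y⁻¹)).comp (ρ x⁻¹)
        rw [mul_inv_rev, map_mul]
        exact LinearMap.ext fun _ => rfl }
  have hfinD : Finite (Dual (ZMod p) V) := Module.finite_of_finite (ZMod p)
  have hcard : p ∣ Nat.card (Dual (ZMod p) V) := by
    rw [natCard_eq_pow_finrank (K := ZMod p), Subspace.dual_finrank_eq, hn, Nat.card_zmod]
    exact dvd_pow_self p (Nat.succ_ne_zero n)
  have h0 : (0 : Dual (ZMod p) V) ∈ MulAction.fixedPoints P (Dual (ZMod p) V) := by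
    intro y
    show (0 : Dual (ZMod p) V).comp (ρ y⁻¹) = 0
    exact LinearMap.ext fun _ => rfl
  obtain ⟨φ, hφ, hne⟩ := hP.exists_fixed_point_of_prime_dvd_card_of_fixed_point
    (Dual (ZMod p) V) hcard h0
  refine ⟨φ, fun h => hne h.symm, fun y v => ?_⟩
  have h1 : φ.comp (ρ (y⁻¹)⁻¹) = φ := hφ y⁻¹
  rw [inv_inv] at h1
  exact LinearMap.congr_fun h1 v

end

/-- unitriangular bases -/
theorem exists_basis (p : ℕ) [Fact p.Prime] (P : Type) [Group P] (hP : IsPGroup p P) (n : ℕ) :
    ∀ (V : Type) [AddCommGroup V] [Module (ZMod p) V] [Module.Finite (ZMod p) V],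
    finrank (ZMod p) V = n → ∀ ρ : P →* (V →ₗ[ZMod p] V), ∃ b : Basis (Fin n) (ZMod p) V,
      (∀ y i j, j < i → b.repr (ρ y (b j)) i = 0) ∧ ∀ y i, b.repr (ρ y (b i)) i = 1 := by
  induction n with
  | zero =>
    intro V _ _ _ hn ρ
    exact ⟨finBasisOfFinrankEq (ZMod p) V hn, fun y i => i.elim0, fun y i => i.elim0⟩
  | succ n ih =>
    intro V _ _ _ hn ρ
    obtain ⟨φ, hφ0, hφ⟩ := exists_fun P hP n hn ρ
    obtain ⟨w, hw⟩ : ∃ w : V, φ w = 1 := by
      obtain ⟨v, hv⟩ : ∃ v, φ v ≠ 0 := by
        by_contra hcon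
        push Not at hcon
        exact hφ0 (LinearMap.ext hcon)
      refine ⟨(φ v)⁻¹ • v, ?_⟩
      rw [map_smul, smul_eq_mul, inv_mul_cancel₀ hv]
    obtain ⟨N, hN⟩ : ∃ N : Submodule (ZMod p) V, N = LinearMap.ker φ := ⟨_, rfl⟩
    have hmem : ∀ x, x ∈ N ↔ φ x = 0 := by
      intro x
      rw [hN, LinearMap.mem_ker]
    have hNr : finrank (ZMod p) N = n := by
      have h1 := Module.Dual.finrank_ker_add_one_of_ne_zero (f := φ) hφ0
      rw [hn] at h1
      rw [hN]
      omega
    have hinv : ∀ y, ∀ x ∈ N, ρ y x ∈ N := by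
      intro y x hx
      rw [hmem] at hx ⊢
      rw [hφ, hx]
    obtain ⟨σ, hσ⟩ : ∃ σ : P →* (N →ₗ[ZMod p] N), ∀ y (x : N), ((σ y x : N) : V) = ρ y x := by
      refine ⟨{ toFun := fun y => (ρ y).restrict (hinv y)
                map_one' := ?_
                map_mul' := ?_ }, fun y x => rfl⟩
      · refine LinearMap.ext fun x => Subtype.ext ?_
        show ρ 1 x = x
        rw [map_one]
        rfl
      · intro y z
        refine LinearMap.ext fun x => Subtype.ext ?_
        show ρ (y * z) x = ρ y (ρ z x)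
        rw [map_mul]
        rfl
    obtain ⟨b', hb1, hb2⟩ := ih N hNr σ
    have hli : ∀ (c : ZMod p), ∀ x ∈ N, c • w + x = 0 → c = 0 := by
      intro c x hx h
      have h1 := congrArg φ h
      rw [map_add, map_smul, hw, (hmem x).1 hx, map_zero, add_zero, smul_eq_mul, mul_one] at h1
      exact h1
    have hsp : ∀ z : V, ∃ c : ZMod p, z + c • w ∈ N := by
      intro z
      refine ⟨-φ z, ?_⟩
      rw [hmem, map_add, map_smul, hw, smul_eq_mul, mul_one, add_neg_cancel]
    have hrepr := snoc_repr b' w hli hsp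
    obtain ⟨b, hb⟩ : ∃ b, b = Basis.mkFinSnoc b' w hli hsp := ⟨_, rfl⟩
    rw [← hb] at hrepr
    have hcast : ∀ i : Fin n, b i.castSucc = ((b' i : N) : V) := by
      intro i
      rw [hb, Basis.coe_mkFinSnoc, Fin.snoc_castSucc]
      rfl
    have hlast : b (Fin.last n) = w := by
      rw [hb, Basis.coe_mkFinSnoc, Fin.snoc_last]
    have hcs : ∀ y (i : Fin n), ρ y (b i.castSucc) = ((σ y (b' i) : N) : V) := by
      intro y i
      rw [hcast, hσ]
    refine ⟨b, fun y i j hij => ?_, fun y i => ?_⟩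
    · obtain ⟨j', rfl⟩ : ∃ j' : Fin n, j = j'.castSucc := by
        refine ⟨⟨j, ?_⟩, Fin.ext rfl⟩
        have h1 := i.2
        have h2 : (j : ℕ) < i := hij
        omega
      rw [hcs]
      induction i using Fin.lastCases with
      | last => exact (hrepr _).1
      | cast i' =>
        rw [(hrepr _).2]
        exact hb1 y i' j' (Fin.castSucc_lt_castSucc_iff.1 hij)
    · induction i using Fin.lastCases with
      | last =>
        rw [hlast]
        have h1 : ρ y w - w ∈ N := by
          rw [hmem, map_sub, hφ, sub_self]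
        have h2 : ρ y w = w + ((⟨ρ y w - w, h1⟩ : N) : V) := by
          show ρ y w = w + (ρ y w - w)
          rw [add_sub_cancel]
        rw [h2, map_add, Finsupp.add_apply, (hrepr _).1, add_zero, ← hlast, Basis.repr_self,
          Finsupp.single_eq_same]
      | cast i' =>
        rw [hcs, (hrepr _).2]
        exact hb2 y i'

/-- the regular representation -/
noncomputable def reg (p : ℕ) (P : Type) [Group P] : P →* ((P → ZMod p) →ₗ[ZMod p] (P → ZMod p)) where
  toFun y :=
    { toFun := fun f x => f (y⁻¹ * x)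
      map_add' := fun _ _ => rfl
      map_smul' := fun _ _ => rfl }
  map_one' := by
    refine LinearMap.ext fun f => funext fun x => ?_
    show f (1⁻¹ * x) = f x
    rw [inv_one, one_mul]
  map_mul' y z := by
    refine LinearMap.ext fun f => funext fun x => ?_
    show f ((y * z)⁻¹ * x) = f (z⁻¹ * (y⁻¹ * x))
    rw [mul_inv_rev, mul_assoc]

end Q2x

open Q2x in
/-- a finite `p`-group has a faithful unitriangular representation over `ZMod p` -/
theorem exists_unitri (p : ℕ) [Fact p.Prime] (P : Type) [Group P] [Finite P] (hP : IsPGroup p P) :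
    ∃ (N : ℕ) (ρ : P →* Matrix (Fin N) (Fin N) (ZMod p)), (∀ y i j, j < i → ρ y i j = 0) ∧
      (∀ y i, ρ y i i = 1) ∧ ∀ y, ρ y = 1 → y = 1 := by
  classical
  obtain ⟨b, hb1, hb2⟩ := exists_basis p P hP _ (P → ZMod p) rfl (reg p P)
  have happ : ∀ y i j, LinearMap.toMatrixAlgEquiv b (reg p P y) i j =
      b.repr (reg p P y (b j)) i := fun y i j => LinearMap.toMatrixAlgEquiv_apply b _ i j
  refine ⟨_, ((LinearMap.toMatrixAlgEquiv b).toAlgHom.toRingHom.toMonoidHom).comp (reg p P),
    fun y i j hij => ?_, fun y i => ?_, fun y hy => ?_⟩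
  · exact (happ y i j).trans (hb1 y i j hij)
  · exact (happ y i i).trans (hb2 y i)
  · have h1 : LinearMap.toMatrixAlgEquiv b (reg p P y) = 1 := hy
    have h2 : reg p P y = 1 := by
      refine (LinearMap.toMatrixAlgEquiv b).injective ?_
      rw [h1, map_one]
    have h3 : reg p P y (Pi.single 1 1) y = (Pi.single (1 : P) (1 : ZMod p) : P → ZMod p) y := by
      rw [h2]
      rfl
    have h4 : reg p P y (Pi.single 1 1) y = (Pi.single (1 : P) (1 : ZMod p) : P → ZMod p) (y⁻¹ * y) :=
      rfl
    rw [h4, inv_mul_cancel, Pi.single_eq_same] at h3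
    by_contra hne
    rw [Pi.single_eq_of_ne hne] at h3
    exact one_ne_zero h3

end Pool.Agent.H371.GT
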