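import Pool.Agent.H371.GT.Q1
import Pool.Agent.H371.GT.Q2

set_option autoImplicit false

namespace Pool.Agent.H371.GT

open SE (AddOn LC CZ RI csum)

namespace Q3x

section ut
variable {N : ℕ} {R : Type} [CommRing R]

/-- unitriangular matrices -/
def UTri (A : Matrix (Fin N) (Fin N) R) : Prop := (∀ i j, j < i → A i j = 0) ∧ ∀ i, A i i = 1

theorem UTri.one : UTri (1 : Matrix (Fin N) (Fin N) R) :=
  ⟨fun _ _ h => Matrix.one_apply_ne h.ne', fun i => Matrix.one_apply_eq i⟩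

theorem diag_mul {A B : Matrix (Fin N) (Fin N) R} (hA : ∀ i j, j < i → A i j = 0)
    (hB : ∀ i j, j < i → B i j = 0) (i : Fin N) : (A * B) i i = A i i * B i i := by
  rw [Matrix.mul_apply]
  refine Finset.sum_eq_single_of_mem i (Finset.mem_univ i) fun k _ hk => ?_
  rcases lt_or_gt_of_ne hk with h | h
  · rw [hA i k h, zero_mul]
  · rw [hB k i h, mul_zero]

theorem UTri.mul {A B : Matrix (Fin N) (Fin N) R} (hA : UTri A) (hB : UTri B) : UTri (A * B) := by
  refine ⟨fun i j h => ?_, fun i => ?_⟩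
  · rw [Matrix.mul_apply]
    refine Finset.sum_eq_zero fun k _ => ?_
    rcases lt_or_ge k i with hk | hk
    · rw [hA.1 i k hk, zero_mul]
    · rw [hB.1 k j (lt_of_lt_of_le h hk), mul_zero]
  · rw [diag_mul hA.1 hB.1, hA.2, hB.2, one_mul]

theorem UTri.map {S : Type} [CommRing S] (f : R →+* S) {A : Matrix (Fin N) (Fin N) R}
    (hA : UTri A) : UTri (A.map f) := by
  refine ⟨fun i j h => ?_, fun i => ?_⟩
  · rw [Matrix.map_apply, hA.1 i j h, map_zero]
  · rw [Matrix.map_apply, hA.2 i, map_one]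

theorem UTri.det {A : Matrix (Fin N) (Fin N) R} (hA : UTri A) : A.det = 1 := by
  rw [Matrix.det_of_isUpperTriangular (fun i j h => hA.1 i j h)]
  exact Finset.prod_eq_one fun i _ => hA.2 i

theorem UTri.exists_inv {A : Matrix (Fin N) (Fin N) R} (hA : UTri A) :
    ∃ B, UTri B ∧ A * B = 1 ∧ B * A = 1 := by
  have hd : IsUnit A.det := by
    rw [hA.det]
    exact isUnit_one
  have h1 : A * A⁻¹ = 1 := Matrix.mul_nonsing_inv A hd
  have h2 : A⁻¹ * A = 1 := Matrix.nonsing_inv_mul A hd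
  let _ : Invertible A := Matrix.invertibleOfIsUnitDet A hd
  have h3 : ∀ i j, j < i → A⁻¹ i j = 0 := fun i j h =>
    Matrix.blockTriangular_inv_of_blockTriangular (M := A) (b := id)
      (fun i j h => hA.1 i j h) (show id j < id i from h)
  refine ⟨A⁻¹, ⟨h3, fun i => ?_⟩, h1, h2⟩
  have h4 := diag_mul hA.1 h3 i
  rw [h1, Matrix.one_apply_eq, hA.2, one_mul] at h4
  exact h4.symm

variable (N R) in
/-- the group of the unitriangular matrices -/
def UT : Subgroup (Matrix (Fin N) (Fin N) R)ˣ where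
  carrier := {u | UTri (u : Matrix (Fin N) (Fin N) R) ∧
    UTri ((u⁻¹ : (Matrix (Fin N) (Fin N) R)ˣ) : Matrix (Fin N) (Fin N) R)}
  mul_mem' := by
    rintro u v ⟨h1, h2⟩ ⟨h3, h4⟩
    refine ⟨?_, ?_⟩
    · rw [Units.val_mul]
      exact h1.mul h3
    · rw [mul_inv_rev, Units.val_mul]
      exact h4.mul h2
  one_mem' := by
    refine ⟨?_, ?_⟩
    · rw [Units.val_one]
      exact UTri.one
    · rw [inv_one, Units.val_one]
      exact UTri.one
  inv_mem' := by
    rintro u ⟨h1, h2⟩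
    exact ⟨h2, by rwa [inv_inv]⟩

/-- the matrix -/
def mt (u : UT N R) : Matrix (Fin N) (Fin N) R := ((u : (Matrix (Fin N) (Fin N) R)ˣ) :
  Matrix (Fin N) (Fin N) R)

theorem mt_one : mt (1 : UT N R) = 1 := rfl

theorem mt_mul (u v : UT N R) : mt (u * v) = mt u * mt v := rfl

theorem mt_utri (u : UT N R) : UTri (mt u) := u.2.1

theorem mt_inj : Function.Injective (mt : UT N R → Matrix (Fin N) (Fin N) R) :=
  fun _ _ h => Subtype.ext (Units.ext h)

theorem exists_mt {A : Matrix (Fin N) (Fin N) R} (hA : UTri A) : ∃ u : UT N R, mt u = A := by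
  obtain ⟨B, hB, h1, h2⟩ := hA.exists_inv
  exact ⟨⟨⟨A, B, h1, h2⟩, hA, hB⟩, rfl⟩

/-- a multiplicative family of unitriangular matrices -/
theorem exists_hom {G : Type} [Group G] (f : G → Matrix (Fin N) (Fin N) R)
    (hf : ∀ x, UTri (f x)) (hm : ∀ x y, f (x * y) = f x * f y) :
    ∃ φ : G →* UT N R, ∀ x, mt (φ x) = f x := by
  choose φ hφ using fun x => exists_mt (hf x)
  refine ⟨MonoidHom.mk' φ fun x y => ?_, hφ⟩
  apply mt_inj
  rw [mt_mul, hφ, hφ, hφ, hm]

/-- reduction -/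
theorem exists_red {S : Type} [CommRing S] (f : R →+* S) :
    ∃ φ : UT N R →* UT N S, ∀ u, mt (φ u) = (mt u).map f := by
  refine exists_hom (fun u => (mt u).map f) (fun u => (mt_utri u).map f) fun u v => ?_
  rw [mt_mul, Matrix.map_mul]

theorem red_surj {S : Type} [CommRing S] (f : R →+* S) (hf : Function.Surjective f)
    (φ : UT N R →* UT N S) (hφ : ∀ u, mt (φ u) = (mt u).map f) : Function.Surjective φ := by
  classical
  intro v
  choose g hg using hf
  have hA : UTri (Matrix.of fun i j => if j < i then (0 : R) else if i = j then 1 else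
      g (mt v i j)) := by
    refine ⟨fun i j h => ?_, fun i => ?_⟩
    · rw [Matrix.of_apply, if_pos h]
    · rw [Matrix.of_apply, if_neg (lt_irrefl i), if_pos rfl]
  obtain ⟨u, hu⟩ := exists_mt hA
  refine ⟨u, mt_inj ?_⟩
  rw [hφ, hu]
  ext i j
  rw [Matrix.map_apply, Matrix.of_apply]
  have hv := mt_utri v
  split_ifs with h1 h2
  · rw [map_zero, hv.1 i j h1]
  · rw [map_one, ← h2, hv.2]
  · exact hg _

instance [Finite R] : Finite (UT N R) := Finite.of_injective mt mt_inj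

theorem card_ut : Nat.card (UT N R) =
    Nat.card R ^ Nat.card {q : Fin N × Fin N // q.1 < q.2} := by
  classical
  rw [← Nat.card_fun]
  refine Nat.card_congr (Equiv.ofBijective (fun u q => mt u q.1.1 q.1.2) ⟨?_, ?_⟩)
  · intro u v h
    apply mt_inj
    ext i j
    rcases lt_trichotomy i j with h1 | h1 | h1
    · exact congrFun h ⟨(i, j), h1⟩
    · rw [h1, (mt_utri u).2, (mt_utri v).2]
    · rw [(mt_utri u).1 i j h1, (mt_utri v).1 i j h1]
  · intro g
    have hA : UTri (Matrix.of fun i j => if h : i < j then g ⟨(i, j), h⟩ else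
        if i = j then (1 : R) else 0) := by
      refine ⟨fun i j h => ?_, fun i => ?_⟩
      · rw [Matrix.of_apply, dif_neg (not_lt.2 h.le), if_neg h.ne']
      · rw [Matrix.of_apply, dif_neg (lt_irrefl i), if_pos rfl]
    obtain ⟨u, hu⟩ := exists_mt hA
    refine ⟨u, funext fun q => ?_⟩
    change mt u q.1.1 q.1.2 = g q
    rw [hu, Matrix.of_apply, dif_pos q.2]

end ut

section lim
variable {p : ℕ} [hp : Fact p.Prime]

omit hp in
theorem isPGroup_ut (N k : ℕ) : IsPGroup p (UT N (ZMod (p ^ k))) := by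
  refine IsPGroup.of_card (n := k * Nat.card {q : Fin N × Fin N // q.1 < q.2}) ?_
  rw [card_ut, Nat.card_zmod, pow_mul]

variable (p) in
/-- compatible sequences -/
def CS : Subring (∀ k : ℕ, ZMod (p ^ k)) where
  carrier := {a | ∀ (k l : ℕ) (h : k ≤ l), ZMod.castHom (pow_dvd_pow p h) (ZMod (p ^ k)) (a l) =
    a k}
  mul_mem' := by
    intro a b ha hb k l h
    rw [Pi.mul_apply, map_mul, ha k l h, hb k l h, Pi.mul_apply]
  one_mem' := by
    intro k l h
    rw [Pi.one_apply, map_one, Pi.one_apply]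
  add_mem' := by
    intro a b ha hb k l h
    rw [Pi.add_apply, map_add, ha k l h, hb k l h, Pi.add_apply]
  zero_mem' := by
    intro k l h
    rw [Pi.zero_apply, map_zero, Pi.zero_apply]
  neg_mem' := by
    intro a ha k l h
    rw [Pi.neg_apply, map_neg, ha k l h, Pi.neg_apply]

theorem exists_lim' (a : ∀ k : ℕ, ZMod (p ^ k)) (ha : ∀ (k l : ℕ) (h : k ≤ l),
    ZMod.castHom (pow_dvd_pow p h) (ZMod (p ^ k)) (a l) = a k) :
    ∃ z : ℤ_[p], ∀ k, PadicInt.toZModPow k z = a k := by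
  let f : ∀ k : ℕ, CS p →+* ZMod (p ^ k) := fun k =>
    (Pi.evalRingHom (fun k : ℕ => ZMod (p ^ k)) k).comp (CS p).subtype
  have hf : ∀ (k l : ℕ) (h : k ≤ l),
      (ZMod.castHom (pow_dvd_pow p h) (ZMod (p ^ k))).comp (f l) = f k := by
    intro k l h
    ext b
    exact b.2 k l h
  refine ⟨PadicInt.lift hf ⟨a, ha⟩, fun k => ?_⟩
  exact congrArg (fun g : CS p →+* ZMod (p ^ k) => g ⟨a, ha⟩) (PadicInt.lift_spec hf k)

theorem exists_lim (a : ∀ k : ℕ, ZMod (p ^ (k + 1))) (ha : ∀ k : ℕ,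
    ZMod.castHom (pow_dvd_pow p (Nat.le_succ (k + 1))) (ZMod (p ^ (k + 1))) (a (k + 1)) = a k) :
    ∃ z : ℤ_[p], ∀ k, PadicInt.toZModPow (k + 1) z = a k := by
  let b : ∀ k : ℕ, ZMod (p ^ k) := fun k => match k with
    | 0 => 0
    | k + 1 => a k
  have hs : ∀ k : ℕ, ZMod.castHom (pow_dvd_pow p (Nat.le_succ k)) (ZMod (p ^ k)) (b (k + 1)) =
      b k := by
    intro k
    rcases k with _ | k
    · have : Subsingleton (ZMod (p ^ 0)) := by
        rw [pow_zero]
        infer_instance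
      exact Subsingleton.elim _ _
    · exact ha k
  have hb : ∀ (k l : ℕ) (h : k ≤ l),
      ZMod.castHom (pow_dvd_pow p h) (ZMod (p ^ k)) (b l) = b k := by
    intro k l h
    induction l, h using Nat.le_induction with
    | base =>
      rw [ZMod.castHom_self]
      rfl
    | succ l hl ih =>
      rw [← ih, ← hs l]
      have e : ZMod.castHom (pow_dvd_pow p (Nat.le_succ_of_le hl)) (ZMod (p ^ k)) =
          (ZMod.castHom (pow_dvd_pow p hl) (ZMod (p ^ k))).comp
            (ZMod.castHom (pow_dvd_pow p (Nat.le_succ l)) (ZMod (p ^ l))) :=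
        Subsingleton.elim _ _
      exact congrArg (fun g : ZMod (p ^ (l + 1)) →+* ZMod (p ^ k) => g (b (l + 1))) e
  obtain ⟨z, hz⟩ := exists_lim' b hb
  exact ⟨z, fun k => hz (k + 1)⟩

theorem ext_succ {x y : ℤ_[p]}
    (h : ∀ k, PadicInt.toZModPow (k + 1) x = PadicInt.toZModPow (k + 1) y) : x = y := by
  rw [← PadicInt.ext_of_toZModPow]
  intro k
  rcases k with _ | k
  · have : Subsingleton (ZMod (p ^ 0)) := by
      rw [pow_zero]
      infer_instance
    exact Subsingleton.elim _ _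
  · exact h k

end lim

end Q3x

open Q3x in
/-- points are separated by unitriangular representations over `ℤ_[p]` -/
theorem sep_of_cd {p : ℕ} [Fact p.Prime] {Γ : Type} [Group Γ] [TopologicalSpace Γ]
    [IsTopologicalGroup Γ] (hcd : CDtop p Γ)
    (hW : ∀ x : Γ, x ≠ 1 → ∃ W : Subgroup Γ, W.Normal ∧ IsOpen (W : Set Γ) ∧ W.FiniteIndex ∧
      (∀ y : Γ, ∃ k : ℕ, y ^ p ^ k ∈ W) ∧ x ∉ W) :
    ∀ x : Γ, x ≠ 1 → ∃ (N : ℕ) (ρ : Γ →* Matrix (Fin N) (Fin N) ℤ_[p]),
      (∀ y i j, j < i → ρ y i j = 0) ∧ (∀ y i, ρ y i i = 1) ∧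
      (∀ i j, CZ p (⊤ : Subgroup Γ) (fun y => ρ y i j)) ∧ ρ x ≠ 1 := by
  intro x hx
  obtain ⟨W, hWn, hWo, hWf, hWp, hxW⟩ := hW x hx
  have hPg : IsPGroup p (Γ ⧸ W) := by
    intro q
    obtain ⟨y, rfl⟩ := QuotientGroup.mk_surjective q
    obtain ⟨k, hk⟩ := hWp y
    refine ⟨k, ?_⟩
    rw [← QuotientGroup.mk_pow]
    exact (QuotientGroup.eq_one_iff _).2 hk
  have : Finite (Γ ⧸ W) := Subgroup.finite_quotient_of_finiteIndex
  have key : ∀ q : ℕ, q = p → ∃ (N : ℕ) (ρ : (Γ ⧸ W) →* Matrix (Fin N) (Fin N) (ZMod q)),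
      (∀ y i j, j < i → ρ y i j = 0) ∧ (∀ y i, ρ y i i = 1) ∧ ∀ y, ρ y = 1 → y = 1 := by
    rintro q rfl
    exact exists_unitri q (Γ ⧸ W) hPg
  obtain ⟨N, ρ₀, h1, h2, h3⟩ := key (p ^ (0 + 1)) (by rw [zero_add, pow_one])
  have hne : ∀ k : ℕ, NeZero (p ^ k) := fun k =>
    ⟨pow_ne_zero k (Fact.out : p.Prime).ne_zero⟩
  -- the first homomorphism
  obtain ⟨φ₀', hφ₀'⟩ := exists_hom (fun y => ρ₀ y) (fun y => ⟨h1 y, h2 y⟩)
    (fun y z => map_mul ρ₀ y z)
  let φ₀ : Γ →* UT N (ZMod (p ^ (0 + 1))) := φ₀'.comp (QuotientGroup.mk' W)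
  have hopen : ∀ {G : Type} [Group G] (φ : Γ →* G), W ≤ φ.ker → IsOpen (φ.ker : Set Γ) := by
    intro G _ φ h
    exact Subgroup.isOpen_mono h hWo
  have hφ₀ : IsOpen (φ₀.ker : Set Γ) := by
    refine hopen φ₀ fun w hw => ?_
    rw [MonoidHom.mem_ker]
    change φ₀' (w : Γ ⧸ W) = 1
    rw [(QuotientGroup.eq_one_iff w).2 hw, map_one]
  -- reductions
  choose red hred using fun k : ℕ => exists_red (N := N)
    (ZMod.castHom (pow_dvd_pow p (Nat.le_succ (k + 1))) (ZMod (p ^ (k + 1))))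
  have hsurj : ∀ k, Function.Surjective (red k) := fun k =>
    red_surj _ (ZMod.castHom_surjective _) (red k) (hred k)
  have step : ∀ k (φ : {φ : Γ →* UT N (ZMod (p ^ (k + 1))) // IsOpen (φ.ker : Set Γ)}),
      ∃ φ' : {φ' : Γ →* UT N (ZMod (p ^ (k + 1 + 1))) // IsOpen (φ'.ker : Set Γ)},
        (red k).comp φ'.1 = φ.1 := by
    intro k φ
    obtain ⟨φ', h, h'⟩ := EP hcd (isPGroup_ut N (k + 1 + 1)) (red k) (hsurj k) φ.1 φ.2
    exact ⟨⟨φ', h⟩, h'⟩
  choose next hnext using step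
  let seq : ∀ k : ℕ, {φ : Γ →* UT N (ZMod (p ^ (k + 1))) // IsOpen (φ.ker : Set Γ)} :=
    fun k => Nat.rec ⟨φ₀, hφ₀⟩ (fun k φ => next k φ) k
  have hseq : ∀ k, (red k).comp (seq (k + 1)).1 = (seq k).1 := fun k => hnext k (seq k)
  have hlim : ∀ (y : Γ) (i j : Fin N), ∃ z : ℤ_[p], ∀ k,
      PadicInt.toZModPow (k + 1) z = mt ((seq k).1 y) i j := by
    intro y i j
    refine exists_lim (fun k => mt ((seq k).1 y) i j) fun k => ?_
    have h4 := congrArg (fun A : Matrix (Fin N) (Fin N) (ZMod (p ^ (k + 1))) => A i j)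
      (hred k ((seq (k + 1)).1 y))
    have h5 : red k ((seq (k + 1)).1 y) = (seq k).1 y :=
      congrArg (fun ψ : Γ →* UT N (ZMod (p ^ (k + 1))) => ψ y) (hseq k)
    rw [h5] at h4
    exact h4.symm
  choose z hz using hlim
  have hzm : ∀ y y' i j, z (y * y') i j = ∑ m, z y i m * z y' m j := by
    intro y y' i j
    refine ext_succ fun k => ?_
    rw [hz, map_sum, map_mul, mt_mul, Matrix.mul_apply]
    refine Finset.sum_congr rfl fun m _ => ?_
    rw [map_mul, hz, hz]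
  have hz1 : ∀ i j, z 1 i j = (1 : Matrix (Fin N) (Fin N) ℤ_[p]) i j := by
    intro i j
    refine ext_succ fun k => ?_
    rw [hz, map_one, mt_one, Matrix.one_apply, Matrix.one_apply]
    split_ifs
    · rw [map_one]
    · rw [map_zero]
  refine ⟨N, ⟨⟨fun y => Matrix.of (z y), ?_⟩, ?_⟩, ?_, ?_, ?_, ?_⟩
  · ext i j
    exact hz1 i j
  · intro y y'
    ext i j
    rw [Matrix.mul_apply]
    exact hzm y y' i j
  · intro y i j hij
    change z y i j = 0
    refine ext_succ fun k => ?_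
    rw [hz, map_zero, (mt_utri _).1 i j hij]
  · intro y i
    change z y i i = 1
    refine ext_succ fun k => ?_
    rw [hz, map_one, (mt_utri _).2 i]
  · intro i j k
    refine ⟨(seq k).1.ker, (seq k).2, fun y _ w _ hw => ?_⟩
    change (p : ℤ_[p]) ^ k ∣ z (y * w) i j - z y i j
    have h6 : z (y * w) i j - z y i j ∈ RingHom.ker (PadicInt.toZModPow (p := p) (k + 1)) := by
      rw [RingHom.mem_ker, map_sub, hz, hz, map_mul, MonoidHom.mem_ker.1 hw, mul_one, sub_self]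
    rw [PadicInt.ker_toZModPow, Ideal.mem_span_singleton] at h6
    exact (pow_dvd_pow _ (Nat.le_succ k)).trans h6
  · intro hρ
    apply hxW
    rw [← QuotientGroup.eq_one_iff]
    refine h3 _ ?_
    have h7 : mt (φ₀ x) = ρ₀ (x : Γ ⧸ W) := hφ₀' _
    rw [← h7]
    ext i j
    have h8 : mt (φ₀ x) i j = PadicInt.toZModPow (0 + 1) (z x i j) := (hz x i j 0).symm
    have h9 : z x i j = (1 : Matrix (Fin N) (Fin N) ℤ_[p]) i j :=
      congrArg (fun A : Matrix (Fin N) (Fin N) ℤ_[p] => A i j) hρ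
    rw [h8, h9, Matrix.one_apply, Matrix.one_apply]
    split_ifs
    · rw [map_one]
    · rw [map_zero]

end Pool.Agent.H371.GT
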