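import Pool.Agent.H371.GT.Q4

set_option autoImplicit false

namespace Pool.Agent.H371.GT

open SE (AddOn LC CZ RI csum)

section
variable {p : ℕ} {G : Type} [Group G] [TopologicalSpace G] [IsTopologicalGroup G]
  [CompactSpace G] [T2Space G] [TotallyDisconnectedSpace G] {B : Set G}

theorem quot_basis (S : Set (G ⧸ NN p B)) (hS : IsOpen S) (h1 : (1 : G ⧸ NN p B) ∈ S) :
    ∃ W : Subgroup (G ⧸ NN p B), W.Normal ∧ IsOpen (W : Set (G ⧸ NN p B)) ∧
      (W : Set (G ⧸ NN p B)) ⊆ S := by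
  classical
  set F : Set (Subgroup G) := {M : Subgroup G | M.Normal ∧ IsOpen (M : Set G) ∧
    (∀ x : G, ∃ k : ℕ, x ^ p ^ k ∈ M) ∧ B ⊆ M} with hF
  have htop : (⊤ : Subgroup G) ∈ F :=
    ⟨inferInstance, by simp, fun x => ⟨0, Subgroup.mem_top _⟩, fun x _ => Subgroup.mem_top x⟩
  haveI : Nonempty F := ⟨⟨⊤, htop⟩⟩
  have hinf : ∀ M ∈ F, ∀ M' ∈ F, M ⊓ M' ∈ F := by
    rintro M ⟨a1, a2, a3, a4⟩ M' ⟨b1, b2, b3, b4⟩
    refine ⟨?_, ?_, ?_, ?_⟩
    · haveI := a1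
      haveI := b1
      infer_instance
    · rw [Subgroup.coe_inf]
      exact a2.inter b2
    · intro x
      obtain ⟨k, hk⟩ := a3 x
      obtain ⟨k', hk'⟩ := b3 x
      refine ⟨k + k', Subgroup.mem_inf.2 ⟨?_, ?_⟩⟩
      · rw [pow_add, pow_mul]
        exact M.pow_mem hk _
      · rw [pow_add, mul_comm, pow_mul]
        exact M'.pow_mem hk' _
    · intro x hx
      exact Subgroup.mem_inf.2 ⟨a4 hx, b4 hx⟩
  have hdir : Directed (· ⊇ ·) (fun M : F => ((M : Subgroup G) : Set G)) := by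
    rintro ⟨M, hM⟩ ⟨M', hM'⟩
    refine ⟨⟨M ⊓ M', hinf M hM M' hM'⟩, ?_, ?_⟩
    · exact fun x hx => (Subgroup.mem_inf.1 hx).1
    · exact fun x hx => (Subgroup.mem_inf.1 hx).2
  have hcl : ∀ M : F, IsClosed ((M : Subgroup G) : Set G) := fun M =>
    Subgroup.isClosed_of_isOpen _ M.2.2.1
  have hop : IsOpen ((fun x : G => (x : G ⧸ NN p B)) ⁻¹' S) :=
    hS.preimage continuous_quotient_mk'
  obtain ⟨⟨M, hM⟩, hsub⟩ := exists_subset_nhds_of_isCompact' hdir (fun M => (hcl M).isCompact) hcl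
    (U := (fun x : G => (x : G ⧸ NN p B)) ⁻¹' S) (by
      intro x hx
      have hx' : x ∈ NN p B := by
        rw [NN, Subgroup.mem_sInf]
        intro M hM
        exact Set.mem_iInter.1 hx ⟨M, hM⟩
      apply hop.mem_nhds
      show ((x : G) : G ⧸ NN p B) ∈ S
      rw [(QuotientGroup.eq_one_iff x).2 hx']
      exact h1)
  refine ⟨M.map (QuotientGroup.mk' (NN p B)), ?_, ?_, ?_⟩
  · exact Subgroup.Normal.map hM.1 _ (QuotientGroup.mk'_surjective _)
  · rw [Subgroup.coe_map]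
    exact QuotientGroup.isOpenMap_coe _ hM.2.1
  · rintro _ ⟨x, hx, rfl⟩
    exact hsub hx

theorem quot_T2 : T2Space (G ⧸ NN p B) := by
  haveI : IsClosed ((NN p B : Subgroup G) : Set G) := NN_closed
  infer_instance

end

end Pool.Agent.H371.GT
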