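import Pool.Agent.H371.GT.Q4

set_option autoImplicit false

namespace Pool.Agent.H371.GT

open SE (AddOn LC CZ RI csum)

namespace Q5bx

section
variable {p : ℕ} {G : Type} [Group G] [TopologicalSpace G]

/-- open normal subgroups are cofinal among the open subgroups -/
theorem exists_normal_le [IsTopologicalGroup G] [CompactSpace G] [TotallyDisconnectedSpace G]
    (W : Subgroup G) (hW : IsOpen (W : Set G)) :
    ∃ V : Subgroup G, V.Normal ∧ IsOpen (V : Set G) ∧ V ≤ W := by
  obtain ⟨V, hV⟩ := ProfiniteGrp.exist_openNormalSubgroup_sub_open_nhds_of_one hW (one_mem W)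
  exact ⟨V.toSubgroup, V.isNormal', V.isOpen', fun x hx => hV hx⟩

theorem pow_add_of {N : Subgroup G} {g : G → ZMod p}
    (h : ∀ x ∈ N, ∀ y ∈ N, g (x * y) = g x + g y) {x : G} (hx : x ∈ N) (n : ℕ) :
    g (x ^ n) = n * g x := by
  have h1 : g 1 = 0 := by
    have := h 1 (one_mem N) 1 (one_mem N)
    rw [mul_one] at this
    exact left_eq_add.1 this
  induction n with
  | zero => rw [pow_zero, h1, Nat.cast_zero, zero_mul]
  | succ n ih =>
    rw [pow_succ, h _ (N.pow_mem hx n) _ hx, ih, Nat.cast_succ]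
    ring

/-- the core of the argument: an additive function on `NN p B` invariant under `W`, locally
constant on `W` and zero on `B`, is zero. -/
theorem zero_of [Fact p.Prime] [IsTopologicalGroup G] [CompactSpace G]
    [TotallyDisconnectedSpace G] {B : Set G}
    (hBc : ∀ b ∈ B, ∀ u : G, u * b * u⁻¹ ∈ B) (W : Subgroup G) (hW : IsOpen (W : Set G))
    (hNW : NN p B ≤ W) (g : G → ZMod p) (hlc : LC W g)
    (hadd : ∀ x ∈ NN p B, ∀ y ∈ NN p B, g (x * y) = g x + g y)
    (hB : ∀ b ∈ B, g b = 0) : ∀ x ∈ NN p B, g x = 0 := by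
  have hN : (NN p B).Normal := NN_normal p B
  have h1 : g 1 = 0 := by
    have := hadd 1 (one_mem _) 1 (one_mem _)
    rw [mul_one] at this
    exact left_eq_add.1 this
  have hinv : ∀ x ∈ NN p B, g x⁻¹ = - g x := by
    intro x hx
    have h2 := hadd x hx x⁻¹ (inv_mem hx)
    rw [mul_inv_cancel, h1] at h2
    exact (neg_eq_of_add_eq_zero_right h2.symm).symm
  let M : Subgroup G :=
    { carrier := {x | x ∈ NN p B ∧ ∀ u : G, g (u * x * u⁻¹) = 0}
      one_mem' := by
        refine ⟨one_mem _, fun u => ?_⟩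
        rw [mul_one, mul_inv_cancel, h1]
      mul_mem' := by
        rintro x y ⟨hx, hx'⟩ ⟨hy, hy'⟩
        refine ⟨mul_mem hx hy, fun u => ?_⟩
        have e : u * (x * y) * u⁻¹ = (u * x * u⁻¹) * (u * y * u⁻¹) := by group
        rw [e, hadd _ (hN.conj_mem x hx u) _ (hN.conj_mem y hy u), hx', hy', add_zero]
      inv_mem' := by
        rintro x ⟨hx, hx'⟩
        refine ⟨inv_mem hx, fun u => ?_⟩
        have e : u * x⁻¹ * u⁻¹ = (u * x * u⁻¹)⁻¹ := by group
        rw [e, hinv _ (hN.conj_mem x hx u), hx', neg_zero] }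
  have hMn : M.Normal := by
    refine ⟨fun x hx v => ?_⟩
    refine ⟨hN.conj_mem x hx.1 v, fun u => ?_⟩
    have e : u * (v * x * v⁻¹) * u⁻¹ = (u * v) * x * (u * v)⁻¹ := by group
    rw [e]
    exact hx.2 (u * v)
  have hMB : B ⊆ M := by
    intro b hb
    exact ⟨subset_NN hb, fun u => hB _ (hBc b hb u)⟩
  have hMp : ∀ x ∈ NN p B, x ^ p ∈ M := by
    intro x hx
    refine ⟨pow_mem hx p, fun u => ?_⟩
    have e : u * x ^ p * u⁻¹ = (u * x * u⁻¹) ^ p := by
      rw [conj_pow]
    rw [e, pow_add_of hadd (hN.conj_mem x hx u) p, CharP.cast_eq_zero, zero_mul]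
  obtain ⟨W1, hW1, hg1⟩ := hlc
  obtain ⟨V, hVn, hVo, hVle⟩ := exists_normal_le (W ⊓ W1) (by
    rw [Subgroup.coe_inf]
    exact hW.inter hW1)
  have hVM : NN p B ⊓ V ≤ M := by
    intro x hx
    refine ⟨hx.1, fun u => ?_⟩
    have h2 := hVn.conj_mem x hx.2 u
    have h3 := hVle h2
    have h4 := hg1 1 (one_mem W) (u * x * u⁻¹) h3.1 h3.2
    rw [one_mul, h1] at h4
    exact h4
  have h5 : NN p B ≤ M := NN_core hMn hMB hMp ⟨V, hVn, hVo, hVM⟩
  intro x hx
  have h6 := (h5 hx).2 1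
  rwa [one_mul, inv_one, mul_one] at h6

end

end Q5bx

section
variable {p : ℕ} [Fact p.Prime] {G : Type} [Group G] [TopologicalSpace G] [IsTopologicalGroup G]
  [CompactSpace G] [T2Space G] [TotallyDisconnectedSpace G] {B : Set G}

theorem quot_cd (hBc : ∀ b ∈ B, ∀ u : G, u * b * u⁻¹ ∈ B) (ha : CD p G) (hb : HB p B) :
    CD p (G ⧸ NN p B) := by
  intro U' hU' C' hcoc' hlc'
  have hN : (NN p B).Normal := NN_normal p B
  let π : G →* G ⧸ NN p B := QuotientGroup.mk' (NN p B)
  have hπc : Continuous π := QuotientGroup.continuous_mk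
  have hπo : IsOpenMap π := QuotientGroup.isOpenMap_coe
  have hπs : Function.Surjective π := QuotientGroup.mk'_surjective (NN p B)
  have hπN : ∀ n ∈ NN p B, π n = 1 := by
    intro n hn
    exact (QuotientGroup.eq_one_iff n).2 hn
  let W : Subgroup G := U'.comap π
  have hWo : IsOpen (W : Set G) := hU'.preimage hπc
  have hNW : NN p B ≤ W := by
    intro n hn
    show π n ∈ U'
    rw [hπN n hn]
    exact one_mem U'
  have hmem : ∀ {x : G}, x ∈ W ↔ π x ∈ U' := Iff.rfl
  obtain ⟨W', hW'o, hW'⟩ := hlc'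
  obtain ⟨g0, hg0lc, hg0⟩ := ha W hWo (fun x y => C' (π x) (π y))
    (by
      intro x hx y hy z hz
      have := hcoc' (π x) hx (π y) hy (π z) hz
      simpa only [map_mul] using this)
    (by
      refine ⟨W'.comap π, hW'o.preimage hπc, ?_⟩
      intro x hx y hy w hw w' hw' hww hww'
      have := hW' (π x) hx (π y) hy (π w) hw (π w') hw' hww hww'
      simpa only [map_mul] using this)
  -- normalization of the cocycle
  obtain ⟨c0, hc0⟩ : ∃ c0, c0 = C' 1 1 := ⟨_, rfl⟩
  have hC1 : ∀ x ∈ U', C' x 1 = c0 := by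
    intro x hx
    have := hcoc' x hx 1 (one_mem _) 1 (one_mem _)
    rw [mul_one, mul_one] at this
    rw [hc0]
    exact add_right_cancel this
  have hC2 : ∀ x ∈ U', C' 1 x = c0 := by
    intro x hx
    have := hcoc' 1 (one_mem _) 1 (one_mem _) x hx
    rw [one_mul, one_mul] at this
    rw [hc0]
    exact (add_right_cancel this).symm
  let k : G → ZMod p := fun x => g0 x + c0
  have hk : ∀ x ∈ W, ∀ y ∈ W, k (x * y) = k x + k y + (C' (π x) (π y) - c0) := by
    intro x hx y hy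
    show g0 (x * y) + c0 = (g0 x + c0) + (g0 y + c0) + (C' (π x) (π y) - c0)
    rw [hg0 x hx y hy]
    ring
  have hk1 : ∀ x ∈ W, ∀ n ∈ NN p B, k (x * n) = k x + k n := by
    intro x hx n hn
    rw [hk x hx n (hNW hn), hπN n hn, hC1 _ hx, sub_self, add_zero]
  have hk2 : ∀ x ∈ W, ∀ n ∈ NN p B, k (n * x) = k n + k x := by
    intro x hx n hn
    rw [hk n (hNW hn) x hx, hπN n hn, hC2 _ hx, sub_self, add_zero]
  have hkadd : ∀ x ∈ NN p B, ∀ y ∈ NN p B, k (x * y) = k x + k y := by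
    intro x hx y hy
    exact hk1 x (hNW hx) y hy
  have hkinv : ∀ w ∈ W, ∀ x ∈ NN p B, k (w * x * w⁻¹) = k x := by
    intro w hw x hx
    have h1 := hk2 w hw (w * x * w⁻¹) (hN.conj_mem x hx w)
    rw [inv_mul_cancel_right, hk1 w hw x hx, add_comm] at h1
    exact (add_right_cancel h1).symm
  have hklc : LC W k := by
    obtain ⟨W1, hW1, h⟩ := hg0lc
    refine ⟨W1, hW1, fun x hx w hw hw' => ?_⟩
    show g0 (x * w) + c0 = g0 x + c0
    rw [h x hx w hw hw']
  obtain ⟨h, hhadd, hhlc, hhB⟩ := hb W hWo hNW k hklc hkadd hkinv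
  let g : G → ZMod p := fun x => k x - h x
  have hglc : LC W g := by
    obtain ⟨W1, hW1, h1⟩ := hklc
    obtain ⟨W2, hW2, h2⟩ := hhlc
    refine ⟨W1 ⊓ W2, ?_, fun x hx w hw hw' => ?_⟩
    · rw [Subgroup.coe_inf]
      exact hW1.inter hW2
    · show k (x * w) - h (x * w) = k x - h x
      rw [h1 x hx w hw hw'.1, h2 x hx w hw hw'.2]
  have hgadd : ∀ x ∈ NN p B, ∀ y ∈ NN p B, g (x * y) = g x + g y := by
    intro x hx y hy
    show k (x * y) - h (x * y) = (k x - h x) + (k y - h y)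
    rw [hkadd x hx y hy, hhadd x (hNW hx) y (hNW hy)]
    ring
  have hgB : ∀ b ∈ B, g b = 0 := by
    intro b hbB
    show k b - h b = 0
    rw [hhB b hbB, sub_self]
  have hgN : ∀ x ∈ NN p B, g x = 0 := Q5bx.zero_of hBc W hWo hNW g hglc hgadd hgB
  have hgW : ∀ w ∈ W, ∀ n ∈ NN p B, g (w * n) = g w := by
    intro w hw n hn
    have h1 : k n - h n = 0 := hgN n hn
    show k (w * n) - h (w * n) = k w - h w
    rw [hk1 w hw n hn, hhadd w hw n (hNW hn)]
    linear_combination h1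
  have hgmul : ∀ x ∈ W, ∀ y ∈ W, g (x * y) = g x + g y + (C' (π x) (π y) - c0) := by
    intro x hx y hy
    show k (x * y) - h (x * y) = (k x - h x) + (k y - h y) + (C' (π x) (π y) - c0)
    rw [hk x hx y hy, hhadd x hx y hy]
    ring
  -- descent
  have hout : ∀ x ∈ W, g (Quotient.out (π x)) = g x := by
    intro x hx
    obtain ⟨n, hn⟩ := QuotientGroup.mk_out_eq_mul (NN p B) x
    have h1 : Quotient.out (π x) = x * n := hn
    rw [h1]
    exact hgW x hx n n.2
  refine ⟨fun y => g (Quotient.out y) - c0, ?_, ?_⟩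
  · obtain ⟨W1, hW1, h1⟩ := hglc
    refine ⟨(W ⊓ W1).map π, ?_, ?_⟩
    · rw [Subgroup.coe_map]
      apply hπo
      rw [Subgroup.coe_inf]
      exact hWo.inter hW1
    · rintro x hx _ hw ⟨v, hv, rfl⟩
      obtain ⟨a, rfl⟩ := hπs x
      show g (Quotient.out (π a * π v)) - c0 = g (Quotient.out (π a)) - c0
      rw [← map_mul, hout (a * v) (W.mul_mem hx hv.1), hout a hx, h1 a hx v hv.1 hv.2]
  · intro x hx y hy
    obtain ⟨a, rfl⟩ := hπs x
    obtain ⟨b, rfl⟩ := hπs y
    show g (Quotient.out (π a * π b)) - c0 = (g (Quotient.out (π a)) - c0) +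
      (g (Quotient.out (π b)) - c0) + C' (π a) (π b)
    rw [← map_mul, hout (a * b) (W.mul_mem hx hy), hout a hx, hout b hy, hgmul a hx b hy]
    ring

end

end Pool.Agent.H371.GT
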