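import Pool.Agent.H371.GT.Q3
import Pool.Agent.H371.GT.Q5a
import Pool.Agent.H371.GT.Q5b
import Pool.Agent.H371.SE.A15

set_option autoImplicit false

namespace Pool.Agent.H371.GT

open SE (AddOn LC CZ RI csum)

namespace Q6x

section
variable {p : ℕ} {G : Type} [Group G] [TopologicalSpace G]

theorem cdtop_of_cd (h : CD p G) : CDtop p G := by
  intro C hC hW
  obtain ⟨W, hWo, hW⟩ := hW
  obtain ⟨g, hg, hg2⟩ := h ⊤ (by rw [Subgroup.coe_top]; exact isOpen_univ) C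
    (fun x _ y _ z _ => hC x y z)
    ⟨W, hWo, fun x _ y _ w _ w' _ hw hw' => hW x y w hw w' hw'⟩
  exact ⟨g, hg, fun x y => hg2 x (Subgroup.mem_top _) y (Subgroup.mem_top _)⟩

variable [IsTopologicalGroup G] {N : Subgroup G} [N.Normal]

theorem isOpen_map {W : Subgroup G} (hW : IsOpen (W : Set G)) :
    IsOpen ((W.map (QuotientGroup.mk' N) : Subgroup (G ⧸ N)) : Set (G ⧸ N)) := by
  rw [Subgroup.coe_map]
  exact QuotientGroup.isOpenMap_coe _ hW

omit [IsTopologicalGroup G] in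
theorem isOpen_comap {W : Subgroup (G ⧸ N)} (hW : IsOpen (W : Set (G ⧸ N))) :
    IsOpen ((W.comap (QuotientGroup.mk' N) : Subgroup G) : Set G) := by
  rw [Subgroup.coe_comap]
  exact hW.preimage continuous_quot_mk

omit [TopologicalSpace G] [IsTopologicalGroup G] in
theorem addOn_one {H : Type} [Group H] {ψ : H → ZMod p} (h : AddOn ⊤ ψ) : ψ 1 = 0 := by
  have h1 := h 1 (Subgroup.mem_top _) 1 (Subgroup.mem_top _)
  rw [mul_one] at h1
  exact left_eq_add.1 h1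

omit [TopologicalSpace G] [IsTopologicalGroup G] in
theorem addOn_comp {ψ : G ⧸ N → ZMod p} (h : AddOn ⊤ ψ) :
    AddOn ⊤ (fun x : G => ψ (QuotientGroup.mk x)) := by
  intro x _ y _
  exact h (QuotientGroup.mk x) (Subgroup.mem_top _) (QuotientGroup.mk y) (Subgroup.mem_top _)

omit [IsTopologicalGroup G] in
theorem lc_comp {ψ : G ⧸ N → ZMod p} (h : LC ⊤ ψ) :
    LC ⊤ (fun x : G => ψ (QuotientGroup.mk x)) := by
  obtain ⟨W, hW, h⟩ := h
  refine ⟨W.comap (QuotientGroup.mk' N), isOpen_comap hW, ?_⟩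
  intro x _ w _ hw
  exact h (QuotientGroup.mk x) (Subgroup.mem_top _) (QuotientGroup.mk w) (Subgroup.mem_top _) hw

end

end Q6x

section
variable {p : ℕ} [Fact p.Prime] {G : Type} [Group G] [TopologicalSpace G] [IsTopologicalGroup G]
  [CompactSpace G] [T2Space G] [TotallyDisconnectedSpace G] {B : Set G}

theorem quot_good (hBc : ∀ b ∈ B, ∀ u : G, u * b * u⁻¹ ∈ B) (ha : CD p G) (hb : HB p B) :
    SE.Good p (G ⧸ NN p B) := by
  have hcd : CD p (G ⧸ NN p B) := quot_cd hBc ha hb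
  refine ⟨fun S hS h1 => quot_basis S hS h1, hcd, ?_⟩
  refine sep_of_cd (Q6x.cdtop_of_cd hcd) ?_
  intro x hx
  obtain ⟨y, rfl⟩ := QuotientGroup.mk_surjective x
  have hy : y ∉ NN p B := by
    intro h
    exact hx ((QuotientGroup.eq_one_iff y).2 h)
  rw [NN, Subgroup.mem_sInf] at hy
  push Not at hy
  obtain ⟨M, ⟨hMn, hMo, hMp, hMB⟩, hyM⟩ := hy
  have hNM : NN p B ≤ M := NN_le hMn hMo hMp hMB
  have ho := Q6x.isOpen_map (N := NN p B) hMo
  refine ⟨M.map (QuotientGroup.mk' (NN p B)), ?_, ho, ?_, ?_, ?_⟩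
  · exact Subgroup.Normal.map hMn _ (QuotientGroup.mk'_surjective _)
  · have : Finite ((G ⧸ NN p B) ⧸ (M.map (QuotientGroup.mk' (NN p B)))) :=
      Subgroup.quotient_finite_of_isOpen _ ho
    exact Subgroup.finiteIndex_of_finite_quotient
  · intro q
    obtain ⟨a, rfl⟩ := QuotientGroup.mk_surjective q
    obtain ⟨k, hk⟩ := hMp a
    exact ⟨k, ⟨a ^ p ^ k, hk, rfl⟩⟩
  · rintro ⟨m, hm, hmy⟩
    have h1 : m⁻¹ * y ∈ NN p B := QuotientGroup.eq.1 hmy
    have h2 := M.mul_mem hm (hNM h1)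
    rw [mul_inv_cancel_left] at h2
    exact hyM h2

/-- rigidity modulo `NN p B` -/
theorem rigid_quot (z : G) (hBc : ∀ b ∈ B, ∀ u : G, u * b * u⁻¹ ∈ B) (ha : CD p G)
    (hb : HB p B)
    (hc : ∀ χ : G → ZMod p, AddOn ⊤ χ → LC ⊤ χ → (∀ b ∈ B, χ b = 0) → (∃ x, χ x ≠ 0) →
      ∃ ψ : G → ZMod p, AddOn ⊤ ψ ∧ LC ⊤ ψ ∧ (∀ b ∈ B, ψ b = 0) ∧
        ∀ γ : G → ZMod p, LC ⊤ γ → (∀ x y, γ (x * y) = γ x + γ y + χ x * ψ y) →
          (∀ b ∈ B, γ b = 0) → γ z ≠ 0)
    (hd : ∀ ψ : G → ZMod p, AddOn ⊤ ψ → LC ⊤ ψ → (∀ b ∈ B, ψ b = 0) → ψ z = 0)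
    (t : MulAut G) (ht : Continuous t) (htp : t ^ p = 1) (htB : ∀ b ∈ B, t b ∈ NN p B)
    (htz : z⁻¹ * t z ∈ NN p B) : ∀ x, x⁻¹ * t x ∈ NN p B := by
  have hmap : ∀ x ∈ NN p B, t x ∈ NN p B := NN_map ht htB
  have hpow : ∀ (k : ℕ), ∀ x ∈ NN p B, (t ^ k) x ∈ NN p B := by
    intro k
    induction k with
    | zero => intro x hx; simpa using hx
    | succ k ih =>
      intro x hx
      rw [pow_succ', MulAut.mul_apply]
      exact hmap _ (ih x hx)
  have hp1 : 1 ≤ p := (Fact.out : p.Prime).one_lt.le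
  have hinv : t * t ^ (p - 1) = 1 := by
    rw [← pow_succ', Nat.sub_add_cancel hp1, htp]
  have hNt : (NN p B).map (t : G →* G) = NN p B := by
    ext x
    constructor
    · rintro ⟨y, hy, rfl⟩
      exact hmap y hy
    · intro hx
      refine ⟨(t ^ (p - 1)) x, hpow _ x hx, ?_⟩
      have h1 : (t * t ^ (p - 1)) x = x := by rw [hinv]; rfl
      exact h1
  let t' : MulAut (G ⧸ NN p B) := QuotientGroup.congr (NN p B) (NN p B) t hNt
  have ht' : ∀ x : G, t' (QuotientGroup.mk x) = QuotientGroup.mk (t x) := fun x => rfl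
  have hct : Continuous t' := by
    have h1 : Continuous (fun x : G => (QuotientGroup.mk (t x) : G ⧸ NN p B)) :=
      continuous_quot_mk.comp ht
    exact (QuotientGroup.isQuotientMap_mk (N := NN p B)).continuous_iff.2 h1
  have htk : ∀ (k : ℕ) (x : G), (t' ^ k) (QuotientGroup.mk x) = QuotientGroup.mk ((t ^ k) x) := by
    intro k
    induction k with
    | zero => intro x; rfl
    | succ k ih =>
      intro x
      rw [pow_succ', MulAut.mul_apply, ih, ht', pow_succ', MulAut.mul_apply]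
  have ht'p : t' ^ p = 1 := by
    ext q
    obtain ⟨x, rfl⟩ := QuotientGroup.mk_surjective q
    rw [htk, htp]
    rfl
  have hT2 : T2Space (G ⧸ NN p B) := quot_T2
  have hkB : ∀ b ∈ B, (QuotientGroup.mk b : G ⧸ NN p B) = 1 := fun b hb' =>
    (QuotientGroup.eq_one_iff b).2 (subset_NN hb')
  have hone := SE.rigid (Γ := G ⧸ NN p B) (t := t') (quot_good hBc ha hb) hct ht'p
    {(QuotientGroup.mk z : G ⧸ NN p B)} ?_ ?_ ?_
  · intro x
    have h1 : t' (QuotientGroup.mk x) = QuotientGroup.mk x := by rw [hone]; rfl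
    rw [ht'] at h1
    exact QuotientGroup.eq.1 h1.symm
  · intro q hq
    rw [Set.mem_singleton_iff] at hq
    rw [hq, ht']
    exact (QuotientGroup.eq.2 htz).symm
  · intro q hq ψ hψ1 hψ2
    rw [Set.mem_singleton_iff] at hq
    rw [hq]
    refine hd (fun x => ψ (QuotientGroup.mk x)) (Q6x.addOn_comp hψ1) (Q6x.lc_comp hψ2) ?_
    intro b hb'
    show ψ (QuotientGroup.mk b) = 0
    rw [hkB b hb']
    exact Q6x.addOn_one hψ1
  · intro χ hχ1 hχ2 hχ3
    obtain ⟨q, hq⟩ := hχ3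
    obtain ⟨x0, rfl⟩ := QuotientGroup.mk_surjective q
    obtain ⟨ψ, hψ1, hψ2, hψ3, hψ4⟩ := hc (fun x => χ (QuotientGroup.mk x)) (Q6x.addOn_comp hχ1)
      (Q6x.lc_comp hχ2) (by
        intro b hb'
        show χ (QuotientGroup.mk b) = 0
        rw [hkB b hb']
        exact Q6x.addOn_one hχ1) ⟨x0, hq⟩
    have hψN : ∀ x ∈ NN p B, ψ x = 0 := NN_hom hψ1 hψ2 hψ3
    have hwd : ∀ a b : G, a⁻¹ * b ∈ NN p B → ψ a = ψ b := by
      intro a b hab
      have h1 := hψ1 a (Subgroup.mem_top _) (a⁻¹ * b) (Subgroup.mem_top _)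
      rw [mul_inv_cancel_left, hψN _ hab, add_zero] at h1
      exact h1.symm
    let ψ' : G ⧸ NN p B → ZMod p := fun q => ψ q.out
    have hψ' : ∀ x : G, ψ' (QuotientGroup.mk x) = ψ x := by
      intro x
      refine hwd _ _ ?_
      exact QuotientGroup.eq.1 (QuotientGroup.out_eq' _)
    have hψ'1 : AddOn ⊤ ψ' := by
      intro q _ r _
      obtain ⟨a, rfl⟩ := QuotientGroup.mk_surjective q
      obtain ⟨b, rfl⟩ := QuotientGroup.mk_surjective r
      rw [← QuotientGroup.mk_mul, hψ', hψ', hψ']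
      exact hψ1 a (Subgroup.mem_top _) b (Subgroup.mem_top _)
    have hψ'2 : LC ⊤ ψ' := by
      obtain ⟨W, hWo, hW⟩ := hψ2
      refine ⟨W.map (QuotientGroup.mk' (NN p B)), Q6x.isOpen_map hWo, ?_⟩
      rintro q _ _ _ ⟨w, hw, rfl⟩
      obtain ⟨a, rfl⟩ := QuotientGroup.mk_surjective q
      have h1 : (QuotientGroup.mk' (NN p B)) w = QuotientGroup.mk w := rfl
      rw [h1, ← QuotientGroup.mk_mul, hψ', hψ']
      exact hW a (Subgroup.mem_top _) w (Subgroup.mem_top _) hw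
    have hcd := Q6x.cdtop_of_cd (quot_cd hBc ha hb)
    obtain ⟨γ, hγ1, hγ2⟩ := hcd (fun x y => χ x * ψ' y) (by
        intro x y z
        have h1 := hχ1 x (Subgroup.mem_top _) y (Subgroup.mem_top _)
        have h2 := hψ'1 y (Subgroup.mem_top _) z (Subgroup.mem_top _)
        rw [h1, h2]
        ring) (by
        obtain ⟨W₁, hW₁o, hW₁⟩ := hχ2
        obtain ⟨W₂, hW₂o, hW₂⟩ := hψ'2
        refine ⟨W₁ ⊓ W₂, ?_, ?_⟩
        · rw [Subgroup.coe_inf]
          exact hW₁o.inter hW₂o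
        · intro x y w hw w' hw'
          rw [hW₁ x (Subgroup.mem_top _) w (Subgroup.mem_top _) hw.1,
            hW₂ y (Subgroup.mem_top _) w' (Subgroup.mem_top _) hw'.2])
    refine ⟨QuotientGroup.mk z, Set.mem_singleton _, ψ', γ, hψ'1, hψ'2, hγ1, hγ2, ?_⟩
    refine hψ4 (fun x => γ (QuotientGroup.mk x)) (Q6x.lc_comp hγ1) ?_ ?_
    · intro x y
      rw [← hψ' y, QuotientGroup.mk_mul]
      exact hγ2 _ _
    · intro b hb'
      show γ (QuotientGroup.mk b) = 0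
      rw [hkB b hb']
      have h1 := hγ2 1 1
      rw [mul_one, Q6x.addOn_one hχ1, zero_mul, add_zero] at h1
      exact left_eq_add.1 h1

end

end Pool.Agent.H371.GT
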