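import Pool.Agent.H371.GT.F4

set_option autoImplicit false

namespace Pool.Agent.H371.GT

open SE (AddOn LC CZ RI csum)

namespace Z1x

/-- iteration of the difference equation -/
theorem pow_sum {δ E : F2 → ZMod 2} (hY : ∀ q, δ (Y * q) = δ q + E q) (q : F2) (e : ℕ) :
    δ (Y ^ e * q) = δ q + ∑ i ∈ Finset.range e, E (Y ^ i * q) := by
  induction e with
  | zero => rw [pow_zero, one_mul, Finset.sum_range_zero, add_zero]
  | succ e ih =>
    rw [pow_succ', mul_assoc, hY, ih, Finset.sum_range_succ, add_assoc]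

/-- step 1: `f` is congruent to a power of `Y` modulo any open normal subgroup -/
theorem exists_pow {f : F2} (h : f * Y = Y * f) (V : Subgroup F2) (hn : V.Normal)
    (hV : IsOpen (V : Set F2)) : ∃ n : ℕ, (Y ^ n)⁻¹ * f ∈ V := by
  classical
  by_contra hcon
  push Not at hcon
  have hfin : Finite (F2 ⧸ V) := F1x.finQ hV
  -- the order of `Y` modulo `V`
  obtain ⟨e, he0, heV, hemin⟩ : ∃ e : ℕ, 0 < e ∧ Y ^ e ∈ V ∧ ∀ i, 0 < i → i < e → Y ^ i ∉ V := by
    have hpos : 0 < orderOf (QuotientGroup.mk Y : F2 ⧸ V) := orderOf_pos _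
    refine ⟨orderOf (QuotientGroup.mk Y : F2 ⧸ V), hpos, ?_, ?_⟩
    · rw [← QuotientGroup.eq_one_iff, QuotientGroup.mk_pow]
      exact pow_orderOf_eq_one _
    · intro i hi0 hi hiV
      rw [← QuotientGroup.eq_one_iff, QuotientGroup.mk_pow] at hiV
      exact pow_ne_one_of_lt_orderOf hi0.ne' hi hiV
  let E : F2 → ZMod 2 := fun q => if q ∈ V then 1 else 0
  have hE : RI V E := by
    intro x u hu
    show (if x * u ∈ V then (1 : ZMod 2) else 0) = if x ∈ V then 1 else 0
    by_cases hx : x ∈ V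
    · rw [if_pos hx, if_pos (V.mul_mem hx hu)]
    · rw [if_neg hx, if_neg fun h' => hx ((Subgroup.mul_mem_cancel_right V hu).1 h')]
  have hE1 : csum V E = 1 := by
    rw [SE.csum_single hE (fun x hx => if_neg hx)]
    exact if_pos V.one_mem
  have hE0 : RI V (fun _ => (0 : ZMod 2)) := fun _ _ _ => rfl
  have hs0 : csum V (fun _ : F2 => (0 : ZMod 2)) = 0 := by
    unfold csum
    exact finsum_zero
  have hsum : csum V E + csum V E + csum V (fun _ : F2 => (0 : ZMod 2)) = 0 := by
    rw [hs0, hE1]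
    decide
  obtain ⟨δ, m₁, m₃, d1, dQ, -, -, -, -, dY, -⟩ := exists_QH_sum hV E E _ hE hE hE0 hsum
  have hcomm : Y ^ e * f = f * Y ^ e := by
    have h1 : Commute f Y := h
    exact (h1.pow_right e).eq.symm
  -- the value at `Y ^ e` computed at `1`
  have v1 : δ (Y ^ e) = 1 := by
    have h1 := pow_sum dY 1 e
    rw [mul_one, d1, zero_add] at h1
    rw [h1, Finset.sum_eq_single 0]
    · rw [pow_zero, one_mul]
      exact if_pos V.one_mem
    · intro i hi hi0
      rw [mul_one]
      exact if_neg (hemin i (Nat.pos_of_ne_zero hi0) (Finset.mem_range.1 hi))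
    · intro h0
      exact absurd (Finset.mem_range.2 he0) h0
  -- the value at `Y ^ e` computed at `f`
  have v2 : δ (Y ^ e) = 0 := by
    have h1 := pow_sum dY f e
    rw [hcomm, dQ f _ heV, Finset.sum_eq_zero] at h1
    · exact add_left_cancel h1
    · intro i hi
      refine if_neg fun hi2 => hcon (e - i) ?_
      have h3 : (Y ^ (e - i))⁻¹ * f = (Y ^ e)⁻¹ * (Y ^ i * f) := by
        have h4 : Y ^ e = Y ^ i * Y ^ (e - i) := by
          rw [← pow_add, Nat.add_sub_cancel' (Finset.mem_range.1 hi).le]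
        rw [h4, mul_inv_rev, ← mul_assoc, mul_assoc (Y ^ (e - i))⁻¹, inv_mul_cancel, mul_one]
      rw [h3]
      exact V.mul_mem (V.inv_mem heV) hi2
  rw [v1] at v2
  exact one_ne_zero v2

/-- homomorphisms to commutative groups with open kernel kill the derived subgroup -/
theorem map_derived {A : Type} [CommGroup A] (κ : F2 →* A) (hκ : IsOpen (κ.ker : Set F2))
    {f : F2} (hf : f ∈ derived) : κ f = 1 := by
  have h1 : derived ⊆ (κ.ker : Set F2) := by
    apply closure_minimal
    · exact Abelianization.commutator_subset_ker κ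
    · exact Subgroup.isClosed_of_isOpen _ hκ
  exact h1 hf

end Z1x

/-- the elements of the derived subgroup which commute with `Y` are trivial -/
theorem eq_one_of_comm {f : F2} (hf : f ∈ derived) (h : f * Y = Y * f) : f = 1 := by
  apply eq_of_forall_mk_eq
  intro N
  rw [QuotientGroup.mk_one, QuotientGroup.eq_one_iff]
  have hfin : Finite (F2 ⧸ N.toSubgroup) := F1x.finQ N.isOpen'
  have hpos : 0 < orderOf (QuotientGroup.mk Y : F2 ⧸ N.toSubgroup) := orderOf_pos _
  obtain ⟨e, he⟩ : ∃ e, e = orderOf (QuotientGroup.mk Y : F2 ⧸ N.toSubgroup) := ⟨_, rfl⟩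
  rw [← he] at hpos
  have : NeZero e := ⟨hpos.ne'⟩
  obtain ⟨κ, -, kY, ko⟩ := exists_finite_XY (1 : Multiplicative (ZMod e))
    (Multiplicative.ofAdd (1 : ZMod e))
  obtain ⟨n, hn⟩ := Z1x.exists_pow h (N.toSubgroup ⊓ κ.ker) inferInstance
    (by
      rw [Subgroup.coe_inf]
      exact N.isOpen'.inter ko)
  obtain ⟨hn1, hn2⟩ := Subgroup.mem_inf.1 hn
  rw [MonoidHom.mem_ker, map_mul, map_inv, map_pow, Z1x.map_derived κ ko hf, mul_one,
    inv_eq_one, kY, ← ofAdd_nsmul, ofAdd_eq_one, nsmul_one, ZMod.natCast_eq_zero_iff] at hn2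
  have h1 : Y ^ n ∈ N.toSubgroup := by
    rw [← QuotientGroup.eq_one_iff, QuotientGroup.mk_pow]
    rw [he] at hn2
    exact orderOf_dvd_iff_pow_eq_one.1 hn2
  have h2 : f = Y ^ n * ((Y ^ n)⁻¹ * f) := by
    rw [mul_inv_cancel_left]
  rw [h2]
  exact N.toSubgroup.mul_mem h1 hn1

end Pool.Agent.H371.GT
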